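import Mathlib

namespace Pool.Agent.Lib.MP_41d825_an.Cyc

/-- The vector field of the cubic rigid system with six parameters. -/
def rigid (a b c d e f : ℝ) (p : ℝ × ℝ) : ℝ × ℝ :=
  (-p.2 + p.1 * (a + b * p.1 + c * p.2 + d * p.1 ^ 2 + e * p.1 * p.2 + f * p.2 ^ 2),
    p.1 + p.2 * (a + b * p.1 + c * p.2 + d * p.1 ^ 2 + e * p.1 * p.2 + f * p.2 ^ 2))

/-- `O` is the image of a non-constant periodic solution of `γ' = V γ`. -/
def IsPeriodicOrbit (V : ℝ × ℝ → ℝ × ℝ) (O : Set (ℝ × ℝ)) : Prop :=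
  ∃ (γ : ℝ → ℝ × ℝ) (T : ℝ), 0 < T ∧ (∀ t, HasDerivAt γ (V (γ t)) t) ∧
    (∀ t, γ (t + T) = γ t) ∧ (∃ s t, γ s ≠ γ t) ∧ Set.range γ = O

/-- `O` is a periodic orbit that is an isolated point of the set of periodic orbits for the
Hausdorff distance. -/
def IsLimitCycle (V : ℝ × ℝ → ℝ × ℝ) (O : Set (ℝ × ℝ)) : Prop :=
  IsPeriodicOrbit V O ∧ ∃ ε : ENNReal, 0 < ε ∧
    ∀ O', IsPeriodicOrbit V O' → Metric.hausdorffEDist O' O < ε → O' = O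

end Pool.Agent.Lib.MP_41d825_an.Cyc
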