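import Pool.Agent.Lib.MP_41d825_an.Polar
import Pool.Agent.Lib.MP_41d825_an.CycDefs

/-! Limit cycles of the six-parameter family, isolation for the Hausdorff distance. -/

namespace Pool.Agent.Lib.MP_41d825_an.Cyc

open Real Set Filter Topology

lemma po_of_persol {a b c d e f : ℝ} {u : ℝ → ℝ} (hu : PerSol a (Aq d e f) (Bq b c) u) :
    IsPeriodicOrbit (rigid a b c d e f) (orb u) := by
  refine ⟨fun t => (cos t / u t, sin t / u t), 2 * π, by positivity, fun t => ?_, fun t => ?_,
    ⟨0, π, fun h => ?_⟩, rfl⟩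
  · have h0 := (hu.pos t).ne'
    refine HasDerivAt.prodMk (((hasDerivAt_cos t).fun_div (hu.der t) h0).congr_deriv ?_)
      (((hasDerivAt_sin t).fun_div (hu.der t) h0).congr_deriv ?_)
    · unfold G Aq Bq
      field_simp
      ring
    · unfold G Aq Bq
      field_simp
      ring
  · simp only [hu.per t, cos_add_two_pi, sin_add_two_pi]
  · have h1 := congrArg Prod.fst h
    simp only [cos_zero, cos_pi] at h1
    have h2 : 0 < 1 / u 0 := div_pos one_pos (hu.pos 0)
    have h3 : -1 / u π < 0 := div_neg_of_neg_of_pos (by norm_num) (hu.pos π)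
    linarith

lemma persol_of_po {a b c d e f : ℝ} {O : Set (ℝ × ℝ)} 
    (h : IsPeriodicOrbit (rigid a b c d e f) O) :
    ∃ u, PerSol a (Aq d e f) (Bq b c) u ∧ O = orb u := by
  obtain ⟨γ, T, hT, hγ, hper, ⟨s₁, s₂, hne⟩, rfl⟩ := h
  obtain ⟨x, hxd⟩ : ∃ x : ℝ → ℝ, x = fun t => (γ t).1 := ⟨_, rfl⟩
  obtain ⟨y, hyd⟩ : ∃ y : ℝ → ℝ, y = fun t => (γ t).2 := ⟨_, rfl⟩
  have hγe : ∀ t, γ t = (x t, y t) := fun t => by rw [hxd, hyd]
  obtain ⟨F, hF⟩ : ∃ F : ℝ → ℝ,
      F = fun t => a + b * x t + c * y t + d * x t ^ 2 + e * x t * y t + f * y t ^ 2 :=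
    ⟨_, rfl⟩
  have hx : ∀ t, HasDerivAt x (-y t + x t * F t) t := fun t => by
    rw [hF, hxd, hyd]
    exact (ContinuousLinearMap.fst ℝ ℝ ℝ).hasFDerivAt.comp_hasDerivAt t (hγ t)
  have hy : ∀ t, HasDerivAt y (x t + y t * F t) t := fun t => by
    rw [hF, hxd, hyd]
    exact (ContinuousLinearMap.snd ℝ ℝ ℝ).hasFDerivAt.comp_hasDerivAt t (hγ t)
  have hxc := cont_of_der hx
  have hyc := cont_of_der hy
  have hFc : Continuous F := by rw [hF]; fun_prop
  obtain ⟨E, hE⟩ : ∃ E : ℝ → ℝ, E = fun t => exp (∫ s in (0 : ℝ)..t, F s) := ⟨_, rfl⟩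
  have hE0 : ∀ t, 0 < E t := fun t => by rw [hE]; exact exp_pos _
  have hE' : ∀ t, HasDerivAt E (E t * F t) t := fun t => by
    rw [hE]; exact (hFc.integral_hasStrictDerivAt 0 t).hasDerivAt.exp
  have w1 : ∀ t, x t * cos t + y t * sin t = x 0 * E t := fun t => by
    have := lin_ode (d := fun t => x t * cos t + y t * sin t) hFc (fun t =>
      (((hx t).fun_mul (hasDerivAt_cos t)).fun_add
        ((hy t).fun_mul (hasDerivAt_sin t))).congr_deriv (by ring)) 0 t
    rw [hE]; simpa using this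
  have w2 : ∀ t, y t * cos t - x t * sin t = y 0 * E t := fun t => by
    have := lin_ode (d := fun t => y t * cos t - x t * sin t) hFc (fun t =>
      (((hy t).fun_mul (hasDerivAt_cos t)).fun_sub
        ((hx t).fun_mul (hasDerivAt_sin t))).congr_deriv (by ring)) 0 t
    rw [hE]; simpa using this
  have ex : ∀ t, x t = E t * (x 0 * cos t - y 0 * sin t) := fun t => by
    linear_combination cos t * w1 t - sin t * w2 t - x t * cos_sq_add_sin_sq t
  have ey : ∀ t, y t = E t * (x 0 * sin t + y 0 * cos t) := fun t => by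
    linear_combination sin t * w1 t + cos t * w2 t - y t * cos_sq_add_sin_sq t
  obtain ⟨z, hz⟩ : ∃ z : ℂ, z = ⟨x 0, y 0⟩ := ⟨_, rfl⟩
  have hz0 : z ≠ 0 := by
    intro h0
    have h1 : x 0 = 0 := by simpa [hz] using congrArg Complex.re h0
    have h2 : y 0 = 0 := by simpa [hz] using congrArg Complex.im h0
    apply hne
    rw [hγe, hγe, ex s₁, ey s₁, ex s₂, ey s₂, h1, h2]
    simp
  obtain ⟨r, hr⟩ : ∃ r, r = ‖z‖ := ⟨_, rfl⟩
  obtain ⟨θ, hθ⟩ : ∃ θ, θ = z.arg := ⟨_, rfl⟩
  have hr0 : 0 < r := by rw [hr]; exact norm_pos_iff.2 hz0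
  have hx0 : x 0 = r * cos θ := by rw [hr, hθ, Complex.norm_mul_cos_arg, hz]
  have hy0 : y 0 = r * sin θ := by rw [hr, hθ, Complex.norm_mul_sin_arg, hz]
  have fx : ∀ t, x t = r * E t * cos (t + θ) := fun t => by rw [ex t, hx0, hy0, cos_add]; ring
  have fy : ∀ t, y t = r * E t * sin (t + θ) := fun t => by rw [ey t, hx0, hy0, sin_add]; ring
  obtain ⟨u, hud⟩ : ∃ u : ℝ → ℝ, u = fun s => 1 / (r * E (s - θ)) := ⟨_, rfl⟩
  have hu0 : ∀ s, 0 < u s := fun s => by
    rw [hud]; have := hE0 (s - θ); positivity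
  have gx : ∀ s, x (s - θ) = cos s / u s := fun s => by
    rw [fx, hud, sub_add_cancel]; field_simp
  have gy : ∀ s, y (s - θ) = sin s / u s := fun s => by
    rw [fy, hud, sub_add_cancel]; field_simp
  have hu : ∀ s, HasDerivAt u (G a (Aq d e f) (Bq b c) s (u s)) s := fun s => by
    have h1 := hE0 (s - θ)
    have h2 : HasDerivAt u (-u s * F (s - θ)) s := by
      rw [hud]
      refine ((hasDerivAt_const s (1 : ℝ)).fun_div
        (((hE' (s - θ)).comp_sub_const s θ).const_mul r) (by positivity)).congr_deriv ?_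
      field_simp
      ring
    refine h2.congr_deriv ?_
    have h3 := (hu0 s).ne'
    rw [hF]
    simp only [gx, gy]
    unfold G Aq Bq
    field_simp
    ring
  have px : x T = x 0 := by rw [hxd]; simpa using congrArg Prod.fst (hper 0)
  have py : y T = y 0 := by rw [hyd]; simpa using congrArg Prod.snd (hper 0)
  have hE00 : E 0 = 1 := by rw [hE]; simp
  have q1 : E T * cos T = 1 := by
    have h1 := w1 T
    have h2 := w2 T
    rw [px, py, hx0, hy0] at h1 h2
    have h3 : E T * sin T = 0 → E T * cos T = 1 := by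
      intro h4
      have hs : sin T = 0 := (mul_eq_zero.1 h4).resolve_left (hE0 T).ne'
      have hc : cos T = E T := by
        rw [hs] at h1 h2
        have : r * (cos T - E T) = 0 := by
          linear_combination cos θ * h1 + sin θ * h2 - r * (cos T - E T) * cos_sq_add_sin_sq θ
        have := (mul_eq_zero.1 this).resolve_left hr0.ne'
        linarith
      rw [← hc]
      linear_combination cos_sq_add_sin_sq T - sin T * hs
    apply h3
    have : r * sin T = 0 := by
      linear_combination sin θ * h1 - cos θ * h2 - r * sin T * cos_sq_add_sin_sq θ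
    rw [(mul_eq_zero.1 this).resolve_left hr0.ne', mul_zero]
  have q2 : cos T = E T := by
    have h1 := w1 T
    have h2 := w2 T
    rw [px, py, hx0, hy0] at h1 h2
    have : r * (cos T - E T) = 0 := by
      linear_combination cos θ * h1 + sin θ * h2 - r * (cos T - E T) * cos_sq_add_sin_sq θ
    have := (mul_eq_zero.1 this).resolve_left hr0.ne'
    linarith
  have q3 : cos T = 1 := by
    have h1 := hE0 T
    rw [← q2] at q1 h1
    nlinarith
  obtain ⟨n, hn⟩ := (cos_eq_one_iff T).1 q3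
  have hn0 : 0 < n := by
    have : (0 : ℝ) < n * (2 * π) := by rw [hn]; exact hT
    have h2 : (0 : ℝ) < n := (mul_pos_iff_of_pos_right (by positivity)).1 this
    exact_mod_cast h2
  obtain ⟨k, rfl⟩ := Int.eq_ofNat_of_zero_le hn0.le
  have hk : (k : ℝ) * (2 * π) = T := by exact_mod_cast hn
  have hup : Function.Periodic u (2 * π) := by
    refine per_of_multiple (Aq_cont d e f) (Aq_per d e f) (Bq_per b c) hu0 hu
      (n := k) (by exact_mod_cast hn0) ?_
    have h1 : x (T - θ) = x (0 - θ) := by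
      rw [hxd]
      have := congrArg Prod.fst (hper (0 - θ))
      rwa [show 0 - θ + T = T - θ by ring] at this
    rw [gx, gx, q3, cos_zero] at h1
    rw [hk]
    have h2 := (hu0 T).ne'
    have h3 := (hu0 0).ne'
    field_simp at h1
    linarith
  refine ⟨u, ⟨hu0, hup, hu⟩, ?_⟩
  ext p
  constructor
  · rintro ⟨t, rfl⟩
    refine ⟨t + θ, ?_⟩
    simp only [← gx, ← gy, add_sub_cancel_right, hγe]
  · rintro ⟨s, rfl⟩
    exact ⟨s - θ, by rw [hγe, gx, gy]⟩

lemma iso_of_lc {a b c d e f : ℝ} {u : ℝ → ℝ} (hu : PerSol a (Aq d e f) (Bq b c) u)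
    {ε : ENNReal} (hε : 0 < ε) (hiso : ∀ O', IsPeriodicOrbit (rigid a b c d e f) O' →
      Metric.hausdorffEDist O' (orb u) < ε → O' = orb u) : Iso a (Aq d e f) (Bq b c) u := by
  have huc := hu.cont
  obtain ⟨δ, hδ0, hδ⟩ := exists_between hε
  have hev : ∀ᶠ h in 𝓝 (0 : ℝ), ∀ t ∈ Icc (0 : ℝ) (2 * π),
      edist (cos t / (u t + h), sin t / (u t + h)) (cos t / u t, sin t / u t) < δ := by
    refine isCompact_Icc.eventually_forall_of_forall_eventually
      (P := fun h t => edist (cos t / (u t + h), sin t / (u t + h)) (cos t / u t, sin t / u t) < δ)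
      fun t _ => ?_
    have hne : u t + 0 ≠ 0 := by simpa using (hu.pos t).ne'
    have c1 : ContinuousAt (fun z : ℝ × ℝ => cos z.2) (0, t) := by fun_prop
    have c2 : ContinuousAt (fun z : ℝ × ℝ => sin z.2) (0, t) := by fun_prop
    have c3 : ContinuousAt (fun z : ℝ × ℝ => u z.2 + z.1) (0, t) := by fun_prop
    have c4 : ContinuousAt (fun z : ℝ × ℝ => u z.2) (0, t) := by fun_prop
    have hc : ContinuousAt (fun z : ℝ × ℝ => edist (cos z.2 / (u z.2 + z.1), sin z.2 / (u z.2 + z.1))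
        (cos z.2 / u z.2, sin z.2 / u z.2)) (0, t) :=
      ((c1.div c3 hne).prodMk (c2.div c3 hne)).edist
        ((c1.div c4 (hu.pos t).ne').prodMk (c2.div c4 (hu.pos t).ne'))
    refine hc.eventually (gt_mem_nhds ?_)
    simpa using hδ0
  obtain ⟨η, hη, H⟩ := Metric.eventually_nhds_iff.1 hev
  refine ⟨η, hη, fun w hw hclose => ?_⟩
  have key : ∀ t, edist (cos t / w t, sin t / w t) (cos t / u t, sin t / u t) ≤ δ := fun t => by
    have hp : Function.Periodic
        (fun t => edist (cos t / w t, sin t / w t) (cos t / u t, sin t / u t)) (2 * π) :=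
      fun t => by simp only [hw.per t, hu.per t, cos_add_two_pi, sin_add_two_pi]
    obtain ⟨s, hs, e⟩ := hp.exists_mem_Ico₀ (by positivity) t
    have hs' := Ico_subset_Icc_self hs
    have := H (y := w s - u s) (by simpa [Real.dist_eq] using hclose s hs') s hs'
    rw [add_sub_cancel] at this
    rw [e]; exact this.le
  have h1 : Metric.hausdorffEDist (orb w) (orb u) ≤ δ := by
    refine Metric.hausdorffEDist_le_of_mem_edist ?_ ?_
    · rintro _ ⟨t, rfl⟩
      exact ⟨_, ⟨t, rfl⟩, key t⟩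
    · rintro _ ⟨t, rfl⟩
      exact ⟨_, ⟨t, rfl⟩, by rw [edist_comm]; exact key t⟩
  have h2 := hiso _ (po_of_persol hw) (h1.trans_lt hδ)
  exact eq_of_mem_orb (Aq_cont d e f) hw hu (h2 ▸ base_mem_orb w)

lemma encard_le_two {α : Type*} {S : Set α}
    (h : ∀ x ∈ S, ∀ y ∈ S, ∀ z ∈ S, x = y ∨ x = z ∨ y = z) : S.encard ≤ 2 := by
  by_contra hc
  have h3 : (3 : ℕ∞) ≤ S.encard := Order.add_one_le_of_lt (not_le.1 hc)
  obtain ⟨T, hT, hT3⟩ := exists_subset_encard_eq h3
  obtain ⟨x, y, z, hxy, hxz, hyz, rfl⟩ := encard_eq_three.1 hT3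
  rcases h x (hT (by simp)) y (hT (by simp)) z (hT (by simp)) with k | k | k
  exacts [hxy k, hxz k, hyz k]

theorem upper (a b c d e f : ℝ) : {O | IsLimitCycle (rigid a b c d e f) O}.encard ≤ 2 := by
  have key : ∀ O, IsLimitCycle (rigid a b c d e f) O →
      ∃ u, (PerSol a (Aq d e f) (Bq b c) u ∧ Iso a (Aq d e f) (Bq b c) u) ∧ O = orb u := by
    rintro O ⟨hpo, ε, hε, hiso⟩
    obtain ⟨u, hu, rfl⟩ := persol_of_po hpo
    exact ⟨u, ⟨hu, iso_of_lc hu hε hiso⟩, rfl⟩
  refine encard_le_two fun O₁ h₁ O₂ h₂ O₃ h₃ => ?_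
  obtain ⟨u, hu, rfl⟩ := key _ h₁
  obtain ⟨v, hv, rfl⟩ := key _ h₂
  obtain ⟨w, hw, rfl⟩ := key _ h₃
  rcases no_three_iso a b c d e f hu hv hw with h | h | h
  · exact Or.inl (by rw [h])
  · exact Or.inr (Or.inl (by rw [h]))
  · exact Or.inr (Or.inr (by rw [h]))

lemma closed_orb {a : ℝ} {A B u : ℝ → ℝ} (hu : PerSol a A B u) : IsClosed (orb u) := by
  have huc := hu.cont
  have hp : Function.Periodic (fun t => (cos t / u t, sin t / u t)) (2 * π) := fun t => by
    simp only [hu.per t, cos_add_two_pi, sin_add_two_pi]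
  have hc : Continuous fun t => (cos t / u t, sin t / u t) :=
    (continuous_cos.div huc fun t => (hu.pos t).ne').prodMk
      (continuous_sin.div huc fun t => (hu.pos t).ne')
  exact (hp.compact_of_continuous (by positivity) hc).isClosed

theorem lower : ∃ a b c d e : ℝ, {O | IsLimitCycle (rigid a b c d e 0) O}.encard = 2 ∧
    {O | IsPeriodicOrbit (rigid a b c d e 0) O}.encard = 2 := by
  obtain ⟨a, d, ha, u, v, hu, hv, hne⟩ := exists_two
  have hA := Aq_cont d (-1) 0
  have huv : orb u ≠ orb v := fun h => hne (eq_of_mem_orb hA hu hv (h ▸ base_mem_orb u))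
  have hall : ∀ O, IsPeriodicOrbit (rigid a 1 1 d (-1) 0) O → O = orb u ∨ O = orb v := by
    intro O hO
    obtain ⟨w, hw, rfl⟩ := persol_of_po hO
    rcases no_three_pos ha _ _ _ _ _ hu hv hw with h | h | h
    · exact absurd h hne
    · exact Or.inl (by rw [h])
    · exact Or.inr (by rw [h])
  have hpos : 0 < Metric.hausdorffEDist (orb u) (orb v) := by
    refine pos_iff_ne_zero.2 fun h => huv ?_
    exact ((closed_orb hu).hausdorffEDist_zero_iff (closed_orb hv)).1 h
  have e1 : {O | IsPeriodicOrbit (rigid a 1 1 d (-1) 0) O} = {orb u, orb v} := by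
    ext O
    refine ⟨hall O, ?_⟩
    rintro (rfl | rfl)
    exacts [po_of_persol hu, po_of_persol hv]
  have e2 : {O | IsLimitCycle (rigid a 1 1 d (-1) 0) O} = {orb u, orb v} := by
    ext O
    refine ⟨fun h => hall O h.1, ?_⟩
    rintro (rfl | rfl)
    · refine ⟨po_of_persol hu, _, hpos, fun O' hO' h => (hall O' hO').resolve_right ?_⟩
      rintro rfl
      rw [Metric.hausdorffEDist_comm] at h
      exact lt_irrefl _ h
    · refine ⟨po_of_persol hv, _, hpos, fun O' hO' h => (hall O' hO').resolve_left ?_⟩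
      rintro rfl
      exact lt_irrefl _ h
  exact ⟨a, 1, 1, d, -1, by rw [e2, encard_pair huv], by rw [e1, encard_pair huv]⟩

end Pool.Agent.Lib.MP_41d825_an.Cyc
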