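import Mathlib

-- part Pool.Agent.Lib.MP_41d825_an.Green
section

set_option autoImplicit false

namespace Pool.Agent.Lib.MP_41d825_an

open Set MeasureTheory intervalIntegral

/-- A Green-type inequality for a closed curve turning counterclockwise around the origin. -/
lemma green (T : ℝ) (hT : 0 ≤ T) (f f' g g' X X' Y Y' : ℝ → ℝ)
    (hf : ∀ y, HasDerivAt f (f' y) y) (hf'c : Continuous f') (hf'0 : ∀ y, f' y ≤ 0)
    (hg : ∀ x ∈ Ioo (-1 : ℝ) 1, HasDerivAt g (g' x) x) (hg'c : ContinuousOn g' (Ioo (-1 : ℝ) 1))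
    (hg0 : ∀ x ∈ Ioo (-1 : ℝ) 1, 0 ≤ g x)
    (hX : ∀ t, HasDerivAt X (X' t) t) (hX'c : Continuous X')
    (hY : ∀ t, HasDerivAt Y (Y' t) t) (hY'c : Continuous Y')
    (hXI : ∀ t, X t ∈ Ioo (-1 : ℝ) 1) (hrot : ∀ t, 0 ≤ X t * Y' t - Y t * X' t)
    (hXp : X T = X 0) (hYp : Y T = Y 0) :
    0 ≤ ∫ t in (0 : ℝ)..T, f (Y t) * g (X t) * X' t := by
  have hfc : Continuous f := continuous_iff_continuousAt.2 fun y => (hf y).continuousAt
  have hXc : Continuous X := continuous_iff_continuousAt.2 fun y => (hX y).continuousAt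
  have hYc : Continuous Y := continuous_iff_continuousAt.2 fun y => (hY y).continuousAt
  have hgc : ContinuousOn g (Ioo (-1 : ℝ) 1) := fun x hx => (hg x hx).continuousAt.continuousWithinAt
  have hmem : ∀ l ∈ Icc (0 : ℝ) 1, ∀ t, l * X t ∈ Ioo (-1 : ℝ) 1 := by
    intro l hl t
    obtain ⟨h1, h2⟩ := hXI t
    obtain ⟨h3, h4⟩ := hl
    constructor <;> nlinarith
  let c : ℝ → ℝ := fun l => max 0 (min l 1)
  have hcc : Continuous c := by fun_prop
  have hcm : ∀ l, c l ∈ Icc (0 : ℝ) 1 := fun l =>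
    ⟨le_max_left _ _, max_le zero_le_one (min_le_right _ _)⟩
  have hce : ∀ l ∈ Icc (0 : ℝ) 1, c l = l := fun l hl => by
    simp only [c]; rw [min_eq_left hl.2, max_eq_right hl.1]
  have hG : Continuous fun z : ℝ × ℝ => g (c z.1 * X z.2) :=
    hgc.comp_continuous (by fun_prop) fun z => hmem _ (hcm _) _
  have hG' : Continuous fun z : ℝ × ℝ => g' (c z.1 * X z.2) :=
    hg'c.comp_continuous (by fun_prop) fun z => hmem _ (hcm _) _
  let Q : ℝ → ℝ → ℝ := fun l t => f' (l * Y t) * (l * Y' t) * g (c l * X t) * X t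
    + f (l * Y t) * (g' (c l * X t) * (l * X' t)) * X t + f (l * Y t) * g (c l * X t) * X' t
  let P : ℝ → ℝ → ℝ := fun l t => f' (l * Y t) * Y t * g (c l * X t) * (l * X' t)
    + f (l * Y t) * (g' (c l * X t) * X t) * (l * X' t) + f (l * Y t) * g (c l * X t) * X' t
  have c1 : Continuous fun z : ℝ × ℝ => f' (z.1 * Y z.2) := by fun_prop
  have c2 : Continuous fun z : ℝ × ℝ => f (z.1 * Y z.2) := by fun_prop
  have c3 : Continuous fun z : ℝ × ℝ => X z.2 := by fun_prop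
  have c4 : Continuous fun z : ℝ × ℝ => Y z.2 := by fun_prop
  have c5 : Continuous fun z : ℝ × ℝ => X' z.2 := by fun_prop
  have c6 : Continuous fun z : ℝ × ℝ => Y' z.2 := by fun_prop
  have hQc : Continuous (Function.uncurry Q) :=
    (((((c1.mul (continuous_fst.mul c6)).mul hG).mul c3).add
      ((c2.mul (hG'.mul (continuous_fst.mul c5))).mul c3)).add ((c2.mul hG).mul c5))
  have hPc : Continuous (Function.uncurry P) :=
    (((((c1.mul c4).mul hG).mul (continuous_fst.mul c5)).add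
      ((c2.mul (hG'.mul c3)).mul (continuous_fst.mul c5))).add ((c2.mul hG).mul c5))
  have h1 : ∀ t, ∫ l in (0 : ℝ)..1, P l t = f (Y t) * g (X t) * X' t := by
    intro t
    have := integral_eq_sub_of_hasDerivAt (a := (0 : ℝ)) (b := 1)
      (f := fun l => f (l * Y t) * g (l * X t) * (l * X' t)) (f' := fun l => P l t) ?_ ?_
    · rw [this]; simp
    · intro l hl
      rw [uIcc_of_le zero_le_one] at hl
      have a1 : HasDerivAt (fun l => f (l * Y t)) (f' (l * Y t) * Y t) l :=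
        (hf (l * Y t)).comp l (hasDerivAt_mul_const (Y t))
      have a2 : HasDerivAt (fun l => g (l * X t)) (g' (l * X t) * X t) l :=
        (hg _ (hmem l hl t)).comp l (hasDerivAt_mul_const (X t))
      have a3 : HasDerivAt (fun l => l * X' t) (X' t) l := hasDerivAt_mul_const (X' t)
      refine ((a1.fun_mul a2).fun_mul a3).congr_deriv ?_
      simp only [P, hce l hl]; ring
    · exact (hPc.comp (by fun_prop : Continuous fun l : ℝ => (l, t))).intervalIntegrable _ _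
  have h2 : ∀ l ∈ Icc (0 : ℝ) 1, ∫ t in (0 : ℝ)..T, Q l t = 0 := by
    intro l hl
    have := integral_eq_sub_of_hasDerivAt (a := (0 : ℝ)) (b := T)
      (f := fun t => f (l * Y t) * g (l * X t) * X t) (f' := fun t => Q l t) ?_ ?_
    · rw [this]; simp [hXp, hYp]
    · intro t _
      have a1 : HasDerivAt (fun t => f (l * Y t)) (f' (l * Y t) * (l * Y' t)) t :=
        (hf (l * Y t)).comp t ((hY t).const_mul l)
      have a2 : HasDerivAt (fun t => g (l * X t)) (g' (l * X t) * (l * X' t)) t :=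
        (hg _ (hmem l hl t)).comp t ((hX t).const_mul l)
      refine ((a1.fun_mul a2).fun_mul (hX t)).congr_deriv ?_
      simp only [Q, hce l hl]; ring
    · exact (hQc.comp (by fun_prop : Continuous fun t : ℝ => (l, t))).intervalIntegrable _ _
  have h3 : ∫ t in (0 : ℝ)..T, ∫ l in (0 : ℝ)..1, Q l t = 0 := by
    rw [← intervalIntegral_intervalIntegral_swap]
    · rw [integral_congr (g := fun _ => (0 : ℝ))]
      · simp
      · intro l hl
        rw [uIcc_of_le zero_le_one] at hl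
        exact h2 l hl
    · apply (hQc.continuousOn.integrableOn_compact (isCompact_uIcc.prod isCompact_uIcc)).mono_set
      exact prod_mono uIoc_subset_uIcc uIoc_subset_uIcc
  refine le_trans h3.ge ?_
  apply integral_mono_on hT
  · apply Continuous.intervalIntegrable
    exact continuous_parametric_intervalIntegral_of_continuous' (f := fun t l => Q l t)
      (hQc.comp continuous_swap) 0 1
  · apply Continuous.intervalIntegrable
    have : Continuous fun t => g (X t) := hgc.comp_continuous hXc hXI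
    exact ((hfc.comp hYc).mul this).mul hX'c
  · intro t _
    rw [← h1 t]
    apply integral_mono_on zero_le_one
    · exact (hQc.comp (by fun_prop : Continuous fun l : ℝ => (l, t))).intervalIntegrable _ _
    · exact (hPc.comp (by fun_prop : Continuous fun l : ℝ => (l, t))).intervalIntegrable _ _
    · intro l hl
      have b1 := hg0 _ (hmem _ (hcm l) t)
      have b2 := hf'0 (l * Y t)
      have b3 := hrot t
      have b4 : 0 ≤ (-f' (l * Y t)) * g (c l * X t) * l * (X t * Y' t - Y t * X' t) := by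
        have := hl.1
        have : 0 ≤ -f' (l * Y t) := by linarith
        positivity
      simp only [P, Q]
      nlinarith

end Pool.Agent.Lib.MP_41d825_an
end

-- part Pool.Agent.Lib.MP_41d825_an.Basic
section

set_option autoImplicit false

namespace Pool.Agent.Lib.MP_41d825_an

open Real Set

/-- Right-hand side of the equation for the inverse radius. -/
noncomputable def G (a : ℝ) (A B : ℝ → ℝ) (t u : ℝ) : ℝ := -a * u - B t - A t / u

/-- Positive periodic solutions. -/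
structure PerSol (a : ℝ) (A B : ℝ → ℝ) (u : ℝ → ℝ) : Prop where
  pos : ∀ t, 0 < u t
  per : Function.Periodic u (2 * π)
  der : ∀ t, HasDerivAt u (G a A B t (u t)) t

/-- The sign property of the second variation along a periodic solution of multiplier one. -/
def JProp (a : ℝ) (A B : ℝ → ℝ) : Prop :=
  ∀ (u η z : ℝ → ℝ) (κ : ℝ), PerSol a A B u → (∀ t, 0 < η t) → η (2 * π) = η 0 →
    (∀ t, HasDerivAt η ((-a + A t / u t ^ 2) * η t) t) → z (2 * π) = z 0 →
    (∀ t, HasDerivAt z (κ - A t * η t / u t ^ 3) t) → 0 < κ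

lemma cont_of_der {f f' : ℝ → ℝ} (h : ∀ t, HasDerivAt f (f' t) t) : Continuous f :=
  continuous_iff_continuousAt.2 fun t => (h t).continuousAt

lemma PerSol.cont {a : ℝ} {A B u : ℝ → ℝ} (h : PerSol a A B u) : Continuous u :=
  cont_of_der h.der

lemma PerSol.per0 {a : ℝ} {A B u : ℝ → ℝ} (h : PerSol a A B u) : u (2 * π) = u 0 := by
  simpa using h.per 0

lemma der_intfac {v L k : ℝ → ℝ} (hL : Continuous L)
    (hv : ∀ t, HasDerivAt v (L t * v t + k t) t) (t₀ t : ℝ) :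
    HasDerivAt (fun t => v t * exp (-∫ s in t₀..t, L s)) (k t * exp (-∫ s in t₀..t, L s)) t := by
  refine ((hv t).fun_mul
    ((hL.integral_hasStrictDerivAt t₀ t).hasDerivAt.fun_neg.exp)).congr_deriv ?_
  ring

lemma lin_ode {d k : ℝ → ℝ} (hk : Continuous k) (hd : ∀ t, HasDerivAt d (k t * d t) t)
    (t₀ t : ℝ) : d t = d t₀ * exp (∫ s in t₀..t, k s) := by
  have h1 := der_intfac (v := d) (k := fun _ => 0) hk (fun t => by simpa using hd t) t₀
  have h2 := is_const_of_deriv_eq_zero (fun t => (h1 t).differentiableAt)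
    (fun t => by simpa using (h1 t).deriv) t t₀
  simp only [intervalIntegral.integral_same, neg_zero, exp_zero, mul_one] at h2
  rw [← h2, mul_assoc, ← exp_add]; simp

lemma pos_of_linear {v L k : ℝ → ℝ} (hL : Continuous L)
    (hv : ∀ t, HasDerivAt v (L t * v t + k t) t) (hk : (∀ t, 0 ≤ k t) ∨ (∀ t, k t ≤ 0))
    (hper : Function.Periodic v (2 * π)) (t₀ : ℝ) (h0 : 0 < v t₀) (t : ℝ) : 0 < v t := by
  have h1 := der_intfac hL hv t₀
  have hpi : 0 < 2 * π := by positivity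
  rcases hk with hk | hk
  · have hm := monotone_of_hasDerivAt_nonneg h1 (fun t => mul_nonneg (hk t) (exp_pos _).le)
    obtain ⟨n, hn⟩ := exists_nat_ge ((t₀ - t) / (2 * π))
    rw [div_le_iff₀ hpi] at hn
    have h2 := hm (show t₀ ≤ t + n * (2 * π) by linarith)
    simp only [intervalIntegral.integral_same, neg_zero, exp_zero, mul_one] at h2
    rw [hper.nat_mul n t] at h2
    exact (mul_pos_iff_of_pos_right (exp_pos _)).1 (lt_of_lt_of_le h0 h2)
  · have hm := antitone_of_hasDerivAt_nonpos h1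
      (fun t => mul_nonpos_of_nonpos_of_nonneg (hk t) (exp_pos _).le)
    obtain ⟨n, hn⟩ := exists_nat_ge ((t - t₀) / (2 * π))
    rw [div_le_iff₀ hpi] at hn
    have h2 := hm (show t - n * (2 * π) ≤ t₀ by linarith)
    simp only [intervalIntegral.integral_same, neg_zero, exp_zero, mul_one] at h2
    rw [hper.sub_nat_mul_eq n] at h2
    exact (mul_pos_iff_of_pos_right (exp_pos _)).1 (lt_of_lt_of_le h0 h2)

/-- The difference of two positive solutions keeps its sign. -/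
lemma diff_formula {a : ℝ} {A B u v : ℝ → ℝ} (hA : Continuous A)
    (hu0 : ∀ t, 0 < u t) (hu : ∀ t, HasDerivAt u (G a A B t (u t)) t)
    (hv0 : ∀ t, 0 < v t) (hv : ∀ t, HasDerivAt v (G a A B t (v t)) t) (t₀ t : ℝ) :
    ∃ c, 0 < c ∧ u t - v t = (u t₀ - v t₀) * c := by
  have huc := cont_of_der hu
  have hvc := cont_of_der hv
  have hk : Continuous fun t => -a + A t / (u t * v t) :=
    continuous_const.add (hA.div (huc.mul hvc) fun t => (mul_pos (hu0 t) (hv0 t)).ne')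
  refine ⟨_, exp_pos _, lin_ode (d := fun t => u t - v t) hk (fun t => ?_) t₀ t⟩
  refine ((hu t).fun_sub (hv t)).congr_deriv ?_
  have h1 := (hu0 t).ne'
  have h2 := (hv0 t).ne'
  unfold G
  field_simp
  ring

lemma PerSol.eq_of_eq {a : ℝ} {A B u v : ℝ → ℝ} (hA : Continuous A) (hu : PerSol a A B u)
    (hv : PerSol a A B v) {t₀ : ℝ} (h : u t₀ = v t₀) : u = v := by
  funext t
  obtain ⟨c, _, hc⟩ := diff_formula hA hu.pos hu.der hv.pos hv.der t₀ t
  rw [h, sub_self, zero_mul] at hc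
  linarith

lemma PerSol.lt_of_lt {a : ℝ} {A B u v : ℝ → ℝ} (hA : Continuous A) (hu : PerSol a A B u)
    (hv : PerSol a A B v) {t₀ : ℝ} (h : u t₀ < v t₀) (t : ℝ) : u t < v t := by
  obtain ⟨c, hc0, hc⟩ := diff_formula hA hv.pos hv.der hu.pos hu.der t₀ t
  have : 0 < (v t₀ - u t₀) * c := mul_pos (by linarith) hc0
  linarith

end Pool.Agent.Lib.MP_41d825_an
end

-- part Pool.Agent.Lib.MP_41d825_an.ODE
section

set_option autoImplicit false

namespace Pool.Agent.Lib.MP_41d825_an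

open Real Set Filter Topology

/-- Derivative on the basic period interval. -/
def DerI (f f' : ℝ → ℝ) : Prop :=
  ∀ t ∈ Icc (0 : ℝ) (2 * π), HasDerivWithinAt f (f' t) (Icc (0 : ℝ) (2 * π)) t

lemma DerI.cont {f f' : ℝ → ℝ} (h : DerI f f') : ContinuousOn f (Icc (0 : ℝ) (2 * π)) :=
  fun t ht => (h t ht).continuousWithinAt

lemma DerI.right {f f' : ℝ → ℝ} (h : DerI f f') :
    ∀ t ∈ Ico (0 : ℝ) (2 * π), HasDerivWithinAt f (f' t) (Ici t) t :=
  fun t ht => (h t (Ico_subset_Icc_self ht)).mono_of_mem_nhdsWithin (Icc_mem_nhdsGE_of_mem ht)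

lemma DerI.of {f f' : ℝ → ℝ} (h : ∀ t, HasDerivAt f (f' t) t) : DerI f f' :=
  fun t _ => (h t).hasDerivWithinAt

lemma mem0 : (0 : ℝ) ∈ Icc (0 : ℝ) (2 * π) := ⟨le_rfl, by positivity⟩
lemma mem2 : (2 * π) ∈ Icc (0 : ℝ) (2 * π) := ⟨by positivity, le_rfl⟩

noncomputable def cl (lo hi x : ℝ) : ℝ := max lo (min x hi)

lemma cl_ge (lo hi x : ℝ) : lo ≤ cl lo hi x := le_max_left _ _
lemma cl_le {lo hi : ℝ} (h : lo ≤ hi) (x : ℝ) : cl lo hi x ≤ hi := max_le h (min_le_right _ _)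
lemma cl_eq {lo hi x : ℝ} (h1 : lo ≤ x) (h2 : x ≤ hi) : cl lo hi x = x := by
  unfold cl; rw [min_eq_left h2, max_eq_right h1]
lemma cl_lip (lo hi x y : ℝ) : |cl lo hi x - cl lo hi y| ≤ |x - y| := by
  unfold cl
  refine le_trans ?_ (show |min x hi - min y hi| ≤ |x - y| from ?_)
  · rw [max_comm lo, max_comm lo]; exact abs_max_sub_max_le_abs _ _ _
  · simpa using abs_min_sub_min_le_max x hi y hi

lemma G_lip {a lo M t x y : ℝ} {A B : ℝ → ℝ} (hlo : 0 < lo) (hx : lo ≤ x) (hy : lo ≤ y)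
    (hM : |A t| ≤ M) : |G a A B t x - G a A B t y| ≤ (|a| + M / lo ^ 2) * |x - y| := by
  have hx0 : 0 < x := by linarith
  have hy0 : 0 < y := by linarith
  have e : G a A B t x - G a A B t y = (-a + A t / (x * y)) * (x - y) := by
    unfold G; field_simp; ring
  rw [e, abs_mul]
  apply mul_le_mul_of_nonneg_right _ (abs_nonneg _)
  refine le_trans (abs_add_le _ _) ?_
  rw [abs_neg, abs_div, abs_of_pos (mul_pos hx0 hy0)]
  have h1 : lo ^ 2 ≤ x * y := by nlinarith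
  have h2 : |A t| / (x * y) ≤ M / lo ^ 2 :=
    div_le_div₀ (le_trans (abs_nonneg _) hM) hM (by positivity) h1
  linarith

lemma exists_bound {A : ℝ → ℝ} (hA : Continuous A) :
    ∃ M, 0 ≤ M ∧ ∀ t ∈ Icc (0 : ℝ) (2 * π), |A t| ≤ M := by
  obtain ⟨M, hM⟩ := (isCompact_Icc (a := (0 : ℝ)) (b := 2 * π)).exists_bound_of_continuousOn
    hA.continuousOn
  exact ⟨M, le_trans (norm_nonneg _) (hM 0 mem0), hM⟩

lemma Gt_lipschitz {a lo hi M t : ℝ} {A B : ℝ → ℝ} (hlo : 0 < lo) (hM0 : 0 ≤ M) (hM : |A t| ≤ M) :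
    LipschitzWith (⟨|a| + M / lo ^ 2, by positivity⟩ : NNReal) fun u => G a A B t (cl lo hi u) := by
  refine LipschitzWith.of_dist_le_mul fun x y => ?_
  simp only [Real.dist_eq]
  refine le_trans (G_lip hlo (cl_ge _ _ _) (cl_ge _ _ _) hM) ?_
  exact mul_le_mul_of_nonneg_left (cl_lip _ _ _ _) (by positivity)

lemma exists_sol (a : ℝ) {lo hi : ℝ} {A B : ℝ → ℝ} (hA : Continuous A) (hB : Continuous B)
    (hlo : 0 < lo) (hlh : lo ≤ hi) (x : ℝ) :
    ∃ φ : ℝ → ℝ, φ 0 = x ∧ DerI φ fun t => G a A B t (cl lo hi (φ t)) := by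
  obtain ⟨M, hM0, hM⟩ := exists_bound hA
  obtain ⟨M', hM0', hM'⟩ := exists_bound hB
  have hhi : 0 ≤ hi := by linarith
  have hL0 : 0 ≤ |a| * hi + M' + M / lo := by positivity
  have hPL : IsPicardLindelof (fun t u => G a A B t (cl lo hi u)) (⟨0, mem0⟩ : Icc (0 : ℝ) (2 * π))
      x ⟨(|a| * hi + M' + M / lo) * (2 * π), by positivity⟩ 0 ⟨|a| * hi + M' + M / lo, hL0⟩
      ⟨|a| + M / lo ^ 2, by positivity⟩ := by
    refine ⟨fun t ht => (Gt_lipschitz hlo hM0 (hM t ht)).lipschitzOnWith, fun u _ => ?_,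
      fun t ht u _ => ?_, ?_⟩
    · unfold G; fun_prop
    · have h1 := cl_ge lo hi u
      have h2 := cl_le hlh u
      have h3 : 0 < cl lo hi u := by linarith
      simp only [Real.norm_eq_abs]
      unfold G
      refine le_trans (abs_sub _ _) (add_le_add (le_trans (abs_sub _ _) (add_le_add ?_ (hM' t ht))) ?_)
      · rw [abs_mul, abs_neg, abs_of_pos h3]
        exact mul_le_mul_of_nonneg_left h2 (abs_nonneg _)
      · rw [abs_div, abs_of_pos h3]
        exact div_le_div₀ hM0 (hM t ht) hlo h1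
    · have : 0 ≤ 2 * π := by positivity
      simp [this]
      exact le_rfl
  obtain ⟨φ, h1, h2⟩ := hPL.exists_eq_forall_mem_Icc_hasDerivWithinAt₀
  exact ⟨φ, h1, h2⟩

lemma sol_dist (a : ℝ) {lo hi : ℝ} {A B : ℝ → ℝ} (hA : Continuous A) (hlo : 0 < lo) :
    ∃ K, 0 < K ∧ ∀ (γ : ℝ) (f g : ℝ → ℝ), (DerI f fun t => G a A B t (cl lo hi (f t))) →
      (DerI g fun t => G a (fun t => A t - γ) B t (cl lo hi (g t))) →
      ∀ t ∈ Icc (0 : ℝ) (2 * π), |f t - g t| ≤ K * (|f 0 - g 0| + |γ|) := by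
  obtain ⟨M, hM0, hM⟩ := exists_bound hA
  obtain ⟨L, hL⟩ : ∃ L : NNReal, L = ⟨|a| + (M + 1) / lo ^ 2, by positivity⟩ := ⟨_, rfl⟩
  have hLpos : (0 : ℝ) < L := by
    rw [hL]
    exact (by positivity : 0 < |a| + (M + 1) / lo ^ 2)
  refine ⟨exp (L * (2 * π)) * (1 + 1 / (lo * L)), by positivity, fun γ f g hf hg t ht => ?_⟩
  have h := dist_le_of_approx_trajectories_ODE_of_mem (v := fun t u => G a A B t (cl lo hi u))
    (s := fun _ => univ) (K := L) (εf := 0) (εg := |γ| / lo) (δ := |f 0 - g 0|)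
    (fun t ht => by
      rw [hL]
      exact (Gt_lipschitz hlo (by positivity)
        (le_trans (hM t (Ico_subset_Icc_self ht)) (by linarith))).lipschitzOnWith)
    hf.cont hf.right (fun t _ => by simp) (fun _ _ => trivial) hg.cont hg.right
    (fun t _ => by
      have h1 := cl_ge lo hi (g t)
      have h3 : 0 < cl lo hi (g t) := by linarith
      have e : G a (fun t => A t - γ) B t (cl lo hi (g t)) - G a A B t (cl lo hi (g t))
          = γ / cl lo hi (g t) := by unfold G; ring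
      rw [Real.dist_eq, e, abs_div, abs_of_pos h3]
      exact div_le_div_of_nonneg_left (abs_nonneg _) hlo h1)
    (fun _ _ => trivial) (by rw [Real.dist_eq]) t ht
  rw [Real.dist_eq, gronwallBound_of_K_ne_0 hLpos.ne'] at h
  refine le_trans h ?_
  have h1 : exp (L * (t - 0)) ≤ exp (L * (2 * π)) :=
    exp_le_exp.2 (mul_le_mul_of_nonneg_left (by linarith [ht.2]) hLpos.le)
  have h2 : |f 0 - g 0| * exp (L * (t - 0)) ≤ |f 0 - g 0| * exp (L * (2 * π)) :=
    mul_le_mul_of_nonneg_left h1 (abs_nonneg _)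
  have h3 : (0 + |γ| / lo) / L * (exp (L * (t - 0)) - 1)
      ≤ (0 + |γ| / lo) / L * exp (L * (2 * π)) :=
    mul_le_mul_of_nonneg_left (by linarith) (by positivity)
  have h4 : (0 + |γ| / lo) / L * exp (L * (2 * π)) = exp (L * (2 * π)) * (1 / (lo * L)) * |γ| := by
    field_simp; ring
  have h5 : 0 ≤ exp (L * (2 * π)) * (1 / (lo * L)) * |f 0 - g 0| := by positivity
  have h6 : 0 ≤ exp (L * (2 * π)) * |γ| := by positivity
  simp only
  nlinarith

lemma exists_flow (a : ℝ) {lo hi : ℝ} {A B : ℝ → ℝ} (hA : Continuous A) (hB : Continuous B)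
    (hlo : 0 < lo) (hlh : lo ≤ hi) :
    ∃ φ : ℝ → ℝ → ℝ → ℝ, (∀ γ x, φ γ x 0 = x ∧
      DerI (φ γ x) fun t => G a (fun t => A t - γ) B t (cl lo hi (φ γ x t))) ∧
      ∀ t ∈ Icc (0 : ℝ) (2 * π), Continuous fun z : ℝ × ℝ => φ z.1 z.2 t := by
  have h := fun γ x => exists_sol a (A := fun t => A t - γ) (hA.sub continuous_const) hB hlo hlh x
  choose φ h1 h2 using h
  refine ⟨φ, fun γ x => ⟨h1 γ x, h2 γ x⟩, fun t ht => ?_⟩
  refine continuous_iff_continuousAt.2 fun z => ?_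
  obtain ⟨K, hK, hK'⟩ := sol_dist a (hi := hi) (B := B) (A := fun t => A t - z.1)
    (hA.sub continuous_const) hlo
  have hb : ∀ w : ℝ × ℝ, |φ z.1 z.2 t - φ w.1 w.2 t| ≤ K * (|z.2 - w.2| + |w.1 - z.1|) := by
    intro w
    have := hK' (w.1 - z.1) (φ z.1 z.2) (φ w.1 w.2) (h2 _ _) (by
      have e : (fun t => A t - z.1 - (w.1 - z.1)) = fun t => A t - w.1 := by funext t; ring
      simp only [e]; exact h2 _ _) t ht
    rwa [h1, h1] at this
  rw [ContinuousAt, tendsto_iff_dist_tendsto_zero]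
  have hc : Continuous fun w : ℝ × ℝ => K * (|z.2 - w.2| + |w.1 - z.1|) := by fun_prop
  have h0 := hc.tendsto z
  simp only [sub_self, abs_zero, add_zero, mul_zero] at h0
  refine squeeze_zero (fun _ => dist_nonneg) (fun w => ?_) h0
  rw [Real.dist_eq, abs_sub_comm]; exact hb w

/-- Periodic extension of a solution with equal end values. -/
lemma extend_sol {a : ℝ} {A B φ : ℝ → ℝ} (hA : Continuous A) (hB : Continuous B)
    (hAp : Function.Periodic A (2 * π)) (hBp : Function.Periodic B (2 * π))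
    (hpos : ∀ t ∈ Icc (0 : ℝ) (2 * π), 0 < φ t) (hd : DerI φ fun t => G a A B t (φ t))
    (hp : φ (2 * π) = φ 0) : ∃ w, PerSol a A B w ∧ ∀ t ∈ Icc (0 : ℝ) (2 * π), w t = φ t := by
  have hpi : 0 < 2 * π := by positivity
  have : Fact (0 < 2 * π) := ⟨hpi⟩
  let w : ℝ → ℝ := fun t => AddCircle.liftIco (2 * π) 0 φ (t : AddCircle (2 * π))
  have hwc : Continuous w :=
    (AddCircle.liftIco_zero_continuous hp.symm hd.cont).comp (AddCircle.continuous_mk' _)
  have hwp : Function.Periodic w (2 * π) := fun t => by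
    simp only [w, AddCircle.coe_add_period]
  have hw0 : ∀ t ∈ Ico (0 : ℝ) (2 * π), w t = φ t := fun t ht => AddCircle.liftIco_zero_coe_apply ht
  have hw : ∀ t ∈ Icc (0 : ℝ) (2 * π), w t = φ t := by
    intro t ht
    rcases ht.2.lt_or_eq with h | h
    · exact hw0 t ⟨ht.1, h⟩
    · have := hwp 0
      rw [zero_add] at this
      rw [h, this, hw0 0 ⟨le_rfl, hpi⟩, hp]
  have hwpos : ∀ t, 0 < w t := fun t => by
    obtain ⟨y, hy, e⟩ := hwp.exists_mem_Ico₀ hpi t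
    rw [e, hw0 y hy]; exact hpos y (Ico_subset_Icc_self hy)
  let k : ℝ → ℝ := fun t => G a A B t (w t)
  have hkc : Continuous k := by
    simp only [k, G]
    exact ((hwc.const_mul _).sub hB).sub (hA.div hwc fun t => (hwpos t).ne')
  have hkp : Function.Periodic k (2 * π) := fun t => by simp only [k, G, hwp t, hAp t, hBp t]
  have hint : ∀ t ∈ Icc (0 : ℝ) (2 * π), ∫ s in (0 : ℝ)..t, k s = φ t - φ 0 := by
    intro t ht
    refine intervalIntegral.integral_eq_sub_of_hasDeriv_right_of_le ht.1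
      (hd.cont.mono (Icc_subset_Icc_right ht.2)) (fun s hs => ?_) (hkc.intervalIntegrable _ _)
    have hs' : s ∈ Ico (0 : ℝ) (2 * π) := ⟨hs.1.le, lt_of_lt_of_le hs.2 ht.2⟩
    simp only [k, hw0 s hs']
    exact (hd.right s hs').mono Ioi_subset_Ici_self
  let W : ℝ → ℝ := fun t => φ 0 + ∫ s in (0 : ℝ)..t, k s
  have hWp : Function.Periodic W (2 * π) := fun t => by
    simp only [W]
    rw [hkp.intervalIntegral_add_eq_add 0 t fun _ _ => hkc.intervalIntegrable _ _, zero_add,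
      hint _ mem2, hp]
    ring
  have hWw : W = w := by
    funext t
    obtain ⟨y, hy, e⟩ := (hWp.sub hwp).exists_mem_Ico₀ hpi t
    simp only [Pi.sub_apply] at e
    have : W y = w y := by
      simp only [W]; rw [hint y (Ico_subset_Icc_self hy), hw0 y hy]; ring
    linarith
  refine ⟨w, ⟨hwpos, hwp, fun t => ?_⟩, hw⟩
  have : HasDerivAt W (k t) t := (hkc.integral_hasStrictDerivAt 0 t).hasDerivAt.const_add _
  rw [hWw] at this
  exact this

end Pool.Agent.Lib.MP_41d825_an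
end

-- part Pool.Agent.Lib.MP_41d825_an.Bar
section

set_option autoImplicit false

namespace Pool.Agent.Lib.MP_41d825_an

open Real Set Filter Topology

/-- Strict upper (`s = 1`) or lower (`s = -1`) solutions on the period interval. -/
structure Bar (s a : ℝ) (A B β β' : ℝ → ℝ) : Prop where
  pos : ∀ t ∈ Icc (0 : ℝ) (2 * π), 0 < β t
  der : DerI β β'
  cont : ContinuousOn β' (Icc (0 : ℝ) (2 * π))
  str : ∀ t ∈ Icc (0 : ℝ) (2 * π), 0 < s * (β' t - G a A B t (β t))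
  mono : 0 ≤ s * (β 0 - β (2 * π))

lemma ev_pos {R : ℝ → Icc (0 : ℝ) (2 * π) → ℝ} {x₀ : ℝ}
    (h : Continuous fun z : ℝ × Icc (0 : ℝ) (2 * π) => R z.1 z.2) (h0 : ∀ t, 0 < R x₀ t) :
    ∀ᶠ x in 𝓝 x₀, ∀ t, 0 < R x t := by
  have := (isCompact_univ (X := Icc (0 : ℝ) (2 * π))).eventually_forall_of_forall_eventually
    (x₀ := x₀) (P := fun x t => 0 < R x t)
    (fun t _ => h.continuousAt.eventually (lt_mem_nhds (h0 t)))
  exact this.mono fun x hx t => hx t trivial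

lemma ev_pos' {R : ℝ → ℝ → ℝ} {x₀ : ℝ}
    (h : Continuous fun z : ℝ × ℝ => R z.1 z.2) (h0 : ∀ t ∈ Icc (0 : ℝ) (2 * π), 0 < R x₀ t) :
    ∀ᶠ x in 𝓝 x₀, ∀ t ∈ Icc (0 : ℝ) (2 * π), 0 < R x t :=
  (isCompact_Icc (a := (0 : ℝ)) (b := 2 * π)).eventually_forall_of_forall_eventually
    (x₀ := x₀) (P := fun x t => 0 < R x t)
    (fun t ht => h.continuousAt.eventually (lt_mem_nhds (h0 t ht)))

lemma ev_lin {R₀ R₁ : ℝ → ℝ} (x₀ : ℝ) (h₀ : ContinuousOn R₀ (Icc (0 : ℝ) (2 * π)))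
    (h₁ : ContinuousOn R₁ (Icc (0 : ℝ) (2 * π))) (h0 : ∀ t ∈ Icc (0 : ℝ) (2 * π), 0 < R₀ t) :
    ∀ᶠ x in 𝓝 x₀, ∀ t ∈ Icc (0 : ℝ) (2 * π), 0 < R₀ t + (x - x₀) * R₁ t := by
  have c0 : Continuous fun t : Icc (0 : ℝ) (2 * π) => R₀ t := h₀.domRestrict
  have c1 : Continuous fun t : Icc (0 : ℝ) (2 * π) => R₁ t := h₁.domRestrict
  have := ev_pos (R := fun x t => R₀ t + (x - x₀) * R₁ t) (x₀ := x₀)
    ((c0.comp continuous_snd).add ((continuous_fst.sub continuous_const).mul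
      (c1.comp continuous_snd))) (fun t => by simpa using h0 t t.2)
  exact this.mono fun x hx t ht => hx ⟨t, ht⟩

lemma exists_gt_of_ev {P : ℝ → Prop} {x₀ : ℝ} (h : ∀ᶠ x in 𝓝 x₀, P x) : ∃ x, x₀ < x ∧ P x := by
  obtain ⟨x, hx, hx'⟩ :=
    ((h.filter_mono (nhdsWithin_le_nhds (s := Ioi x₀))).and self_mem_nhdsWithin).exists
  exact ⟨x, hx', hx⟩

lemma G_contOn {a : ℝ} {A B β : ℝ → ℝ} (hA : Continuous A) (hB : Continuous B)
    (hβ : ContinuousOn β (Icc (0 : ℝ) (2 * π))) (hpos : ∀ t ∈ Icc (0 : ℝ) (2 * π), 0 < β t) :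
    ContinuousOn (fun t => G a A B t (β t)) (Icc (0 : ℝ) (2 * π)) := by
  unfold G
  exact ((continuousOn_const.mul hβ).sub hB.continuousOn).sub
    (hA.continuousOn.div hβ fun t ht => (hpos t ht).ne')

namespace Bar

variable {s a : ℝ} {A B β β' : ℝ → ℝ}

lemma ev_gamma (hA : Continuous A) (hB : Continuous B) {γ₀ : ℝ}
    (h : Bar s a (fun t => A t - γ₀) B β β') :
    ∀ᶠ γ in 𝓝 γ₀, Bar s a (fun t => A t - γ) B β β' := by
  have := ev_lin (R₀ := fun t => s * (β' t - G a (fun t => A t - γ₀) B t (β t)))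
    (R₁ := fun t => -s / β t) γ₀
    (continuousOn_const.mul (h.cont.sub
      (G_contOn (hA.sub continuous_const) hB h.der.cont h.pos)))
    (continuousOn_const.div h.der.cont fun t ht => (h.pos t ht).ne') h.str
  refine this.mono fun γ hγ => ⟨h.pos, h.der, h.cont, fun t ht => ?_, h.mono⟩
  refine lt_of_lt_of_eq (hγ t ht) ?_
  unfold G; ring

lemma ev_a (hA : Continuous A) (hB : Continuous B) (h : Bar s a A B β β') :
    ∀ᶠ a' in 𝓝 a, Bar s a' A B β β' := by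
  have := ev_lin (R₀ := fun t => s * (β' t - G a A B t (β t)))
    (R₁ := fun t => s * β t) a
    (continuousOn_const.mul (h.cont.sub (G_contOn hA hB h.der.cont h.pos)))
    (continuousOn_const.mul h.der.cont) h.str
  refine this.mono fun γ hγ => ⟨h.pos, h.der, h.cont, fun t ht => ?_, h.mono⟩
  refine lt_of_lt_of_eq (hγ t ht) ?_
  unfold G; ring

lemma fence_upper {lo hi : ℝ} {φ : ℝ → ℝ} (h : Bar 1 a A B β β')
    (hb : ∀ t ∈ Icc (0 : ℝ) (2 * π), lo ≤ β t ∧ β t ≤ hi)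
    (hφ : DerI φ fun t => G a A B t (cl lo hi (φ t))) (h0 : φ 0 ≤ β 0) :
    ∀ t ∈ Icc (0 : ℝ) (2 * π), φ t ≤ β t := by
  refine fun t ht => image_le_of_deriv_right_lt_deriv_boundary' hφ.cont hφ.right h0 h.der.cont
    h.der.right (fun x hx e => ?_) ht
  have hx' := Ico_subset_Icc_self hx
  have := h.str x hx'
  rw [e, cl_eq (hb x hx').1 (hb x hx').2]
  linarith

lemma fence_lower {lo hi : ℝ} {φ : ℝ → ℝ} (h : Bar (-1) a A B β β')
    (hb : ∀ t ∈ Icc (0 : ℝ) (2 * π), lo ≤ β t ∧ β t ≤ hi)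
    (hφ : DerI φ fun t => G a A B t (cl lo hi (φ t))) (h0 : β 0 ≤ φ 0) :
    ∀ t ∈ Icc (0 : ℝ) (2 * π), β t ≤ φ t := by
  refine fun t ht => image_le_of_deriv_right_lt_deriv_boundary' h.der.cont h.der.right h0 hφ.cont
    hφ.right (fun x hx e => ?_) ht
  have hx' := Ico_subset_Icc_self hx
  have := h.str x hx'
  rw [← e, cl_eq (hb x hx').1 (hb x hx').2]
  linarith

lemma rev (h : Bar s a A B β β') :
    Bar (-s) (-a) (fun t => -A (2 * π - t)) (fun t => -B (2 * π - t)) (fun t => β (2 * π - t))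
      (fun t => -β' (2 * π - t)) := by
  have hm : MapsTo (fun t : ℝ => 2 * π - t) (Icc (0 : ℝ) (2 * π)) (Icc (0 : ℝ) (2 * π)) :=
    fun t ht => ⟨by linarith [ht.2], by linarith [ht.1]⟩
  refine ⟨fun t ht => h.pos _ (hm ht), fun t ht => ?_, ?_, fun t ht => ?_, ?_⟩
  · have h1 : HasDerivWithinAt (fun t : ℝ => 2 * π - t) (-1) (Icc (0 : ℝ) (2 * π)) t :=
      ((hasDerivAt_id' t).const_sub (2 * π)).hasDerivWithinAt
    have h2 := (h.der _ (hm ht)).comp t h1 hm
    rw [mul_neg_one] at h2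
    exact h2
  · exact (h.cont.comp (by fun_prop) hm).neg
  · refine lt_of_lt_of_eq (h.str _ (hm ht)) ?_
    unfold G; ring
  · have := h.mono
    simp only [sub_zero, sub_self]
    linarith

/-- A periodic solution cannot coincide with a strict barrier. -/
lemma ne_sol {w : ℝ → ℝ} (h : Bar s a A B β β') (hw : PerSol a A B w)
    (e : ∀ t ∈ Icc (0 : ℝ) (2 * π), w t = β t) : False := by
  have hpi : 0 < 2 * π := by positivity
  have h1 : HasDerivWithinAt β (G a A B 0 (w 0)) (Icc (0 : ℝ) (2 * π)) 0 :=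
    (hw.der 0).hasDerivWithinAt.congr (fun t ht => (e t ht).symm) (e 0 mem0).symm
  have h2 := (uniqueDiffOn_Icc hpi 0 mem0).eq_deriv _ h1 (h.der 0 mem0)
  have h3 := h.str 0 mem0
  rw [← h2, e 0 mem0, sub_self, mul_zero] at h3
  exact lt_irrefl _ h3

end Bar

lemma PerSol.rev {a : ℝ} {A B w : ℝ → ℝ} (h : PerSol a A B w) :
    PerSol (-a) (fun t => -A (2 * π - t)) (fun t => -B (2 * π - t)) (fun t => w (2 * π - t)) := by
  refine ⟨fun t => h.pos _, fun t => ?_, fun t => ?_⟩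
  · have := h.per (2 * π - (t + 2 * π))
    rw [← this]; congr 1; ring
  · have h2 := (h.der (2 * π - t)).comp t ((hasDerivAt_id' t).const_sub (2 * π))
    refine HasDerivAt.congr_deriv h2 ?_
    unfold G; ring

lemma E1_flow {a lo hi : ℝ} {A B α α' β β' : ℝ → ℝ} {φ : ℝ → ℝ → ℝ}
    (hφ : ∀ x, φ x 0 = x ∧ DerI (φ x) fun t => G a A B t (cl lo hi (φ x t)))
    (hc : Continuous fun x => φ x (2 * π))
    (hα : Bar (-1) a A B α α') (hβ : Bar 1 a A B β β')
    (hα1 : ∀ t ∈ Icc (0 : ℝ) (2 * π), lo ≤ α t ∧ α t ≤ hi)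
    (hβ1 : ∀ t ∈ Icc (0 : ℝ) (2 * π), lo ≤ β t ∧ β t ≤ hi) (h0 : α 0 ≤ β 0) :
    ∃ x, φ x (2 * π) = x ∧ ∀ t ∈ Icc (0 : ℝ) (2 * π), α t ≤ φ x t ∧ φ x t ≤ β t := by
  have h1 : 0 ≤ φ (α 0) (2 * π) - α 0 := by
    have := hα.fence_lower hα1 (hφ (α 0)).2 (by rw [(hφ _).1]) _ mem2
    linarith [hα.mono]
  have h2 : φ (β 0) (2 * π) - β 0 ≤ 0 := by
    have := hβ.fence_upper hβ1 (hφ (β 0)).2 (by rw [(hφ _).1]) _ mem2
    linarith [hβ.mono]
  obtain ⟨x, hx, hx0⟩ := intermediate_value_Icc' h0 (f := fun x => φ x (2 * π) - x)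
    (hc.sub continuous_id).continuousOn ⟨h2, h1⟩
  refine ⟨x, by simpa [sub_eq_zero] using hx0, fun t ht => ⟨?_, ?_⟩⟩
  · exact hα.fence_lower hα1 (hφ x).2 (by rw [(hφ _).1]; exact hx.1) t ht
  · exact hβ.fence_upper hβ1 (hφ x).2 (by rw [(hφ _).1]; exact hx.2) t ht

lemma exists_lohi {f : ℝ → ℝ} (hf : ContinuousOn f (Icc (0 : ℝ) (2 * π)))
    (hpos : ∀ t ∈ Icc (0 : ℝ) (2 * π), 0 < f t) :
    ∃ lo hi, 0 < lo ∧ ∀ t ∈ Icc (0 : ℝ) (2 * π), lo ≤ f t ∧ f t ≤ hi := by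
  obtain ⟨x, hx, hx'⟩ := isCompact_Icc.exists_isMinOn ⟨0, mem0⟩ hf
  obtain ⟨y, hy, hy'⟩ := isCompact_Icc.exists_isMaxOn ⟨0, mem0⟩ hf
  exact ⟨f x, f y, hpos x hx, fun t ht => ⟨hx' ht, hy' ht⟩⟩

lemma extend_trunc {a lo hi : ℝ} {A B φ : ℝ → ℝ} (hA : Continuous A) (hB : Continuous B)
    (hAp : Function.Periodic A (2 * π)) (hBp : Function.Periodic B (2 * π)) (hlo : 0 < lo)
    (hb : ∀ t ∈ Icc (0 : ℝ) (2 * π), lo ≤ φ t ∧ φ t ≤ hi)
    (hd : DerI φ fun t => G a A B t (cl lo hi (φ t))) (hp : φ (2 * π) = φ 0) :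
    ∃ w, PerSol a A B w ∧ ∀ t ∈ Icc (0 : ℝ) (2 * π), w t = φ t := by
  refine extend_sol hA hB hAp hBp (fun t ht => lt_of_lt_of_le hlo (hb t ht).1) (fun t ht => ?_) hp
  have := hd t ht
  simp only [cl_eq (hb t ht).1 (hb t ht).2] at this
  exact this

lemma E1 {a : ℝ} {A B α α' β β' : ℝ → ℝ} (hA : Continuous A) (hB : Continuous B)
    (hAp : Function.Periodic A (2 * π)) (hBp : Function.Periodic B (2 * π))
    (hα : Bar (-1) a A B α α') (hβ : Bar 1 a A B β β') (h0 : α 0 ≤ β 0) :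
    ∃ w, PerSol a A B w ∧ ∀ t ∈ Icc (0 : ℝ) (2 * π), α t ≤ w t ∧ w t ≤ β t := by
  obtain ⟨l₁, h₁, hl₁, H₁⟩ := exists_lohi hα.der.cont hα.pos
  obtain ⟨l₂, h₂, hl₂, H₂⟩ := exists_lohi hβ.der.cont hβ.pos
  have hα1 : ∀ t ∈ Icc (0 : ℝ) (2 * π), min l₁ l₂ ≤ α t ∧ α t ≤ max h₁ h₂ := fun t ht =>
    ⟨le_trans (min_le_left _ _) (H₁ t ht).1, le_trans (H₁ t ht).2 (le_max_left _ _)⟩
  have hβ1 : ∀ t ∈ Icc (0 : ℝ) (2 * π), min l₁ l₂ ≤ β t ∧ β t ≤ max h₁ h₂ := fun t ht =>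
    ⟨le_trans (min_le_right _ _) (H₂ t ht).1, le_trans (H₂ t ht).2 (le_max_right _ _)⟩
  have hlo : 0 < min l₁ l₂ := lt_min hl₁ hl₂
  obtain ⟨φ, hφ, hc⟩ := exists_flow a hA hB hlo (le_trans (hα1 0 mem0).1 (hα1 0 mem0).2)
  have hφ0 := hφ 0
  simp only [sub_zero] at hφ0
  obtain ⟨x, hx, hx'⟩ := E1_flow (φ := φ 0) hφ0
    ((hc _ mem2).comp (by fun_prop : Continuous fun x : ℝ => ((0 : ℝ), x))) hα hβ hα1 hβ1 h0
  obtain ⟨w, hw, e⟩ := extend_trunc hA hB hAp hBp hlo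
    (fun t ht => ⟨le_trans (hα1 t ht).1 (hx' t ht).1, le_trans (hx' t ht).2 (hβ1 t ht).2⟩)
    (hφ0 x).2 (by rw [hx, (hφ0 x).1])
  exact ⟨w, hw, fun t ht => by rw [e t ht]; exact hx' t ht⟩

lemma per_rev {A : ℝ → ℝ} (hAp : Function.Periodic A (2 * π)) :
    Function.Periodic (fun t => -A (2 * π - t)) (2 * π) := fun t => by
  have := hAp (2 * π - (t + 2 * π))
  simp only
  rw [← this]; congr 2; ring

lemma E2 {a : ℝ} {A B α α' β β' : ℝ → ℝ} (hA : Continuous A) (hB : Continuous B)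
    (hAp : Function.Periodic A (2 * π)) (hBp : Function.Periodic B (2 * π))
    (hα : Bar 1 a A B α α') (hβ : Bar (-1) a A B β β') (h0 : α (2 * π) ≤ β (2 * π)) :
    ∃ w, PerSol a A B w ∧ ∀ t ∈ Icc (0 : ℝ) (2 * π), α t ≤ w t ∧ w t ≤ β t := by
  have hβ' := hβ.rev
  rw [neg_neg] at hβ'
  obtain ⟨w, hw, e⟩ := E1 (by fun_prop) (by fun_prop) (per_rev hAp) (per_rev hBp) hα.rev hβ'
    (by simpa using h0)
  have hw' := hw.rev
  simp only [neg_neg, sub_sub_cancel] at hw'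
  refine ⟨_, hw', fun t ht => ?_⟩
  simpa using e (2 * π - t) ⟨by linarith [ht.2], by linarith [ht.1]⟩

end Pool.Agent.Lib.MP_41d825_an
end

-- part Pool.Agent.Lib.MP_41d825_an.Three
section

set_option autoImplicit false

namespace Pool.Agent.Lib.MP_41d825_an

open Real Set Filter Topology

/-- Near every periodic solution there is a strict upper solution. -/
lemma exists_upper_near {a : ℝ} {A B w l h : ℝ → ℝ} (hA : Continuous A) (hB : Continuous B)
    (hJ : JProp a A B) (hw : PerSol a A B w) (hl : Continuous l) (hh : Continuous h)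
    (hl0 : ∀ t, 0 < l t) (h1 : ∀ t, l t < w t) (h2 : ∀ t, w t < h t) :
    ∃ β β', Bar 1 a A B β β' ∧ ∀ t ∈ Icc (0 : ℝ) (2 * π), l t < β t ∧ β t < h t := by
  have hpi : 0 < 2 * π := by positivity
  have hwc := hw.cont
  have hw0 := hw.pos
  have hk : Continuous fun t => -a + A t / w t ^ 2 :=
    continuous_const.add (hA.div (hwc.pow 2) fun t => (pow_pos (hw0 t) 2).ne')
  obtain ⟨m, hm⟩ : ∃ m, m = (∫ t in (0 : ℝ)..2 * π, (-a + A t / w t ^ 2)) / (2 * π) := ⟨_, rfl⟩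
  obtain ⟨η, hηd⟩ : ∃ η : ℝ → ℝ,
      η = fun t => exp ((∫ s in (0 : ℝ)..t, (-a + A s / w s ^ 2)) - m * t) := ⟨_, rfl⟩
  have hη0 : ∀ t, 0 < η t := fun t => by rw [hηd]; exact exp_pos _
  have hη' : ∀ t, HasDerivAt η ((-a + A t / w t ^ 2 - m) * η t) t := fun t => by
    rw [hηd]
    refine (((hk.integral_hasStrictDerivAt 0 t).hasDerivAt.fun_sub
      ((hasDerivAt_id' t).const_mul m)).exp).congr_deriv ?_
    ring
  have hηp : η (2 * π) = η 0 := by
    rw [hηd, hm]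
    simp only [intervalIntegral.integral_same, mul_zero, sub_zero]
    rw [div_mul_cancel₀ _ hpi.ne', sub_self]
  have hηc := cont_of_der hη'
  have hGc : Continuous fun t => G a A B t (w t) := by
    unfold G
    exact ((hwc.const_mul _).sub hB).sub (hA.div hwc fun t => (hw0 t).ne')
  -- a general construction
  have key : ∀ (σ κ : ℝ) (z z' : ℝ → ℝ), (∀ t, HasDerivAt z (z' t) t) → Continuous z' →
      z (2 * π) = z 0 → (∀ᶠ ε in 𝓝 (0 : ℝ), 0 < ε → ∀ t ∈ Icc (0 : ℝ) (2 * π),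
        0 < (-m * (ε * η t * (σ + ε * z t)) + ε ^ 2 * η t * z' t) * w t ^ 2
          * (w t + ε * η t * (σ + ε * z t)) + A t * (ε * η t * (σ + ε * z t)) ^ 2) →
      ∃ β β', Bar 1 a A B β β' ∧ ∀ t ∈ Icc (0 : ℝ) (2 * π), l t < β t ∧ β t < h t := by
    intro σ κ z z' hz hz'c hzp hev
    have hzc := cont_of_der hz
    have e1 := ev_pos' (R := fun ε t => w t + ε * η t * (σ + ε * z t) - l t) (x₀ := 0)
      (by fun_prop) (fun t _ => by simpa using h1 t)
    have e2 := ev_pos' (R := fun ε t => h t - (w t + ε * η t * (σ + ε * z t))) (x₀ := 0)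
      (by fun_prop) (fun t _ => by simpa using h2 t)
    obtain ⟨ε, hε, ⟨f1, f2⟩, f3⟩ := exists_gt_of_ev ((e1.and e2).and hev)
    have hβ0 : ∀ t ∈ Icc (0 : ℝ) (2 * π), 0 < w t + ε * η t * (σ + ε * z t) := fun t ht => by
      linarith [f1 t ht, hl0 t]
    refine ⟨fun t => w t + ε * η t * (σ + ε * z t), fun t => G a A B t (w t)
      + (ε * ((-a + A t / w t ^ 2 - m) * η t) * (σ + ε * z t) + ε * η t * (ε * z' t)),
      ⟨hβ0, DerI.of fun t => ?_, Continuous.continuousOn ?_, fun t ht => ?_, ?_⟩,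
      fun t ht => ⟨by linarith [f1 t ht], by linarith [f2 t ht]⟩⟩
    · exact (hw.der t).fun_add (((hη' t).const_mul ε).fun_mul (((hz t).const_mul ε).const_add σ))
    · exact hGc.add (((((hk.sub continuous_const).mul hηc).const_mul ε).mul
        (by fun_prop)).add (by fun_prop))
    · have g1 := f3 hε t ht
      have g2 := hβ0 t ht
      have g3 := hw0 t
      have g4 := div_pos g1 (mul_pos (pow_pos g3 2) g2)
      refine lt_of_lt_of_eq g4 ?_
      unfold G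
      obtain ⟨b, hb⟩ : ∃ b, b = w t + ε * η t * (σ + ε * z t) := ⟨_, rfl⟩
      rw [← hb] at g2 ⊢
      field_simp
      rw [hb]
      ring
    · simp only [hηp, hzp, hw.per0, sub_self, mul_zero, le_refl]
  by_cases hm0 : m = 0
  · have hk2 : Continuous fun t => A t * η t / w t ^ 3 :=
      (hA.mul hηc).div (hwc.pow 3) fun t => (pow_pos (hw0 t) 3).ne'
    obtain ⟨κ, hκ⟩ : ∃ κ, κ = (∫ t in (0 : ℝ)..2 * π, A t * η t / w t ^ 3) / (2 * π) := ⟨_, rfl⟩
    have hz : ∀ t, HasDerivAt (fun t => κ * t - ∫ s in (0 : ℝ)..t, A s * η s / w s ^ 3)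
        (κ - A t * η t / w t ^ 3) t := fun t =>
      (((hasDerivAt_id' t).const_mul κ).fun_sub
        (hk2.integral_hasStrictDerivAt 0 t).hasDerivAt).congr_deriv (by ring)
    have hzp : (fun t => κ * t - ∫ s in (0 : ℝ)..t, A s * η s / w s ^ 3) (2 * π)
        = (fun t => κ * t - ∫ s in (0 : ℝ)..t, A s * η s / w s ^ 3) 0 := by
      simp only [intervalIntegral.integral_same, mul_zero, sub_zero]
      rw [hκ, div_mul_cancel₀ _ hpi.ne', sub_self]
    have hκ0 := hJ w η _ κ hw hη0 hηp (fun t => by simpa [hm0] using hη' t) hzp hz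
    obtain ⟨z, hzd⟩ : ∃ z : ℝ → ℝ, z = fun t => κ * t - ∫ s in (0 : ℝ)..t, A s * η s / w s ^ 3 :=
      ⟨_, rfl⟩
    rw [← hzd] at hz hzp
    have hzc := cont_of_der hz
    refine key 1 κ z _ hz (continuous_const.sub hk2) hzp ?_
    have e3 := ev_pos' (R := fun ε t => η t * (κ * w t ^ 3 - A t * η t)
      * (w t + ε * η t * (1 + ε * z t)) + A t * η t ^ 2 * (1 + ε * z t) ^ 2 * w t) (x₀ := 0)
      (by fun_prop) (fun t _ => by
        have := hw0 t
        have := hη0 t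
        have h3 : 0 < η t * κ * w t ^ 4 := by positivity
        refine lt_of_lt_of_eq h3 ?_
        ring)
    refine e3.mono fun ε hε hε0 t ht => ?_
    have g3 := hw0 t
    have g4 := div_pos (mul_pos (pow_pos hε0 2) (hε t ht)) g3
    refine lt_of_lt_of_eq g4 ?_
    rw [hm0]
    field_simp
    ring
  · refine key (-m) 0 (fun _ => 0) (fun _ => 0) (fun t => hasDerivAt_const t 0) continuous_const
      rfl ?_
    have e3 := ev_pos' (R := fun ε t => m ^ 2 * η t * w t ^ 2 * (w t - ε * m * η t)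
      + ε * A t * η t ^ 2 * m ^ 2) (x₀ := 0)
      (by fun_prop) (fun t _ => by
        have := hw0 t
        have := hη0 t
        have h3 : 0 < m ^ 2 * η t * w t ^ 3 := by positivity
        refine lt_of_lt_of_eq h3 ?_
        ring)
    refine e3.mono fun ε hε hε0 t ht => ?_
    refine lt_of_lt_of_eq (mul_pos hε0 (hε t ht)) ?_
    ring

lemma per_nonneg {f : ℝ → ℝ} (hf : Function.Periodic f (2 * π))
    (h : ∀ t ∈ Icc (0 : ℝ) (2 * π), 0 ≤ f t) (t : ℝ) : 0 ≤ f t := by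
  obtain ⟨y, hy, e⟩ := hf.exists_mem_Ico₀ (by positivity) t
  rw [e]; exact h y (Ico_subset_Icc_self hy)

theorem no_three_ord {a : ℝ} {A B u₁ u₂ u₃ : ℝ → ℝ} (hA : Continuous A) (hB : Continuous B)
    (hAp : Function.Periodic A (2 * π)) (hBp : Function.Periodic B (2 * π))
    (hJ : ∀ γ, JProp a (fun t => A t - γ) B)
    (h₁ : PerSol a A B u₁) (h₂ : PerSol a A B u₂) (h₃ : PerSol a A B u₃)
    (h12 : ∀ t, u₁ t < u₂ t) (h23 : ∀ t, u₂ t < u₃ t) : False := by
  have hpi : 0 < 2 * π := by positivity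
  obtain ⟨lo, hi', hlo, H₁⟩ : ∃ lo hi, 0 < lo ∧ ∀ t ∈ Icc (0 : ℝ) (2 * π), lo ≤ u₁ t ∧ u₁ t ≤ hi :=
    exists_lohi h₁.cont.continuousOn fun t _ => h₁.pos t
  obtain ⟨lo', hi, -, H₃⟩ : ∃ lo hi, 0 < lo ∧ ∀ t ∈ Icc (0 : ℝ) (2 * π), lo ≤ u₃ t ∧ u₃ t ≤ hi :=
    exists_lohi h₃.cont.continuousOn fun t _ => h₃.pos t
  have h13 : ∀ t, u₁ t < u₃ t := fun t => (h12 t).trans (h23 t)
  have hlh : lo ≤ hi := le_trans (H₁ 0 mem0).1 (le_trans (h13 0).le (H₃ 0 mem0).2)
  obtain ⟨φ, hφ, hc⟩ := exists_flow a hA hB hlo hlh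
  let K : Set (ℝ × ℝ) := {z | 0 ≤ z.1 ∧ φ z.1 z.2 (2 * π) = z.2 ∧
    ∀ t ∈ Icc (0 : ℝ) (2 * π), u₁ t ≤ φ z.1 z.2 t ∧ φ z.1 z.2 t ≤ u₃ t}
  have hAγ : ∀ γ, Continuous fun t => A t - γ := fun γ => hA.sub continuous_const
  have hAγp : ∀ γ, Function.Periodic (fun t => A t - γ) (2 * π) := fun γ t => by
    simp only [hAp t]
  have step : ∀ γ₀ w, 0 ≤ γ₀ → PerSol a (fun t => A t - γ₀) B w → (∀ t, u₁ t < w t) →
      (∀ t, w t < u₃ t) → ∃ z ∈ K, γ₀ < z.1 := by
    intro γ₀ w hγ₀ hw g1 g2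
    obtain ⟨β, β', hβ, hβ'⟩ := exists_upper_near (hAγ γ₀) hB (hJ γ₀) hw h₁.cont h₃.cont h₁.pos g1 g2
    obtain ⟨γ, hγ, hβγ⟩ := exists_gt_of_ev (hβ.ev_gamma hA hB)
    have hα : Bar (-1) a (fun t => A t - γ) B u₁ (fun t => G a A B t (u₁ t)) := by
      refine ⟨fun t _ => h₁.pos t, DerI.of h₁.der,
        G_contOn hA hB h₁.cont.continuousOn fun t _ => h₁.pos t, fun t _ => ?_, by simp [h₁.per0]⟩
      have : 0 < γ / u₁ t := div_pos (by linarith) (h₁.pos t)
      refine lt_of_lt_of_eq this ?_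
      unfold G; ring
    obtain ⟨x, hx, hx'⟩ := E1_flow (φ := φ γ) (hφ γ)
      ((hc _ mem2).comp (by fun_prop : Continuous fun x : ℝ => (γ, x))) hα hβγ
      (fun t ht => ⟨(H₁ t ht).1, le_trans (h13 t).le (H₃ t ht).2⟩)
      (fun t ht => ⟨le_trans (H₁ t ht).1 (hβ' t ht).1.le, le_trans (hβ' t ht).2.le (H₃ t ht).2⟩)
      (hβ' 0 mem0).1.le
    exact ⟨(γ, x), ⟨by simp only; linarith, hx,
      fun t ht => ⟨(hx' t ht).1, le_trans (hx' t ht).2 (hβ' t ht).2.le⟩⟩, hγ⟩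
  have ext : ∀ z ∈ K, ∃ w, PerSol a (fun t => A t - z.1) B w ∧
      ∀ t ∈ Icc (0 : ℝ) (2 * π), u₁ t ≤ w t ∧ w t ≤ u₃ t := by
    intro z hz
    obtain ⟨w, hw, e⟩ := extend_trunc (hAγ z.1) hB (hAγp z.1) hBp hlo
      (fun t ht => ⟨le_trans (H₁ t ht).1 (hz.2.2 t ht).1, le_trans (hz.2.2 t ht).2 (H₃ t ht).2⟩)
      (hφ z.1 z.2).2 (by rw [hz.2.1, (hφ _ _).1])
    exact ⟨w, hw, fun t ht => by rw [e t ht]; exact hz.2.2 t ht⟩
  obtain ⟨MA, hMA0, hMA⟩ := exists_bound hA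
  obtain ⟨MB, hMB0, hMB⟩ := exists_bound hB
  have hKsub : K ⊆ Icc 0 (MA + |a| * hi ^ 2 + MB * hi) ×ˢ Icc (u₁ 0) (u₃ 0) := by
    intro z hz
    refine ⟨⟨hz.1, ?_⟩, ?_⟩
    · obtain ⟨w, hw, e⟩ := ext z hz
      obtain ⟨s, hs, hs0⟩ := exists_hasDerivAt_eq_zero hpi hw.cont.continuousOn hw.per0.symm
        fun t _ => hw.der t
      have hs' := Ioo_subset_Icc_self hs
      have g1 := hw.pos s
      have g2 : w s ≤ hi := le_trans (e s hs').2 (H₃ s hs').2
      have g3 : z.1 = A s + a * w s ^ 2 + B s * w s := by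
        unfold G at hs0
        field_simp at hs0
        linarith
      have g4 : a * w s ^ 2 ≤ |a| * hi ^ 2 :=
        mul_le_mul (le_abs_self a) (pow_le_pow_left₀ g1.le g2 2) (by positivity) (abs_nonneg a)
      have g5 : B s * w s ≤ MB * hi :=
        mul_le_mul (le_trans (le_abs_self _) (hMB s hs')) g2 g1.le hMB0
      have g6 := le_trans (le_abs_self _) (hMA s hs')
      linarith
    · have := hz.2.2 0 mem0
      rwa [(hφ _ _).1] at this
  have hKc : IsClosed K := by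
    refine (isClosed_le continuous_const continuous_fst).inter
      ((isClosed_eq (hc _ mem2) continuous_snd).inter ?_)
    have : {z : ℝ × ℝ | ∀ t ∈ Icc (0 : ℝ) (2 * π), u₁ t ≤ φ z.1 z.2 t ∧ φ z.1 z.2 t ≤ u₃ t}
        = ⋂ t ∈ Icc (0 : ℝ) (2 * π), ({z : ℝ × ℝ | u₁ t ≤ φ z.1 z.2 t}
          ∩ {z : ℝ × ℝ | φ z.1 z.2 t ≤ u₃ t}) := by
      ext z; simp
    change IsClosed {z : ℝ × ℝ | ∀ t ∈ Icc (0 : ℝ) (2 * π),
      u₁ t ≤ φ z.1 z.2 t ∧ φ z.1 z.2 t ≤ u₃ t}
    rw [this]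
    exact isClosed_biInter fun t ht => (isClosed_le continuous_const (hc t ht)).inter
      (isClosed_le (hc t ht) continuous_const)
  have hKcomp : IsCompact K := (isCompact_Icc.prod isCompact_Icc).of_isClosed_subset hKc hKsub
  obtain ⟨z₀, hz₀, hz₀'⟩ := step 0 u₂ le_rfl (by simpa using h₂) h12 h23
  obtain ⟨z, hz, hmax⟩ := hKcomp.exists_isMaxOn ⟨z₀, hz₀⟩ continuous_fst.continuousOn
  have hz1 : 0 < z.1 := lt_of_lt_of_le hz₀' (hmax hz₀)
  obtain ⟨w, hw, e⟩ := ext z hz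
  have touch : ∀ u, PerSol a A B u → ∀ t, w t = u t → ¬ IsLocalExtr (fun t => w t - u t) t := by
    intro u hu t ht hex
    have := hex.hasDerivAt_eq_zero ((hw.der t).fun_sub (hu.der t))
    have g : G a (fun t => A t - z.1) B t (w t) - G a A B t (u t) = z.1 / u t := by
      rw [ht]; unfold G; ring
    rw [g] at this
    exact (div_pos hz1 (hu.pos t)).ne' this
  have g1 : ∀ t, u₁ t < w t := by
    have hle := per_nonneg (hw.per.sub h₁.per) fun t ht => sub_nonneg.2 (e t ht).1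
    intro t
    refine lt_of_le_of_ne (sub_nonneg.1 (hle t)) fun ht => touch u₁ h₁ t ht.symm (Or.inl ?_)
    refine Filter.Eventually.of_forall fun s => ?_
    have := hle s
    simp only [Pi.sub_apply] at this
    simp only [ht, sub_self]; exact this
  have g3 : ∀ t, w t < u₃ t := by
    have hle := per_nonneg (h₃.per.sub hw.per) fun t ht => sub_nonneg.2 (e t ht).2
    intro t
    refine lt_of_le_of_ne (sub_nonneg.1 (hle t)) fun ht => touch u₃ h₃ t ht (Or.inr ?_)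
    refine Filter.Eventually.of_forall fun s => ?_
    have := hle s
    simp only [Pi.sub_apply] at this
    simp only [ht, sub_self]; linarith
  obtain ⟨z', hz', hlt⟩ := step z.1 w hz.1 hw g1 g3
  exact absurd (hmax hz') (not_le.2 hlt)

theorem no_three_of_ord {a : ℝ} {A B : ℝ → ℝ} (hA : Continuous A) (P : (ℝ → ℝ) → Prop)
    (hP : ∀ u, P u → PerSol a A B u)
    (H : ∀ u₁ u₂ u₃, P u₁ → P u₂ → P u₃ → (∀ t, u₁ t < u₂ t) → (∀ t, u₂ t < u₃ t) → False)
    {u v w : ℝ → ℝ} (hu : P u) (hv : P v) (hw : P w) : u = v ∨ u = w ∨ v = w := by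
  by_contra hc
  push Not at hc
  obtain ⟨h1, h2, h3⟩ := hc
  have n1 : u 0 ≠ v 0 := fun e => h1 ((hP u hu).eq_of_eq hA (hP v hv) e)
  have n2 : u 0 ≠ w 0 := fun e => h2 ((hP u hu).eq_of_eq hA (hP w hw) e)
  have n3 : v 0 ≠ w 0 := fun e => h3 ((hP v hv).eq_of_eq hA (hP w hw) e)
  have L : ∀ x y, P x → P y → x 0 < y 0 → ∀ t, x t < y t := fun x y hx hy h =>
    (hP x hx).lt_of_lt hA (hP y hy) h
  rcases lt_or_gt_of_ne n1 with a1 | a1 <;> rcases lt_or_gt_of_ne n2 with a2 | a2 <;>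
    rcases lt_or_gt_of_ne n3 with a3 | a3
  · exact H u v w hu hv hw (L _ _ hu hv a1) (L _ _ hv hw a3)
  · exact H u w v hu hw hv (L _ _ hu hw a2) (L _ _ hw hv a3)
  · linarith
  · exact H w u v hw hu hv (L _ _ hw hu a2) (L _ _ hu hv a1)
  · exact H v u w hv hu hw (L _ _ hv hu a1) (L _ _ hu hw a2)
  · linarith
  · exact H v w u hv hw hu (L _ _ hv hw a3) (L _ _ hw hu a2)
  · exact H w v u hw hv hu (L _ _ hw hv a3) (L _ _ hv hu a1)

end Pool.Agent.Lib.MP_41d825_an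
end
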