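import Mathlib
import Pool.Agent.Lib.MP_41d825_an.Three

-- part Pool.Agent.Lib.MP_41d825_an.Ineq
section

set_option autoImplicit false

namespace Pool.Agent.Lib.MP_41d825_an

/-- Case A1 of the pointwise certificate. -/
lemma ineqA1 (p q θ ξ ζ t M δ : ℝ) (hp : 1 ≤ p) (hθ : 0 < θ) (hθ1 : θ < 1)
    (hξ1 : -p < ξ) (hξ2 : ξ < p) (ht : t = 1 + ξ + ζ) (ht0 : 0 < t)
    (hM : M = p ^ 2 + q ^ 2 - ξ ^ 2 + ζ ^ 2) (hδ : δ = t - θ) :
    0 < θ ^ 2 * (1 - t) * M + (p ^ 2 + q ^ 2) * t * δ * (2 * δ + θ ^ 2 * t) := by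
  have hK : 1 ≤ p ^ 2 + q ^ 2 := by nlinarith [sq_nonneg q]
  have hKp : p ≤ p ^ 2 + q ^ 2 := by nlinarith [sq_nonneg q]
  have hM0 : 0 < M := by rw [hM]; nlinarith [sq_nonneg q, sq_nonneg ζ]
  have hθ2 : 0 < θ ^ 2 := by positivity
  set K := p ^ 2 + q ^ 2 with hKdef
  have hζ : ζ = (t - 1) - ξ := by linarith
  rcases le_or_gt 1 t with h1 | h1
  · -- t ≥ 1
    have hw : 0 ≤ t - 1 := by linarith
    have hMle : M ≤ K * t ^ 2 := by
      have : M = K + (t - 1) ^ 2 - 2 * (t - 1) * ξ := by rw [hM, hζ]; ring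
      have h2 : -(2 * (t - 1) * ξ) ≤ 2 * (t - 1) * K := by nlinarith
      have h3 : (t - 1) ^ 2 ≤ K * (t - 1) ^ 2 := by nlinarith [sq_nonneg (t - 1)]
      nlinarith
    have hd : t - 1 < δ := by linarith
    have hd0 : 0 < δ := by linarith
    have h4 : (t - 1) * M ≤ δ * (K * t ^ 2) := by
      apply mul_le_mul hd.le hMle hM0.le hd0.le
    have h5 : 0 < K * t * δ * (2 * δ) := by positivity
    nlinarith [mul_le_mul_of_nonneg_left h4 hθ2.le]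
  · rcases le_or_gt θ t with h2 | h2
    · have hd0 : 0 ≤ δ := by linarith
      have h5 : 0 ≤ K * t * δ * (2 * δ + θ ^ 2 * t) := by positivity
      have h6 : 0 < θ ^ 2 * (1 - t) * M := by
        have : 0 < 1 - t := by linarith
        positivity
      linarith
    · have hv : 0 < 1 - t := by linarith
      have hMge : K * t ^ 2 ≤ M := by
        have e1 : M = K + (1 - t) ^ 2 + 2 * (1 - t) * ξ := by rw [hM, hζ]; ring
        have e2 : q ^ 2 + (p - (1 - t)) ^ 2 ≤ M := by rw [e1, hKdef]; nlinarith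
        have e3 : p * t ≤ p - (1 - t) := by nlinarith
        have e4 : (p * t) ^ 2 ≤ (p - (1 - t)) ^ 2 := by
          apply pow_le_pow_left₀ (by positivity) e3
        have e5 : q ^ 2 * t ^ 2 ≤ q ^ 2 := by
          have : t ^ 2 ≤ 1 := by nlinarith
          nlinarith [sq_nonneg q]
        rw [hKdef]; nlinarith
      have hd : -δ < 1 - t := by linarith
      have hd0 : 0 < -δ := by linarith
      have h4 : (-δ) * (K * t ^ 2) ≤ (1 - t) * M := by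
        apply mul_le_mul hd.le hMge (by positivity) hv.le
      have h5 : 0 < K * t * (-δ) * (2 * (-δ)) := by positivity
      nlinarith [mul_le_mul_of_nonneg_left h4 hθ2.le]

/-- Case A2 of the pointwise certificate. -/
lemma ineqA2 (p q θ ξ ζ t M δ : ℝ) (hp0 : 0 < p) (hp : p < 1) (hθ : 0 < θ) (hθp : 3 * θ < 2 * p)
    (hξ1 : -p < ξ) (hξ2 : ξ < p) (ht : t = 1 + ξ + ζ) (ht0 : 0 < t)
    (hM : M = p ^ 2 + q ^ 2 - ξ ^ 2 + ζ ^ 2) (hδ : δ = t - θ) :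
    0 < θ ^ 2 * (1 - t) * M + (p ^ 2 + q ^ 2) * t * δ * (2 * δ + 0 * t) := by
  have hM0 : 0 < M := by rw [hM]; nlinarith [sq_nonneg q, sq_nonneg ζ]
  have hθ2 : 0 < θ ^ 2 := by positivity
  have hK0 : 0 < p ^ 2 + q ^ 2 := by positivity
  have hθK : θ ^ 2 ≤ 4 / 9 * (p ^ 2 + q ^ 2) := by nlinarith [sq_nonneg q]
  set K := p ^ 2 + q ^ 2 with hKdef
  have hζ : ζ = (t - 1) - ξ := by linarith
  rcases lt_or_ge t 1 with h1 | h1
  · have h5 : 0 ≤ K * t * δ * (2 * δ + 0 * t) := by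
      have : K * t * δ * (2 * δ + 0 * t) = 2 * K * t * δ ^ 2 := by ring
      rw [this]; positivity
    have h6 : 0 < θ ^ 2 * (1 - t) * M := by
      have : 0 < 1 - t := by linarith
      positivity
    linarith
  · obtain ⟨w, hw⟩ : ∃ w, w = t - 1 := ⟨_, rfl⟩
    have hw0 : 0 ≤ w := by linarith
    have htw : t = 1 + w := by linarith
    have hdw : w + 1 / 3 < δ := by linarith
    have e1 : M = K + w ^ 2 - 2 * w * ξ := by rw [hM, hζ, hw]; ring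
    have hMle : M ≤ K + w ^ 2 + 2 * w := by rw [e1]; nlinarith
    have hθ1 : θ ^ 2 ≤ 4 / 9 := by nlinarith
    have h2 : θ ^ 2 * M ≤ 4 / 9 * K * (1 + w ^ 2 + 2 * w) := by
      have a1 : θ ^ 2 * K ≤ 4 / 9 * K := by nlinarith
      have a2 : θ ^ 2 * (w ^ 2 + 2 * w) ≤ 4 / 9 * K * (w ^ 2 + 2 * w) := by
        apply mul_le_mul_of_nonneg_right hθK; positivity
      nlinarith
    have h3 : (w + 1 / 3) ^ 2 < δ ^ 2 := by
      apply pow_lt_pow_left₀ hdw (by positivity) (by norm_num)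
    have h4 : K * (1 + w) * (2 * (w + 1 / 3) ^ 2) < K * (1 + w) * (2 * δ ^ 2) := by
      apply mul_lt_mul_of_pos_left (by linarith) (by positivity)
    have h5 : w * (θ ^ 2 * M) ≤ w * (4 / 9 * K * (1 + w ^ 2 + 2 * w)) :=
      mul_le_mul_of_nonneg_left h2 hw0
    have h6 : w * (4 / 9 * K * (1 + w ^ 2 + 2 * w)) ≤ K * (1 + w) * (2 * (w + 1 / 3) ^ 2) := by
      have : 0 ≤ K * (14 / 9 * w ^ 3 + 22 / 9 * w ^ 2 + 10 / 9 * w + 2 / 9) := by positivity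
      nlinarith
    have e : θ ^ 2 * (1 - t) * M + K * t * δ * (2 * δ + 0 * t)
        = K * (1 + w) * (2 * δ ^ 2) - w * (θ ^ 2 * M) := by rw [htw]; ring
    rw [e]; linarith

end Pool.Agent.Lib.MP_41d825_an
end

-- part Pool.Agent.Lib.MP_41d825_an.IneqB
section

set_option autoImplicit false

namespace Pool.Agent.Lib.MP_41d825_an

/-- Titu-type bound. -/
lemma titu (x y M₁ M₃ : ℝ) (h1 : 0 < M₁) (h3 : 0 < M₃) :
    (x + y) ^ 2 / (M₁ + M₃) ≤ x ^ 2 / M₁ + y ^ 2 / M₃ := by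
  rw [div_add_div _ _ h1.ne' h3.ne', div_le_div_iff₀ (by positivity) (by positivity)]
  nlinarith [sq_nonneg (x * M₃ - y * M₁), mul_pos h1 h3]

lemma quad_nonneg (α β c x y : ℝ) (hα : 0 < α) (h : c ^ 2 ≤ α * β) :
    0 ≤ α * x ^ 2 + β * y ^ 2 + 2 * c * x * y := by
  have h1 : 0 ≤ α * (α * x ^ 2 + β * y ^ 2 + 2 * c * x * y) := by
    nlinarith [sq_nonneg (α * x + c * y), mul_nonneg (sub_nonneg.2 h) (sq_nonneg y)]
  by_contra hc
  push Not at hc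
  nlinarith

lemma bZ (x y t τ w M₁ M₃ : ℝ) (h1 : 0 < M₁) (h3 : 0 < M₃) (ht0 : 0 < t)
    (e1 : x + y = w + τ) (e2 : 1 - t = -w) :
    (w ^ 2 + τ ^ 2) / (t * (M₁ + M₃)) ≤ x ^ 2 / (t * M₁) + y ^ 2 / (t * M₃)
      + 2 * τ * (1 - t) / (t * (M₁ + M₃)) := by
  have h0 := titu x y M₁ M₃ h1 h3
  have h2 : x ^ 2 / (t * M₁) + y ^ 2 / (t * M₃) = (x ^ 2 / M₁ + y ^ 2 / M₃) / t := by
    field_simp
  have h3 : (w ^ 2 + τ ^ 2) / (t * (M₁ + M₃))
      = ((x + y) ^ 2 / (M₁ + M₃)) / t + 2 * τ * (1 - t) / (t * (M₁ + M₃)) := by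
    rw [e2, e1]; field_simp; ring
  rw [h2, h3]
  have := div_le_div_of_nonneg_right h0 ht0.le
  linarith

lemma bY2e (q g3 θ ζ t y δ M₃ N : ℝ) (hθ0 : 0 < θ) (hM3 : 0 < M₃) (hδt : t = θ + δ)
    (hy : y = ζ + g3) (hM₃ : M₃ = q ^ 2 + ζ ^ 2) (hN : N = q ^ 2 + g3 ^ 2) :
    y ^ 2 * (M₃ + 2 * q ^ 2) / M₃ ^ 2 - 2 * g3 * y / M₃ + 2 * g3 * (N / θ) * t * y / M₃ ^ 2
      = (y ^ 2 * (2 * q ^ 2 + N + (ζ - g3) ^ 2) + 2 * g3 * (N / θ) * y * δ) / M₃ ^ 2 := by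
  rw [hδt]
  have e1 : ζ = y - g3 := by linarith
  field_simp
  rw [hM₃, hN, e1]; ring

lemma bF1a (p g1 x M₁ : ℝ) (hp0 : 0 < p) (hM1 : 0 < M₁) :
    -(g1 ^ 2 / (2 * p ^ 2)) ≤ 2 * p ^ 2 * x ^ 2 / M₁ ^ 2 - 2 * g1 * x / M₁ := by
  have : 2 * p ^ 2 * x ^ 2 / M₁ ^ 2 - 2 * g1 * x / M₁ + g1 ^ 2 / (2 * p ^ 2)
      = (2 * p ^ 2 * x / M₁ - g1) ^ 2 / (2 * p ^ 2) := by
    field_simp; ring
  have h2 : 0 ≤ (2 * p ^ 2 * x / M₁ - g1) ^ 2 / (2 * p ^ 2) := by positivity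
  linarith

lemma bF1b (p g1 ξ x M₁ : ℝ) (hg1 : 0 < g1) (hg1p : g1 < p) (hξ1 : -p < ξ) (hM1 : 0 < M₁)
    (hx : x = ξ + g1) (hM₁ : M₁ = p ^ 2 - ξ ^ 2) (h : 0 ≤ x * ξ) :
    0 ≤ 2 * p ^ 2 * x ^ 2 / M₁ ^ 2 - 2 * g1 * x / M₁ := by
  have : 2 * p ^ 2 * x ^ 2 / M₁ ^ 2 - 2 * g1 * x / M₁
      = 2 * (x * ξ) * (p ^ 2 + g1 * ξ) / M₁ ^ 2 := by
    field_simp; rw [hM₁, hx]; ring
  rw [this]
  have h2 : 0 < p ^ 2 + g1 * ξ := by nlinarith
  positivity

lemma bF2 (p q g3 θ ζ x y M₃ N : ℝ) (hp0 : 0 < p) (hθp : 2 * p ≤ 3 * θ) (hg3 : 0 < g3)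
    (hM3 : 0 < M₃) (hN0 : 0 < N)
    (hy : y = ζ + g3) (hM₃ : M₃ = q ^ 2 + ζ ^ 2) (hN : N = q ^ 2 + g3 ^ 2) (hy0 : y ≤ 0) :
    0 ≤ x ^ 2 / p ^ 2
      + (y ^ 2 * (2 * q ^ 2 + N + (ζ - g3) ^ 2) + 2 * g3 * (N / θ) * y * (x + y)) / M₃ ^ 2 := by
  have hθ0 : 0 < θ := by linarith
  have hζ : ζ ≤ -g3 := by linarith
  have hNM : N ≤ M₃ := by rw [hN, hM₃]; nlinarith
  have hK : 4 * g3 ^ 2 ≤ 2 * q ^ 2 + N + (ζ - g3) ^ 2 := by nlinarith [sq_nonneg q]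
  have hc : (g3 * (N / θ) / M₃ ^ 2) ^ 2 ≤ (1 / p ^ 2) * (4 * g3 ^ 2 / M₃ ^ 2) := by
    have e1 : (g3 * (N / θ) / M₃ ^ 2) ^ 2 = (g3 ^ 2 / M₃ ^ 2) * ((N / M₃) ^ 2 / θ ^ 2) := by
      field_simp
    have e2 : (1 / p ^ 2) * (4 * g3 ^ 2 / M₃ ^ 2) = (g3 ^ 2 / M₃ ^ 2) * (4 / p ^ 2) := by
      field_simp
    rw [e1, e2]
    apply mul_le_mul_of_nonneg_left _ (by positivity)
    have a1 : N / M₃ ≤ 1 := (div_le_one hM3).2 hNM
    have a2 : (N / M₃) ^ 2 ≤ 1 := pow_le_one₀ (by positivity) a1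
    rw [div_le_div_iff₀ (by positivity) (by positivity)]
    have a3 : (N / M₃) ^ 2 * p ^ 2 ≤ 1 * p ^ 2 := mul_le_mul_of_nonneg_right a2 (by positivity)
    have a4 : p ^ 2 ≤ 4 * θ ^ 2 := by nlinarith
    linarith
  have h1 := quad_nonneg (1 / p ^ 2) (4 * g3 ^ 2 / M₃ ^ 2) (g3 * (N / θ) / M₃ ^ 2) x y
    (by positivity) hc
  have e : 1 / p ^ 2 * x ^ 2 + 4 * g3 ^ 2 / M₃ ^ 2 * y ^ 2 + 2 * (g3 * (N / θ) / M₃ ^ 2) * x * y
      = x ^ 2 / p ^ 2 + (y ^ 2 * (4 * g3 ^ 2) + 2 * g3 * (N / θ) * y * x) / M₃ ^ 2 := by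
    field_simp; ring
  rw [e] at h1
  refine le_trans h1 (add_le_add_right ?_ _)
  apply div_le_div_of_nonneg_right _ (by positivity)
  have b1 : y ^ 2 * (4 * g3 ^ 2) ≤ y ^ 2 * (2 * q ^ 2 + N + (ζ - g3) ^ 2) :=
    mul_le_mul_of_nonneg_left hK (sq_nonneg y)
  have b2 : 0 ≤ 2 * g3 * (N / θ) * y ^ 2 := by positivity
  linarith

lemma bF4a (g3 r t y : ℝ) (hg3 : 0 < g3) (ht0 : 0 < t) (ht1 : t < 1) (hr1 : r ≤ 1 - t)
    (h25 : 2 * g3 / 5 ≤ y) : 0 ≤ y * (1 + 1 / t) - 2 * g3 * r := by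
  have b1 : 5 * (1 - t) ≤ 1 + 1 / t := by
    have : 1 + 1 / t - 5 * (1 - t) = (5 * t ^ 2 - 4 * t + 1) / t := by field_simp; ring
    have h2 : 0 ≤ (5 * t ^ 2 - 4 * t + 1) / t := by
      apply div_nonneg _ ht0.le; nlinarith [sq_nonneg (5 * t - 2)]
    linarith
  have c1 : 2 * g3 / 5 * (5 * (1 - t)) ≤ y * (1 + 1 / t) :=
    mul_le_mul h25 b1 (by linarith) (by linarith)
  have c2 : g3 * r ≤ g3 * (1 - t) := mul_le_mul_of_nonneg_left hr1 hg3.le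
  linarith

lemma bF4b (p g1 θ r t x M₁ : ℝ) (hp0 : 0 < p) (hθp : 2 * p ≤ 3 * θ) (hg1 : 0 < g1)
    (hM1 : 0 < M₁) (hM1P : M₁ ≤ p ^ 2) (ht0 : 0 < t) (ht1 : t < 1) (hr0 : 0 < r)
    (hx0 : x < -(r * θ)) :
    16 / 9 * r ^ 2 ≤ x ^ 2 / M₁ + x ^ 2 / (t * M₁)
      + (2 * p ^ 2 * x ^ 2 / M₁ ^ 2 - 2 * g1 * x / M₁) := by
  have hθ0 : 0 < θ := by linarith
  have hrθ : 0 < r * θ := by positivity
  have hP : 0 < p ^ 2 := by positivity
  have hxx : (r * θ) ^ 2 ≤ x ^ 2 := by nlinarith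
  have hX1ge : x ^ 2 / p ^ 2 ≤ x ^ 2 / M₁ := div_le_div_of_nonneg_left (sq_nonneg x) hM1 hM1P
  have hX2ge : x ^ 2 / M₁ ≤ x ^ 2 / (t * M₁) := by
    apply div_le_div_of_nonneg_left (sq_nonneg x) (by positivity)
    nlinarith
  have c1 : 0 ≤ -(2 * g1 * x / M₁) := by
    have : -(2 * g1 * x / M₁) = 2 * g1 * (-x) / M₁ := by ring
    rw [this]
    have : 0 < -x := by linarith
    positivity
  have c2 : 2 * (x ^ 2 / M₁) ≤ 2 * p ^ 2 * x ^ 2 / M₁ ^ 2 := by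
    have : 2 * p ^ 2 * x ^ 2 / M₁ ^ 2 = 2 * (x ^ 2 / M₁) * (p ^ 2 / M₁) := by
      field_simp
    rw [this]
    have h1 : 1 ≤ p ^ 2 / M₁ := by rw [le_div_iff₀ hM1]; linarith
    have h2 : 0 ≤ 2 * (x ^ 2 / M₁) := by positivity
    nlinarith
  have hX1r : 4 / 9 * r ^ 2 ≤ x ^ 2 / p ^ 2 := by
    rw [le_div_iff₀ hP]
    have c1 : p ^ 2 ≤ 9 / 4 * θ ^ 2 := by nlinarith
    have c3 : r ^ 2 * p ^ 2 ≤ r ^ 2 * (9 / 4 * θ ^ 2) := mul_le_mul_of_nonneg_left c1 (sq_nonneg r)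
    nlinarith
  linarith

lemma bF4c (q g3 ζ r t y M₃ : ℝ) (hg3 : 0 < g3) (ht0 : 0 < t) (ht1 : t < 1) (hM3 : 0 < M₃)
    (hy : y = ζ + g3) (hM₃ : M₃ = q ^ 2 + ζ ^ 2) (hy0 : 0 < y) (h25 : y < 2 * g3 / 5) :
    0 ≤ 16 / 9 * r ^ 2 + y / M₃ * (y * (1 + 1 / t) - 2 * g3 * r) := by
  have hinv : 1 ≤ 1 / t := by rw [le_div_iff₀ ht0]; linarith
  have hM3g : 9 / 25 * g3 ^ 2 ≤ M₃ := by
    rw [hM₃]
    have : ζ < -(3 / 5 * g3) := by linarith
    nlinarith [sq_nonneg q]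
  have hc : (-(g3 / M₃)) ^ 2 ≤ (16 / 9) * (2 / M₃) := by
    have : (-(g3 / M₃)) ^ 2 = g3 ^ 2 / M₃ ^ 2 := by ring
    rw [this, div_le_iff₀ (by positivity)]
    have : 16 / 9 * (2 / M₃) * M₃ ^ 2 = 32 / 9 * M₃ := by field_simp; ring
    rw [this]; nlinarith [sq_nonneg g3]
  have h1 := quad_nonneg (16 / 9) (2 / M₃) (-(g3 / M₃)) r y (by norm_num) hc
  have h2 : 2 / M₃ * y ^ 2 + 2 * (-(g3 / M₃)) * r * y
      ≤ y / M₃ * (y * (1 + 1 / t) - 2 * g3 * r) := by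
    have e : 2 / M₃ * y ^ 2 + 2 * (-(g3 / M₃)) * r * y
        = y / M₃ * (y * 2 - 2 * g3 * r) := by ring
    rw [e]
    apply mul_le_mul_of_nonneg_left _ (by positivity)
    have : y * 2 ≤ y * (1 + 1 / t) := mul_le_mul_of_nonneg_left (by linarith) hy0.le
    linarith
  linarith

lemma bF4 (p q g1 g3 θ ζ t x y M₁ M₃ N : ℝ) (hp0 : 0 < p) (hθp : 2 * p ≤ 3 * θ) (hθ1 : θ < 1)
    (hg1 : 0 < g1) (hg3 : 0 < g3) (hM1 : 0 < M₁) (hM1P : M₁ ≤ p ^ 2) (ht0 : 0 < t)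
    (hM3 : 0 < M₃) (hy : y = ζ + g3) (hM₃ : M₃ = q ^ 2 + ζ ^ 2) (hN : N = q ^ 2 + g3 ^ 2)
    (hδt : t = θ + (x + y)) (hy0 : 0 < y) (hd : x + y < 0)
    (hX3 : 0 ≤ 2 * p ^ 2 * x ^ 2 / M₁ ^ 2 - 2 * g1 * x / M₁) :
    0 ≤ x ^ 2 / M₁ + x ^ 2 / (t * M₁) + (2 * p ^ 2 * x ^ 2 / M₁ ^ 2 - 2 * g1 * x / M₁)
      + y ^ 2 / (t * M₃)
      + (y ^ 2 * (M₃ + 2 * q ^ 2) / M₃ ^ 2 - 2 * g3 * y / M₃
        + 2 * g3 * (N / θ) * t * y / M₃ ^ 2) := by
  have hθ0 : 0 < θ := by linarith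
  have hN0 : 0 ≤ N := by rw [hN]; positivity
  have ht1 : t < 1 := by linarith
  have hinv : 1 ≤ 1 / t := by rw [le_div_iff₀ ht0]; linarith
  have hX10 : 0 ≤ x ^ 2 / M₁ := by positivity
  have hX20 : 0 ≤ x ^ 2 / (t * M₁) := by positivity
  have hYsum : y ^ 2 / (t * M₃) + (y ^ 2 * (M₃ + 2 * q ^ 2) / M₃ ^ 2 - 2 * g3 * y / M₃
        + 2 * g3 * (N / θ) * t * y / M₃ ^ 2)
      = y / M₃ * (y * (1 + 1 / t) - 2 * g3 + 2 * g3 * (t / θ) * (N / M₃))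
      + 2 * q ^ 2 * y ^ 2 / M₃ ^ 2 := by
    field_simp; ring
  have hq0 : 0 ≤ 2 * q ^ 2 * y ^ 2 / M₃ ^ 2 := by positivity
  rcases le_or_gt 0 ζ with hz | hz
  · have a1 : g3 ≤ y := by linarith
    have a2 : 0 ≤ y * (1 + 1 / t) - 2 * g3 + 2 * g3 * (t / θ) * (N / M₃) := by
      have b1 : 0 ≤ 2 * g3 * (t / θ) * (N / M₃) := by positivity
      have b2 : y * 2 ≤ y * (1 + 1 / t) := mul_le_mul_of_nonneg_left (by linarith) hy0.le
      linarith
    have a3 : 0 ≤ y / M₃ * (y * (1 + 1 / t) - 2 * g3 + 2 * g3 * (t / θ) * (N / M₃)) := by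
      positivity
    linarith
  · have hNM : 1 ≤ N / M₃ := by
      rw [le_div_iff₀ hM3, hN, hM₃]
      have : -g3 < ζ := by linarith
      nlinarith
    obtain ⟨r, hr⟩ : ∃ r, r = 1 - t / θ := ⟨_, rfl⟩
    have hr1 : r ≤ 1 - t := by
      rw [hr]
      have : t ≤ t / θ := by
        rw [le_div_iff₀ hθ0]
        have := mul_le_mul_of_nonneg_left hθ1.le ht0.le
        linarith
      linarith
    have hrδ : x + y = -(r * θ) := by rw [hr]; field_simp; linarith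
    have hr0 : 0 < r := by
      have : 0 < r * θ := by linarith
      exact (mul_pos_iff_of_pos_right hθ0).1 this
    have a0 : y * (1 + 1 / t) - 2 * g3 * r
        ≤ y * (1 + 1 / t) - 2 * g3 + 2 * g3 * (t / θ) * (N / M₃) := by
      have : 2 * g3 * (t / θ) * 1 ≤ 2 * g3 * (t / θ) * (N / M₃) :=
        mul_le_mul_of_nonneg_left hNM (by positivity)
      rw [hr]; linarith
    have a0' := mul_le_mul_of_nonneg_left a0 (show 0 ≤ y / M₃ by positivity)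
    rcases le_or_gt (2 * g3 / 5) y with h25 | h25
    · have b2 := bF4a g3 r t y hg3 ht0 ht1 hr1 h25
      have b3 : 0 ≤ y / M₃ * (y * (1 + 1 / t) - 2 * g3 * r) := by positivity
      linarith
    · have b1 := bF4b p g1 θ r t x M₁ hp0 hθp hg1 hM1 hM1P ht0 ht1 hr0 (by linarith)
      have b2 := bF4c q g3 ζ r t y M₃ hg3 ht0 ht1 hM3 hy hM₃ hy0 h25
      linarith

lemma bG1 (p q g1 τ ξ ζ t w M : ℝ) (hp0 : 0 < p) (hg1 : 0 < g1) (hg1p : g1 < p) (hg1τ : g1 ≤ τ)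
    (hτP : g1 * (p ^ 2 + q ^ 2) ≤ τ * p ^ 2) (hM0 : 0 < M) (hM : M ≤ p ^ 2 + q ^ 2 + ζ ^ 2)
    (ht0 : 0 < t) (ht : t = 1 + ξ + ζ) (hw : w = ξ + ζ) (hξ0 : ξ < 0) (hz : ζ ≤ 0) :
    g1 ^ 2 / p ^ 2 ≤ (w ^ 2 + τ ^ 2) / (t * M) := by
  have hP : 0 < p ^ 2 := by positivity
  rw [div_le_div_iff₀ hP (by positivity)]
  have a1 : ζ ^ 2 ≤ w ^ 2 := by rw [hw]; nlinarith
  have a2 : t * M ≤ p ^ 2 + q ^ 2 + ζ ^ 2 := by
    have : t * M ≤ 1 * M := mul_le_mul_of_nonneg_right (by linarith) hM0.le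
    linarith
  have a3 : g1 * (g1 * (p ^ 2 + q ^ 2)) ≤ τ * (τ * p ^ 2) :=
    mul_le_mul hg1τ hτP (by positivity) (by linarith)
  have a4 : g1 ^ 2 * ζ ^ 2 ≤ p ^ 2 * w ^ 2 :=
    mul_le_mul (pow_le_pow_left₀ hg1.le hg1p.le 2) a1 (sq_nonneg _) hP.le
  have a5 := mul_le_mul_of_nonneg_left a2 (sq_nonneg g1)
  linarith

lemma bG2 (q g3 ζ y M₃ N : ℝ) (hg3 : 0 < g3) (hz : 0 < ζ) (hM3 : 0 < M₃)
    (hy : y = ζ + g3) (hM₃ : M₃ = q ^ 2 + ζ ^ 2) (hN : N = q ^ 2 + g3 ^ 2)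
    (h4 : q ^ 2 ≤ 4 * ζ ^ 2) :
    1 / 2 ≤ y ^ 2 * (2 * q ^ 2 + N + (ζ - g3) ^ 2) / M₃ ^ 2 := by
  rw [le_div_iff₀ (by positivity)]
  have b1 : 3 / 4 * ζ ^ 4 ≤ y ^ 2 * (g3 ^ 2 + (ζ - g3) ^ 2) := by
    rw [hy]
    have : 0 ≤ 2 * g3 ^ 3 * ζ := by positivity
    nlinarith [sq_nonneg (ζ ^ 2 - 2 * g3 ^ 2), sq_nonneg (g3 ^ 2)]
  have b2 : ζ ^ 2 ≤ y ^ 2 := pow_le_pow_left₀ hz.le (by linarith) 2
  have b3 : 3 * q ^ 2 * ζ ^ 2 ≤ 3 * q ^ 2 * y ^ 2 :=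
    mul_le_mul_of_nonneg_left b2 (by positivity)
  have b4 : q ^ 2 * q ^ 2 ≤ q ^ 2 * (4 * ζ ^ 2) :=
    mul_le_mul_of_nonneg_left h4 (by positivity)
  have b5 : 0 ≤ ζ ^ 4 := by positivity
  rw [hN, hM₃]
  linarith

lemma bG3 (p q g1 τ ζ t w M : ℝ) (hp0 : 0 < p) (hp : p < 1) (hq : 0 < q) (hg1 : 0 < g1)
    (hτP : g1 * (p ^ 2 + q ^ 2) ≤ τ * p ^ 2) (hM0 : 0 < M) (hM : M ≤ p ^ 2 + q ^ 2 + ζ ^ 2)
    (ht0 : 0 < t) (ht : t ≤ 1 + ζ) (h4 : 4 * ζ ^ 2 < q ^ 2) :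
    g1 ^ 2 / (2 * p ^ 2) ≤ (w ^ 2 + τ ^ 2) / (t * M) := by
  have hP : 0 < p ^ 2 := by positivity
  have hζq : ζ < q / 2 := by
    by_contra hc
    push Not at hc
    nlinarith
  rw [div_le_div_iff₀ (by positivity) (by positivity)]
  have a1 : t * M ≤ (1 + q / 2) * (5 / 4 * (p ^ 2 + q ^ 2)) :=
    mul_le_mul (by linarith) (by linarith) hM0.le (by positivity)
  have a2 : 5 * p ^ 2 * (1 + q / 2) ≤ 8 * (p ^ 2 + q ^ 2) := by
    have hp1 : p ^ 2 ≤ 1 := by nlinarith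
    rcases le_or_gt q 1 with hq1 | hq1
    · nlinarith
    · nlinarith
  have a3 : (g1 * (p ^ 2 + q ^ 2)) ^ 2 ≤ (τ * p ^ 2) ^ 2 :=
    pow_le_pow_left₀ (by positivity) hτP 2
  have a4 : g1 ^ 2 * (t * M) * p ^ 2 ≤ τ ^ 2 * (2 * p ^ 2) * p ^ 2 := by
    have b1 : g1 ^ 2 * (t * M) * p ^ 2
        ≤ g1 ^ 2 * ((1 + q / 2) * (5 / 4 * (p ^ 2 + q ^ 2))) * p ^ 2 := by
      apply mul_le_mul_of_nonneg_right _ hP.le
      exact mul_le_mul_of_nonneg_left a1 (sq_nonneg _)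
    have b2 : (g1 ^ 2 * (p ^ 2 + q ^ 2) / 4) * (5 * p ^ 2 * (1 + q / 2))
        ≤ (g1 ^ 2 * (p ^ 2 + q ^ 2) / 4) * (8 * (p ^ 2 + q ^ 2)) :=
      mul_le_mul_of_nonneg_left a2 (by positivity)
    linarith
  have a5 : g1 ^ 2 * (t * M) ≤ τ ^ 2 * (2 * p ^ 2) := le_of_mul_le_mul_right a4 hP
  have a6 : 0 ≤ w ^ 2 * (2 * p ^ 2) := by positivity
  linarith

/-- Case B of the pointwise certificate. -/
lemma ineqB (p q g1 g3 θ τ ξ ζ t x y M₁ M₃ N : ℝ) (hp0 : 0 < p) (hp : p < 1) (hq : 0 < q)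
    (hθp : 2 * p ≤ 3 * θ) (hτ : τ = g1 + g3) (hθ : θ = 1 - τ)
    (hg1 : 0 < g1) (hg1p : g1 < p) (hg3 : 0 < g3) (hgg : q ^ 2 * g1 < p ^ 2 * g3)
    (hξ1 : -p < ξ) (hξ2 : ξ < p) (ht : t = 1 + ξ + ζ) (ht0 : 0 < t)
    (hx : x = ξ + g1) (hy : y = ζ + g3) (hM₁ : M₁ = p ^ 2 - ξ ^ 2) (hM₃ : M₃ = q ^ 2 + ζ ^ 2)
    (hN : N = q ^ 2 + g3 ^ 2) :
    0 < x ^ 2 / M₁ + x ^ 2 / (t * M₁) + (2 * p ^ 2 * x ^ 2 / M₁ ^ 2 - 2 * g1 * x / M₁)
      + y ^ 2 / (t * M₃)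
      + (y ^ 2 * (M₃ + 2 * q ^ 2) / M₃ ^ 2 - 2 * g3 * y / M₃ + 2 * g3 * (N / θ) * t * y / M₃ ^ 2)
      + 2 * τ * (1 - t) / (t * (M₁ + M₃)) := by
  have hθ0 : 0 < θ := by linarith
  have hτ0 : 0 < τ := by linarith
  have hM1 : 0 < M₁ := by
    have : 0 < (p - ξ) * (p + ξ) := mul_pos (by linarith) (by linarith)
    linarith
  have hM3 : 0 < M₃ := by rw [hM₃]; positivity
  have hN0 : 0 < N := by rw [hN]; positivity
  have hP : 0 < p ^ 2 := by positivity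
  have hM1P : M₁ ≤ p ^ 2 := by linarith [sq_nonneg ξ]
  have hδt : t = θ + (x + y) := by linarith
  obtain ⟨w, hw⟩ : ∃ w, w = ξ + ζ := ⟨_, rfl⟩
  have hZ0 : 0 < (w ^ 2 + τ ^ 2) / (t * (M₁ + M₃)) := by positivity
  have hZle := bZ x y t τ w M₁ M₃ hM1 hM3 ht0 (by linarith) (by linarith)
  have hX1ge : x ^ 2 / p ^ 2 ≤ x ^ 2 / M₁ := div_le_div_of_nonneg_left (sq_nonneg x) hM1 hM1P
  have hX10 : 0 ≤ x ^ 2 / M₁ := by positivity
  have hY2e := bY2e q g3 θ ζ t y (x + y) M₃ N hθ0 hM3 hδt hy hM₃ hN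
  have hF1a := bF1a p g1 x M₁ hp0 hM1
  have hF2 := bF2 p q g3 θ ζ x y M₃ N hp0 hθp hg3 hM3 hN0 hy hM₃ hN
  have hF3 : 0 ≤ y → 0 ≤ x + y → y ^ 2 * (2 * q ^ 2 + N + (ζ - g3) ^ 2) / M₃ ^ 2 ≤
      (y ^ 2 * (2 * q ^ 2 + N + (ζ - g3) ^ 2) + 2 * g3 * (N / θ) * y * (x + y)) / M₃ ^ 2 := by
    intro h1 h2
    apply div_le_div_of_nonneg_right _ (by positivity)
    have : 0 ≤ 2 * g3 * (N / θ) * y * (x + y) := by positivity
    linarith
  have hF30 : 0 ≤ y ^ 2 * (2 * q ^ 2 + N + (ζ - g3) ^ 2) / M₃ ^ 2 := by positivity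
  by_cases hI : 0 ≤ x * ξ
  · have hX3' := bF1b p g1 ξ x M₁ hg1 hg1p hξ1 hM1 hx hM₁ hI
    rcases le_or_gt y 0 with hy0 | hy0
    · have := hF2 hy0
      linarith
    · rcases le_or_gt 0 (x + y) with hd | hd
      · have := hF3 hy0.le hd
        linarith
      · have hL0 : 0 < 2 * τ * (1 - t) / (t * (M₁ + M₃)) := by
          have : 0 < 1 - t := by linarith
          positivity
        have := bF4 p q g1 g3 θ ζ t x y M₁ M₃ N hp0 hθp (by linarith) hg1 hg3 hM1 hM1P ht0 hM3 hy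
          hM₃ hN hδt hy0 hd hX3'
        linarith
  · push Not at hI
    have hξ0 : ξ < 0 := by
      by_contra hc
      push Not at hc
      have : 0 ≤ x * ξ := mul_nonneg (by linarith) hc
      linarith
    have hx0 : 0 < x := by
      by_contra hc
      push Not at hc
      have : 0 ≤ x * ξ := mul_nonneg_of_nonpos_of_nonpos hc hξ0.le
      linarith
    have hτP : g1 * (p ^ 2 + q ^ 2) ≤ τ * p ^ 2 := by rw [hτ]; linarith
    have hMle : M₁ + M₃ ≤ p ^ 2 + q ^ 2 + ζ ^ 2 := by linarith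
    rcases le_or_gt ζ 0 with hz | hz
    · have hZge := bG1 p q g1 τ ξ ζ t w (M₁ + M₃) hp0 hg1 hg1p (by linarith) hτP (by positivity)
        hMle ht0 ht hw hξ0 hz
      have : g1 ^ 2 / (2 * p ^ 2) < g1 ^ 2 / p ^ 2 := by
        apply div_lt_div_of_pos_left (by positivity) hP; linarith
      rcases le_or_gt y 0 with hy0 | hy0
      · have := hF2 hy0
        linarith
      · have := hF3 hy0.le (by linarith)
        linarith
    · have hy0 : 0 < y := by linarith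
      have hX1p : 0 < x ^ 2 / M₁ := by positivity
      have hY := hF3 hy0.le (by linarith)
      rcases le_or_gt (q ^ 2) (4 * ζ ^ 2) with h4 | h4
      · have a1 := bG2 q g3 ζ y M₃ N hg3 hz hM3 hy hM₃ hN h4
        have a2 : g1 ^ 2 / (2 * p ^ 2) ≤ 1 / 2 := by
          rw [div_le_div_iff₀ (by positivity) (by norm_num)]
          have := pow_le_pow_left₀ hg1.le hg1p.le 2
          linarith
        linarith
      · have hZge := bG3 p q g1 τ ζ t w (M₁ + M₃) hp0 hp hq hg1 hτP (by positivity) hMle ht0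
          (by linarith) h4
        linarith

end Pool.Agent.Lib.MP_41d825_an
end

-- part Pool.Agent.Lib.MP_41d825_an.Alg
section

set_option autoImplicit false

namespace Pool.Agent.Lib.MP_41d825_an

noncomputable def Ih (K τ δ t M : ℝ) : ℝ := 2 / M * (τ - δ / t - 2 * K * δ / M)
noncomputable def Bs (K δ t M : ℝ) : ℝ := K * t * δ / M ^ 2
noncomputable def B3 (S y t M₃ : ℝ) : ℝ := S * t * y / M₃ ^ 2
noncomputable def Eh (P S g1 g3 x y t M₁ M₃ : ℝ) : ℝ :=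
  x * (x * (1 + 1 / t + 2 * P / M₁) - 2 * g1) / M₁ + y * (y * (1 + 1 / t + 2 * S / M₃) - 2 * g3) / M₃

lemma certA (p q θ : ℝ) (hp : 0 < p) (hθ : 0 < θ) (hθ1 : θ < 1) (h : 1 ≤ p ∨ 3 * θ < 2 * p) :
    ∃ α : ℝ, ∀ ξ ζ t M δ : ℝ, -p < ξ → ξ < p → t = 1 + ξ + ζ → 0 < t →
      M = p ^ 2 + q ^ 2 - ξ ^ 2 + ζ ^ 2 → δ = t - θ →
      0 < Ih (p ^ 2 + q ^ 2) (1 - θ) δ t M + 2 * α * Bs (p ^ 2 + q ^ 2) δ t M := by
  have key : ∀ β ξ ζ t M δ : ℝ, -p < ξ → ξ < p → 0 < t →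
      M = p ^ 2 + q ^ 2 - ξ ^ 2 + ζ ^ 2 → δ = t - θ →
      0 < θ ^ 2 * (1 - t) * M + (p ^ 2 + q ^ 2) * t * δ * (2 * δ + β * t) →
      0 < Ih (p ^ 2 + q ^ 2) (1 - θ) δ t M + 2 * ((2 + β) / θ) * Bs (p ^ 2 + q ^ 2) δ t M := by
    intro β ξ ζ t M δ h1 h2 ht0 hM hδ hpos
    have hM0 : 0 < M := by
      have : 0 < (p - ξ) * (p + ξ) := mul_pos (by linarith) (by linarith)
      rw [hM]; nlinarith [sq_nonneg q, sq_nonneg ζ]
    have e : Ih (p ^ 2 + q ^ 2) (1 - θ) δ t M + 2 * ((2 + β) / θ) * Bs (p ^ 2 + q ^ 2) δ t M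
        = 2 * (θ ^ 2 * (1 - t) * M + (p ^ 2 + q ^ 2) * t * δ * (2 * δ + β * t))
          / (θ * M ^ 2 * t) := by
      unfold Ih Bs
      field_simp
      rw [hδ]; ring
    rw [e]; positivity
  rcases le_or_gt 1 p with hp1 | hp1
  · refine ⟨(2 + θ ^ 2) / θ, fun ξ ζ t M δ h1 h2 ht ht0 hM hδ => key _ ξ ζ t M δ h1 h2 ht0 hM hδ ?_⟩
    exact ineqA1 p q θ ξ ζ t M δ hp1 hθ hθ1 h1 h2 ht ht0 hM hδ
  · have h3 : 3 * θ < 2 * p := by
      rcases h with h | h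
      · linarith
      · exact h
    refine ⟨(2 + 0) / θ, fun ξ ζ t M δ h1 h2 ht ht0 hM hδ => key _ ξ ζ t M δ h1 h2 ht0 hM hδ ?_⟩
    exact ineqA2 p q θ ξ ζ t M δ hp hp1 hθ h3 h1 h2 ht ht0 hM hδ

lemma certB (p q g1 g3 θ τ ξ ζ t x y M₁ M₃ N : ℝ) (hp0 : 0 < p) (hp : p < 1) (hq : 0 < q)
    (hθp : 2 * p ≤ 3 * θ) (hτ : τ = g1 + g3) (hθ : θ = 1 - τ)
    (hg1 : 0 < g1) (hg1p : g1 < p) (hg3 : 0 < g3) (hgg : q ^ 2 * g1 < p ^ 2 * g3)
    (hξ1 : -p < ξ) (hξ2 : ξ < p) (ht : t = 1 + ξ + ζ) (ht0 : 0 < t)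
    (hx : x = ξ + g1) (hy : y = ζ + g3) (hM₁ : M₁ = p ^ 2 - ξ ^ 2) (hM₃ : M₃ = q ^ 2 + ζ ^ 2)
    (hN : N = q ^ 2 + g3 ^ 2) :
    0 < Eh (p ^ 2) (q ^ 2) g1 g3 x y t M₁ M₃ + 2 * g3 * N / (q ^ 2 * θ) * B3 (q ^ 2) y t M₃
      + τ / θ * (Ih (p ^ 2 + q ^ 2) τ (x + y) t (M₁ + M₃)
        + 4 / θ * Bs (p ^ 2 + q ^ 2) (x + y) t (M₁ + M₃)) := by
  have h := ineqB p q g1 g3 θ τ ξ ζ t x y M₁ M₃ N hp0 hp hq hθp hτ hθ hg1 hg1p hg3 hgg hξ1 hξ2 ht ht0
    hx hy hM₁ hM₃ hN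
  have hθ0 : 0 < θ := by linarith
  have hτ0 : 0 < τ := by linarith
  have hM1 : 0 < M₁ := by
    have : 0 < (p - ξ) * (p + ξ) := mul_pos (by linarith) (by linarith)
    linarith
  have hM3 : 0 < M₃ := by rw [hM₃]; positivity
  have e1 : Eh (p ^ 2) (q ^ 2) g1 g3 x y t M₁ M₃ + 2 * g3 * N / (q ^ 2 * θ) * B3 (q ^ 2) y t M₃
      = x ^ 2 / M₁ + x ^ 2 / (t * M₁) + (2 * p ^ 2 * x ^ 2 / M₁ ^ 2 - 2 * g1 * x / M₁)
      + y ^ 2 / (t * M₃)
      + (y ^ 2 * (M₃ + 2 * q ^ 2) / M₃ ^ 2 - 2 * g3 * y / M₃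
        + 2 * g3 * (N / θ) * t * y / M₃ ^ 2) := by
    unfold Eh B3
    field_simp
    ring
  have hδ : x + y = t - θ := by linarith
  have hτ' : τ = 1 - θ := by linarith
  have e2 : τ / θ * (Ih (p ^ 2 + q ^ 2) τ (x + y) t (M₁ + M₃)
        + 4 / θ * Bs (p ^ 2 + q ^ 2) (x + y) t (M₁ + M₃))
      = 2 * τ * (1 - t) / (t * (M₁ + M₃))
        + 4 * τ * (p ^ 2 + q ^ 2) * (x + y) ^ 2 / (θ ^ 2 * (M₁ + M₃) ^ 2) := by
    unfold Ih Bs
    have : M₁ + M₃ ≠ 0 := by positivity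
    generalize M₁ + M₃ = M at *
    rw [hδ, hτ']
    field_simp
    ring
  have h2 : 0 ≤ 4 * τ * (p ^ 2 + q ^ 2) * (x + y) ^ 2 / (θ ^ 2 * (M₁ + M₃) ^ 2) := by positivity
  rw [e1, e2]
  linarith

end Pool.Agent.Lib.MP_41d825_an
end

-- part Pool.Agent.Lib.MP_41d825_an.Sys
section

set_option autoImplicit false

namespace Pool.Agent.Lib.MP_41d825_an

open Real

lemma rolle {T : ℝ} (hT : 0 < T) {F F' : ℝ → ℝ} (h : ∀ s, HasDerivAt F (F' s) s)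
    (hp : F T = F 0) : ∃ s, F' s = 0 := by
  obtain ⟨c, _, hc⟩ := exists_hasDerivAt_eq_zero hT
    (fun s _ => (h s).continuousAt.continuousWithinAt) hp.symm (fun s _ => h s)
  exact ⟨c, hc⟩

noncomputable def hh (a g p q x y : ℝ) : ℝ :=
  (g * (x ^ 2 + y ^ 2) - a * (1 - x ^ 2) + q * x - p * y - x * y) / (1 + p * x + q * y)

/-- The autonomous projective form of the system along a cycle with zero multiplier exponent. -/
structure Sys (a g p q κ T : ℝ) (X Y m Z : ℝ → ℝ) : Prop where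
  hT : 0 < T
  X1 : ∀ s, -1 < X s
  X2 : ∀ s, X s < 1
  tpos : ∀ s, 0 < 1 + p * X s + q * Y s
  mpos : ∀ s, 0 < m s
  Qpos : ∀ s, 0 < X s ^ 2 + Y s ^ 2
  dX : ∀ s, HasDerivAt X (-Y s - X s * hh a g p q (X s) (Y s)) s
  dY : ∀ s, HasDerivAt Y (X s - Y s * hh a g p q (X s) (Y s)) s
  dm : ∀ s, HasDerivAt m
    (-2 * m s * ((g + a) * X s ^ 2 + g * Y s ^ 2 - X s * Y s) / (1 + p * X s + q * Y s)) s
  dZ : ∀ s, HasDerivAt Z (2 * κ + (-2 * (a * (p * X s + q * Y s) + q * X s - p * Y s)) * m s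
    / (1 + p * X s + q * Y s) ^ 3) s
  pX : X T = X 0
  pY : Y T = Y 0
  pm : m T = m 0
  pZ : Z T = Z 0

namespace Sys

variable {a g p q κ T : ℝ} {X Y m Z : ℝ → ℝ}

lemma neg (H : Sys a g p q κ T X Y m Z) :
    Sys a g (-p) (-q) κ T (fun s => -X s) (fun s => -Y s) m Z where
  hT := H.hT
  X1 := fun s => by linarith [H.X2 s]
  X2 := fun s => by linarith [H.X1 s]
  tpos := fun s => by linarith [H.tpos s]
  mpos := H.mpos
  Qpos := fun s => by linarith [H.Qpos s]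
  dX := fun s => (H.dX s).fun_neg.congr_deriv (by unfold hh; ring_nf)
  dY := fun s => (H.dY s).fun_neg.congr_deriv (by unfold hh; ring_nf)
  dm := fun s => (H.dm s).congr_deriv (by ring_nf)
  dZ := fun s => (H.dZ s).congr_deriv (by ring_nf)
  pX := by simp [H.pX]
  pY := by simp [H.pY]
  pm := H.pm
  pZ := H.pZ

lemma dχ (H : Sys a g p q κ T X Y m Z) (s : ℝ) :
    HasDerivAt (fun s => (log (1 + X s) - log (1 - X s)) / 2)
      ((-Y s - X s * hh a g p q (X s) (Y s)) / ((1 - X s) * (1 + X s))) s := by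
  have h1 : 1 + X s ≠ 0 := by linarith [H.X1 s]
  have h2 : 1 - X s ≠ 0 := by linarith [H.X2 s]
  refine (((((H.dX s).const_add 1).log h1).fun_sub
    (((H.dX s).const_sub 1).log h2)).div_const 2).congr_deriv ?_
  field_simp
  ring

lemma D1 (H : Sys a g p q κ T X Y m Z) (s : ℝ) :
    HasDerivAt (fun s => log (m s) - log (1 - X s) - log (1 + X s))
      (-2 * (X s ^ 2 + Y s ^ 2) * (g + q * X s)
        / ((1 + p * X s + q * Y s) * ((1 - X s) * (1 + X s)))) s := by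
  have h1 : 1 + X s ≠ 0 := by linarith [H.X1 s]
  have h2 : 1 - X s ≠ 0 := by linarith [H.X2 s]
  have h3 := (H.mpos s).ne'
  have h4 := (H.tpos s).ne'
  refine ((((H.dm s).log h3).fun_sub (((H.dX s).const_sub 1).log h2)).fun_sub
    (((H.dX s).const_add 1).log h1)).congr_deriv ?_
  unfold hh
  obtain ⟨t, ht⟩ : ∃ t, t = 1 + p * X s + q * Y s := ⟨_, rfl⟩
  rw [← ht] at h4 ⊢
  field_simp
  rw [ht]
  ring

lemma D3 (H : Sys a g p q κ T X Y m Z) (s : ℝ) :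
    HasDerivAt (fun s => log (m s) - log (1 + Y s ^ 2))
      (-2 * (X s ^ 2 + Y s ^ 2) * (g + a + p * Y s)
        / ((1 + p * X s + q * Y s) * (1 + Y s ^ 2))) s := by
  have h1 : 1 + Y s ^ 2 ≠ 0 := by positivity
  have h3 := (H.mpos s).ne'
  have h4 := (H.tpos s).ne'
  refine (((H.dm s).log h3).fun_sub ((((H.dY s).fun_pow 2).const_add 1).log h1)).congr_deriv ?_
  unfold hh
  obtain ⟨t, ht⟩ : ∃ t, t = 1 + p * X s + q * Y s := ⟨_, rfl⟩
  rw [← ht] at h4 ⊢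
  field_simp
  rw [ht]
  ring

lemma dM (H : Sys a g p q κ T X Y m Z) (s : ℝ) :
    HasDerivAt (fun s => p ^ 2 * (1 - X s ^ 2) + q ^ 2 * (1 + Y s ^ 2))
      (-2 * p ^ 2 * X s * (-Y s - X s * hh a g p q (X s) (Y s))
        + 2 * q ^ 2 * Y s * (X s - Y s * hh a g p q (X s) (Y s))) s := by
  refine (((((H.dX s).fun_pow 2).const_sub 1).const_mul (p ^ 2)).fun_add
    ((((H.dY s).fun_pow 2).const_add 1).const_mul (q ^ 2))).congr_deriv ?_
  ring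

lemma dt (H : Sys a g p q κ T X Y m Z) (s : ℝ) :
    HasDerivAt (fun s => 1 + p * X s + q * Y s)
      (p * (-Y s - X s * hh a g p q (X s) (Y s)) + q * (X s - Y s * hh a g p q (X s) (Y s))) s :=
  (((H.dX s).const_mul p).const_add 1).fun_add ((H.dY s).const_mul q)

lemma Ds (H : Sys a g p q κ T X Y m Z) (s : ℝ)
    (hM : p ^ 2 * (1 - X s ^ 2) + q ^ 2 * (1 + Y s ^ 2) ≠ 0) :
    HasDerivAt (fun s => log (m s) - log (p ^ 2 * (1 - X s ^ 2) + q ^ 2 * (1 + Y s ^ 2)))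
      (-2 * (X s ^ 2 + Y s ^ 2) * (p ^ 2 * (g + q * X s) + q ^ 2 * (g + a + p * Y s))
        / ((1 + p * X s + q * Y s) * (p ^ 2 * (1 - X s ^ 2) + q ^ 2 * (1 + Y s ^ 2)))) s := by
  have h3 := (H.mpos s).ne'
  have h4 := (H.tpos s).ne'
  refine (((H.dm s).log h3).fun_sub ((H.dM s).log hM)).congr_deriv ?_
  unfold hh
  obtain ⟨t, ht⟩ : ∃ t, t = 1 + p * X s + q * Y s := ⟨_, rfl⟩
  rw [← ht] at h4 ⊢
  field_simp
  rw [ht]
  ring

lemma D0 (H : Sys a g p q κ T X Y m Z) (s : ℝ) :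
    HasDerivAt (fun s => log (m s) / 2 - log (X s ^ 2 + Y s ^ 2) / 2
        - p * ((log (1 + X s) - log (1 - X s)) / 2) - q * arctan (Y s))
      (-a + (X s ^ 2 + Y s ^ 2) * (p * X s * (g + q * X s) / ((1 - X s) * (1 + X s))
        + q * Y s * (g + a + p * Y s) / (1 + Y s ^ 2)) / (1 + p * X s + q * Y s)) s := by
  have h0 : 1 + Y s ^ 2 ≠ 0 := by positivity
  have h1 : 1 + X s ≠ 0 := by linarith [H.X1 s]
  have h2 : 1 - X s ≠ 0 := by linarith [H.X2 s]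
  have h3 := (H.mpos s).ne'
  have h4 := (H.tpos s).ne'
  have h5 := (H.Qpos s).ne'
  refine ((((((H.dm s).log h3).div_const 2).fun_sub
    (((((H.dX s).fun_pow 2).fun_add ((H.dY s).fun_pow 2)).log h5).div_const 2)).fun_sub
    ((H.dχ s).const_mul p)).fun_sub ((H.dY s).arctan.const_mul q)).congr_deriv ?_
  unfold hh
  obtain ⟨t, ht⟩ : ∃ t, t = 1 + p * X s + q * Y s := ⟨_, rfl⟩
  rw [← ht] at h4 ⊢
  field_simp
  rw [ht]
  ring

lemma DE (H : Sys a g p q κ T X Y m Z) (s : ℝ) :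
    HasDerivAt (fun s => (1 + Y s ^ 2) / (X s ^ 2 + Y s ^ 2) * (exp (-2 * q * arctan (Y s))
        * exp (-2 * p * ((log (1 + X s) - log (1 - X s)) / 2))))
      (-2 * (exp (-2 * q * arctan (Y s)) * exp (-2 * p * ((log (1 + X s) - log (1 - X s)) / 2)))
        * (a * ((1 - X s) * (1 + X s)) / (X s ^ 2 + Y s ^ 2) - g
          + p * ((-Y s - X s * hh a g p q (X s) (Y s)) / ((1 - X s) * (1 + X s))))) s := by
  have h0 : 1 + Y s ^ 2 ≠ 0 := by positivity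
  have h1 : 1 + X s ≠ 0 := by linarith [H.X1 s]
  have h2 : 1 - X s ≠ 0 := by linarith [H.X2 s]
  have h4 := (H.tpos s).ne'
  have h5 := (H.Qpos s).ne'
  refine (((((H.dY s).fun_pow 2).const_add 1).fun_div
    (((H.dX s).fun_pow 2).fun_add ((H.dY s).fun_pow 2)) h5).fun_mul
    ((((H.dY s).arctan.const_mul (-2 * q)).exp).fun_mul
      (((H.dχ s).const_mul (-2 * p)).exp))).congr_deriv ?_
  generalize exp (-2 * q * arctan (Y s)) = e1
  generalize exp (-2 * p * ((log (1 + X s) - log (1 - X s)) / 2)) = e2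
  unfold hh
  obtain ⟨t, ht⟩ : ∃ t, t = 1 + p * X s + q * Y s := ⟨_, rfl⟩
  rw [← ht] at h4 ⊢
  field_simp
  rw [ht]
  ring

end Sys

end Pool.Agent.Lib.MP_41d825_an
end

-- part Pool.Agent.Lib.MP_41d825_an.Sys2
section

set_option autoImplicit false

namespace Pool.Agent.Lib.MP_41d825_an

open Real

namespace Sys

variable {a g p q κ T : ℝ} {X Y m Z : ℝ → ℝ}

lemma Mpos (H : Sys a g p q κ T X Y m Z) (hq : 0 < q) (s : ℝ) :
    0 < p ^ 2 * (1 - X s ^ 2) + q ^ 2 * (1 + Y s ^ 2) := by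
  have h1 : 0 < (1 - X s) * (1 + X s) := mul_pos (by linarith [H.X2 s]) (by linarith [H.X1 s])
  have h2 : 0 ≤ 1 - X s ^ 2 := by linarith
  positivity

lemma DI (H : Sys a g p q κ T X Y m Z) (hp : 0 < p) (hq : 0 < q) (s : ℝ) :
    HasDerivAt (fun s => 2 * (p ^ 2 + q ^ 2) * m s / ((1 + p * X s + q * Y s)
        * (p ^ 2 * (1 - X s ^ 2) + q ^ 2 * (1 + Y s ^ 2))))
      (Ih (p ^ 2 + q ^ 2) (p * g / q + q * (g + a) / p)
          (p * X s + p * g / q + (q * Y s + q * (g + a) / p)) (1 + p * X s + q * Y s)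
          (p ^ 2 * (1 - X s ^ 2) + q ^ 2 * (1 + Y s ^ 2))
        * (m s * (X s ^ 2 + Y s ^ 2) * p * q / (1 + p * X s + q * Y s) ^ 2)
        + (-2 * (a * (p * X s + q * Y s) + q * X s - p * Y s)) * m s
          / (1 + p * X s + q * Y s) ^ 3) s := by
  have h4 := (H.tpos s).ne'
  have h5 := (H.Mpos hq s).ne'
  have hp' := hp.ne'
  have hq' := hq.ne'
  refine (((H.dm s).const_mul (2 * (p ^ 2 + q ^ 2))).fun_div ((H.dt s).fun_mul (H.dM s))
    (mul_ne_zero h4 h5)).congr_deriv ?_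
  unfold hh Ih
  obtain ⟨t, ht⟩ : ∃ t, t = 1 + p * X s + q * Y s := ⟨_, rfl⟩
  obtain ⟨M, hM⟩ : ∃ M, M = p ^ 2 * (1 - X s ^ 2) + q ^ 2 * (1 + Y s ^ 2) := ⟨_, rfl⟩
  rw [← ht] at h4 ⊢
  rw [← hM] at h5 ⊢
  field_simp
  rw [ht, hM]
  ring

lemma DBs (H : Sys a g p q κ T X Y m Z) (hp : 0 < p) (hq : 0 < q) (s : ℝ) :
    HasDerivAt (fun s => (p ^ 2 + q ^ 2) * m s / (p ^ 2 * (1 - X s ^ 2) + q ^ 2 * (1 + Y s ^ 2)))
      (-2 * Bs (p ^ 2 + q ^ 2)
          (p * X s + p * g / q + (q * Y s + q * (g + a) / p)) (1 + p * X s + q * Y s)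
          (p ^ 2 * (1 - X s ^ 2) + q ^ 2 * (1 + Y s ^ 2))
        * (m s * (X s ^ 2 + Y s ^ 2) * p * q / (1 + p * X s + q * Y s) ^ 2)) s := by
  have h4 := (H.tpos s).ne'
  have h5 := (H.Mpos hq s).ne'
  have hp' := hp.ne'
  have hq' := hq.ne'
  refine (((H.dm s).const_mul (p ^ 2 + q ^ 2)).fun_div (H.dM s) h5).congr_deriv ?_
  unfold hh Bs
  obtain ⟨t, ht⟩ : ∃ t, t = 1 + p * X s + q * Y s := ⟨_, rfl⟩
  obtain ⟨M, hM⟩ : ∃ M, M = p ^ 2 * (1 - X s ^ 2) + q ^ 2 * (1 + Y s ^ 2) := ⟨_, rfl⟩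
  rw [← ht] at h4 ⊢
  rw [← hM] at h5 ⊢
  field_simp
  rw [ht, hM]
  ring

lemma DB3 (H : Sys a g p q κ T X Y m Z) (hp : 0 < p) (hq : 0 < q) (s : ℝ) :
    HasDerivAt (fun s => m s / (1 + Y s ^ 2))
      (-2 * B3 (q ^ 2) (q * Y s + q * (g + a) / p) (1 + p * X s + q * Y s) (q ^ 2 + (q * Y s) ^ 2)
        * (m s * (X s ^ 2 + Y s ^ 2) * p * q / (1 + p * X s + q * Y s) ^ 2)) s := by
  have h4 := (H.tpos s).ne'
  have h5 : 1 + Y s ^ 2 ≠ 0 := by positivity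
  have hp' := hp.ne'
  have hq' := hq.ne'
  refine ((H.dm s).fun_div (((H.dY s).fun_pow 2).const_add 1) h5).congr_deriv ?_
  have e : q ^ 2 + (q * Y s) ^ 2 = q ^ 2 * (1 + Y s ^ 2) := by ring
  rw [e]
  unfold hh B3
  obtain ⟨t, ht⟩ : ∃ t, t = 1 + p * X s + q * Y s := ⟨_, rfl⟩
  rw [← ht] at h4 ⊢
  field_simp
  rw [ht]
  ring

lemma DL (H : Sys a g p q κ T X Y m Z) (hp : 0 < p) (hq : 0 < q) (s : ℝ) :
    HasDerivAt (fun s => m s / (1 + p * X s + q * Y s)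
        * ((p * X s + p * g / q) / (1 - X s ^ 2) + (q * Y s + q * (g + a) / p) / (1 + Y s ^ 2)))
      (-Eh (p ^ 2) (q ^ 2) (p * g / q) (q * (g + a) / p) (p * X s + p * g / q)
          (q * Y s + q * (g + a) / p) (1 + p * X s + q * Y s) (p ^ 2 - (p * X s) ^ 2)
          (q ^ 2 + (q * Y s) ^ 2)
        * (m s * (X s ^ 2 + Y s ^ 2) * p * q / (1 + p * X s + q * Y s) ^ 2)
        - (1 - (p * g / q + q * (g + a) / p)) / 2
          * ((-2 * (a * (p * X s + q * Y s) + q * X s - p * Y s)) * m s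
            / (1 + p * X s + q * Y s) ^ 3)) s := by
  have h4 := (H.tpos s).ne'
  have h5 : 1 + Y s ^ 2 ≠ 0 := by positivity
  have h6 : 1 - X s ^ 2 ≠ 0 := by
    have h1 : 0 < (1 - X s) * (1 + X s) := mul_pos (by linarith [H.X2 s]) (by linarith [H.X1 s])
    linarith
  have hp' := hp.ne'
  have hq' := hq.ne'
  refine (((H.dm s).fun_div (H.dt s) h4).fun_mul
    (((((H.dX s).const_mul p).add_const (p * g / q)).fun_div
      (((H.dX s).fun_pow 2).const_sub 1) h6).fun_add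
    ((((H.dY s).const_mul q).add_const (q * (g + a) / p)).fun_div
      (((H.dY s).fun_pow 2).const_add 1) h5))).congr_deriv ?_
  have e : q ^ 2 + (q * Y s) ^ 2 = q ^ 2 * (1 + Y s ^ 2) := by ring
  have e' : p ^ 2 - (p * X s) ^ 2 = p ^ 2 * (1 - X s ^ 2) := by ring
  rw [e, e']
  unfold hh Eh
  obtain ⟨t, ht⟩ : ∃ t, t = 1 + p * X s + q * Y s := ⟨_, rfl⟩
  rw [← ht] at h4 ⊢
  field_simp
  rw [ht]
  ring

end Sys

end Pool.Agent.Lib.MP_41d825_an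
end

-- part Pool.Agent.Lib.MP_41d825_an.Core
section

set_option autoImplicit false

namespace Pool.Agent.Lib.MP_41d825_an

open Real Set

namespace Sys

variable {a g p q κ T : ℝ} {X Y m Z : ℝ → ℝ}

lemma XX (H : Sys a g p q κ T X Y m Z) (s : ℝ) : 0 < (1 - X s) * (1 + X s) :=
  mul_pos (by linarith [H.X2 s]) (by linarith [H.X1 s])

lemma zero1 (H : Sys a g p q κ T X Y m Z) : ∃ s, g + q * X s = 0 := by
  obtain ⟨s, hs⟩ := rolle H.hT H.D1 (by simp only [H.pX, H.pm])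
  refine ⟨s, ?_⟩
  have h1 := (H.XX s).ne'
  have h2 := (H.tpos s).ne'
  have h3 := (H.Qpos s).ne'
  rw [div_eq_zero_iff] at hs
  rcases hs with hs | hs
  · simpa [h3] using hs
  · exact absurd hs (mul_ne_zero h2 h1)

lemma zero3 (H : Sys a g p q κ T X Y m Z) : ∃ s, g + a + p * Y s = 0 := by
  obtain ⟨s, hs⟩ := rolle H.hT H.D3 (by simp only [H.pY, H.pm])
  refine ⟨s, ?_⟩
  have h1 : 1 + Y s ^ 2 ≠ 0 := by positivity
  have h2 := (H.tpos s).ne'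
  have h3 := (H.Qpos s).ne'
  rw [div_eq_zero_iff] at hs
  rcases hs with hs | hs
  · simpa [h3] using hs
  · exact absurd hs (mul_ne_zero h2 h1)

lemma zeros (H : Sys a g p q κ T X Y m Z) (hq : 0 < q) :
    ∃ s, p ^ 2 * (g + q * X s) + q ^ 2 * (g + a + p * Y s) = 0 := by
  obtain ⟨s, hs⟩ := rolle H.hT (fun s => H.Ds s (H.Mpos hq s).ne')
    (by simp only [H.pX, H.pY, H.pm])
  refine ⟨s, ?_⟩
  have h1 := (H.Mpos hq s).ne'
  have h2 := (H.tpos s).ne'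
  have h3 := (H.Qpos s).ne'
  rw [div_eq_zero_iff] at hs
  rcases hs with hs | hs
  · simpa [h3] using hs
  · exact absurd hs (mul_ne_zero h2 h1)

lemma pq_pos (H : Sys a g p q κ T X Y m Z) (ha : 0 < a) : 0 < p * q := by
  by_cases hq : q = 0
  · exfalso
    obtain ⟨s, hs⟩ := H.zero1
    have hg : g = 0 := by simpa [hq] using hs
    obtain ⟨s, hs⟩ := rolle H.hT H.D0 (by simp only [H.pX, H.pY, H.pm])
    simp [hq, hg] at hs
    linarith
  by_cases hp : p = 0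
  · exfalso
    obtain ⟨s, hs⟩ := H.zero3
    have hg : g + a = 0 := by simpa [hp] using hs
    obtain ⟨s, hs⟩ := rolle H.hT H.D0 (by simp only [H.pX, H.pY, H.pm])
    simp [hp, hg] at hs
    linarith
  have hD := fun s => (((H.D0 s).const_mul (p * q)).fun_sub
    ((H.D1 s).const_mul (p ^ 2 * g / 2))).fun_sub ((H.D3 s).const_mul (q ^ 2 * (g + a) / 2))
  obtain ⟨s, hs⟩ := rolle H.hT hD (by simp only [H.pX, H.pY, H.pm])
  have h1 := H.XX s
  have h2 := H.tpos s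
  have h3 := H.Qpos s
  have h0 : 0 < 1 + Y s ^ 2 := by positivity
  have e : p * q * a = (X s ^ 2 + Y s ^ 2) * (p ^ 2 * (g + q * X s) ^ 2 / ((1 - X s) * (1 + X s))
      + q ^ 2 * (g + a + p * Y s) ^ 2 / (1 + Y s ^ 2)) / (1 + p * X s + q * Y s) := by
    rw [← sub_eq_zero, ← neg_eq_zero, ← hs]
    generalize (1 - X s) * (1 + X s) = W at *
    generalize 1 + p * X s + q * Y s = t at *
    field_simp
    ring
  have h5 : 0 ≤ p * q * a := by rw [e]; positivity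
  have h6 : 0 ≤ p * q := by
    by_contra hc
    push Not at hc
    nlinarith
  exact lt_of_le_of_ne h6 (mul_ne_zero hp hq).symm

lemma contX (H : Sys a g p q κ T X Y m Z) : Continuous X :=
  continuous_iff_continuousAt.2 fun s => (H.dX s).continuousAt

lemma contY (H : Sys a g p q κ T X Y m Z) : Continuous Y :=
  continuous_iff_continuousAt.2 fun s => (H.dY s).continuousAt

lemma conth (H : Sys a g p q κ T X Y m Z) : Continuous fun s => hh a g p q (X s) (Y s) := by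
  have hX := H.contX
  have hY := H.contY
  unfold hh
  exact Continuous.div (by fun_prop) (by fun_prop) fun s => (H.tpos s).ne'

lemma g_pos (H : Sys a g p q κ T X Y m Z) (ha : 0 < a) (hp : 0 < p) (hq : 0 < q) : 0 < g := by
  by_contra hg
  push Not at hg
  have hX := H.contX
  have hY := H.contY
  have hh' := H.conth
  let f : ℝ → ℝ := fun y => exp (-2 * q * arctan y)
  let f' : ℝ → ℝ := fun y => exp (-2 * q * arctan y) * (-2 * q * (1 / (1 + y ^ 2)))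
  let k : ℝ → ℝ := fun x => exp (-2 * p * ((log (1 + x) - log (1 - x)) / 2))
    * (p / ((1 - x) * (1 + x)))
  let k' : ℝ → ℝ := fun x => k x * ((2 * x - 2 * p) / ((1 - x) * (1 + x)))
  have hf : ∀ y, HasDerivAt f (f' y) y := fun y =>
    ((hasDerivAt_arctan y).const_mul (-2 * q)).exp
  have hf'c : Continuous f' := by
    have : Continuous fun y : ℝ => 1 / (1 + y ^ 2) :=
      Continuous.div (by fun_prop) (by fun_prop) fun y => by positivity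
    have h2 := continuous_arctan
    exact (Real.continuous_exp.comp (h2.const_mul _)).mul (this.const_mul _)
  have hf'0 : ∀ y, f' y ≤ 0 := fun y => by
    have : 0 ≤ exp (-2 * q * arctan y) * (2 * q * (1 / (1 + y ^ 2))) := by positivity
    simp only [f']; linarith
  have hk : ∀ x ∈ Ioo (-1 : ℝ) 1, HasDerivAt k (k' x) x := by
    intro x hx
    have h1 : 1 + x ≠ 0 := by linarith [hx.1]
    have h2 : 1 - x ≠ 0 := by linarith [hx.2]
    refine (((((((hasDerivAt_id' x).const_add 1).log h1).fun_sub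
      (((hasDerivAt_id' x).const_sub 1).log h2)).div_const 2).const_mul (-2 * p)).exp.fun_mul
      ((hasDerivAt_const x p).fun_div (((hasDerivAt_id' x).const_sub 1).fun_mul
        ((hasDerivAt_id' x).const_add 1)) (mul_ne_zero h2 h1))).congr_deriv ?_
    simp only [k', k]
    field_simp
    ring
  have hkc : ContinuousOn k (Ioo (-1 : ℝ) 1) := fun x hx => (hk x hx).continuousAt.continuousWithinAt
  have hk'c : ContinuousOn k' (Ioo (-1 : ℝ) 1) := by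
    refine hkc.mul (ContinuousOn.div (by fun_prop) (by fun_prop) fun x hx => ?_)
    exact (mul_pos (by linarith [hx.2]) (by linarith [hx.1])).ne'
  have hk0 : ∀ x ∈ Ioo (-1 : ℝ) 1, 0 ≤ k x := fun x hx => by
    have : 0 < (1 - x) * (1 + x) := mul_pos (by linarith [hx.2]) (by linarith [hx.1])
    simp only [k]; positivity
  have hXI : ∀ s, X s ∈ Ioo (-1 : ℝ) 1 := fun s => ⟨H.X1 s, H.X2 s⟩
  have hX'c : Continuous fun s => -Y s - X s * hh a g p q (X s) (Y s) :=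
    hY.neg.sub (hX.mul hh')
  have hY'c : Continuous fun s => X s - Y s * hh a g p q (X s) (Y s) := hX.sub (hY.mul hh')
  have hgreen := green T H.hT.le f f' k k' X _ Y _ hf hf'c hf'0 hk hk'c hk0 H.dX hX'c H.dY hY'c
    hXI (fun s => by nlinarith [H.Qpos s]) H.pX H.pY
  have hfc : Continuous f := continuous_iff_continuousAt.2 fun y => (hf y).continuousAt
  have hIc : Continuous fun s => f (Y s) * k (X s) * (-Y s - X s * hh a g p q (X s) (Y s)) :=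
    ((hfc.comp hY).mul (hkc.comp_continuous hX hXI)).mul hX'c
  have hW := fun s => (H.DE s).fun_add
    ((hIc.integral_hasStrictDerivAt 0 s).hasDerivAt.const_mul 2)
  have hanti := strictAnti_of_hasDerivAt_neg hW (fun s => by
    have h1 := H.XX s
    have h3 := H.Qpos s
    have h4 : 0 < a * ((1 - X s) * (1 + X s)) / (X s ^ 2 + Y s ^ 2) - g := by
      have : 0 < a * ((1 - X s) * (1 + X s)) / (X s ^ 2 + Y s ^ 2) := by positivity
      linarith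
    have h5 : 0 < 2 * (exp (-2 * q * arctan (Y s))
        * exp (-2 * p * ((log (1 + X s) - log (1 - X s)) / 2)))
        * (a * ((1 - X s) * (1 + X s)) / (X s ^ 2 + Y s ^ 2) - g) := by positivity
    simp only [f, k]
    refine lt_of_eq_of_lt ?_ (neg_neg_of_pos h5)
    ring)
  have := hanti H.hT
  simp only [H.pX, H.pY, intervalIntegral.integral_same] at this
  linarith

lemma core_pos (H : Sys a g p q κ T X Y m Z) (ha : 0 < a) (hp : 0 < p) (hq : 0 < q) : 0 < κ := by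
  have hg := H.g_pos ha hp hq
  have hgq : g < q := by
    obtain ⟨s, hs⟩ := H.zero1
    nlinarith [H.X1 s]
  have hg1 : 0 < p * g / q := by positivity
  have hg1p : p * g / q < p := by rw [div_lt_iff₀ hq]; nlinarith
  have hg3 : 0 < q * (g + a) / p := by positivity
  have hgg : q ^ 2 * (p * g / q) < p ^ 2 * (q * (g + a) / p) := by
    have e1 : q ^ 2 * (p * g / q) = p * q * g := by field_simp
    have e2 : p ^ 2 * (q * (g + a) / p) = p * q * (g + a) := by field_simp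
    rw [e1, e2]
    have : 0 < p * q * a := by positivity
    linarith
  obtain ⟨θ, hθ⟩ : ∃ θ, θ = 1 - (p * g / q + q * (g + a) / p) := ⟨_, rfl⟩
  have hθ0 : 0 < θ := by
    obtain ⟨s, hs⟩ := H.zeros hq
    have e : 1 + p * X s + q * Y s - θ
        = (p ^ 2 * (g + q * X s) + q ^ 2 * (g + a + p * Y s)) / (p * q) := by
      rw [hθ]; field_simp; ring
    rw [hs, zero_div] at e
    linarith [H.tpos s]
  have hθ1 : θ < 1 := by linarith
  have hξ1 : ∀ s, -p < p * X s := fun s => by nlinarith [H.X1 s]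
  have hξ2 : ∀ s, p * X s < p := fun s => by nlinarith [H.X2 s]
  have hω : ∀ s, 0 < m s * (X s ^ 2 + Y s ^ 2) * p * q / (1 + p * X s + q * Y s) ^ 2 := fun s => by
    have := H.mpos s
    have := H.Qpos s
    have := H.tpos s
    positivity
  by_cases hc : 1 ≤ p ∨ 3 * θ < 2 * p
  · obtain ⟨α, hα⟩ := certA p q θ hp hθ0 hθ1 hc
    have hD := fun s => ((H.dZ s).fun_sub (H.DI hp hq s)).fun_add ((H.DBs hp hq s).const_mul α)
    obtain ⟨s, hs⟩ := rolle H.hT hD (by simp only [H.pX, H.pY, H.pm, H.pZ])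
    have h1 := hα (p * X s) (q * Y s) (1 + p * X s + q * Y s)
      (p ^ 2 * (1 - X s ^ 2) + q ^ 2 * (1 + Y s ^ 2))
      (p * X s + p * g / q + (q * Y s + q * (g + a) / p)) (hξ1 s) (hξ2 s) rfl (H.tpos s)
      (by ring) (by rw [hθ]; ring)
    have e : 1 - θ = p * g / q + q * (g + a) / p := by linarith
    rw [e] at h1
    have h2 := mul_pos h1 (hω s)
    linarith
  · push Not at hc
    obtain ⟨hp1, hθp⟩ := hc
    obtain ⟨τ, hτ⟩ : ∃ τ, τ = p * g / q + q * (g + a) / p := ⟨_, rfl⟩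
    have hτ0 : 0 < τ := by linarith
    obtain ⟨c3, hc3⟩ : ∃ c3, c3 = 2 * (q * (g + a) / p) * (q ^ 2 + (q * (g + a) / p) ^ 2)
      / (q ^ 2 * θ) := ⟨_, rfl⟩
    have hD := fun s => (((((H.dZ s).const_mul (θ / 2 + τ / θ)).fun_add (H.DL hp hq s)).fun_add
      ((H.DB3 hp hq s).const_mul (c3 / 2))).fun_sub ((H.DI hp hq s).const_mul (τ / θ))).fun_add
      ((H.DBs hp hq s).const_mul (τ / θ * (2 / θ)))
    obtain ⟨s, hs⟩ := rolle H.hT hD (by simp only [H.pX, H.pY, H.pm, H.pZ])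
    have h1 := certB p q (p * g / q) (q * (g + a) / p) θ τ (p * X s) (q * Y s)
      (1 + p * X s + q * Y s) _ _ _ _ _ hp hp1 hq hθp hτ (by linarith) hg1 hg1p hg3 hgg
      (hξ1 s) (hξ2 s) rfl (H.tpos s) rfl rfl rfl rfl rfl
    have e : p ^ 2 - (p * X s) ^ 2 + (q ^ 2 + (q * Y s) ^ 2)
        = p ^ 2 * (1 - X s ^ 2) + q ^ 2 * (1 + Y s ^ 2) := by ring
    rw [e, ← hc3] at h1
    rw [← hθ, ← hτ] at hs
    have h2 := mul_pos h1 (hω s)
    have h3 : 0 < (θ / 2 + τ / θ) * (2 * κ) := by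
      have e4 : 4 / θ = 2 * (2 / θ) := by ring
      rw [e4] at h2
      linarith
    have h4 : 0 < θ / 2 + τ / θ := by positivity
    have := (mul_pos_iff_of_pos_left h4).1 h3
    linarith

theorem core (H : Sys a g p q κ T X Y m Z) (ha : 0 < a) : 0 < κ := by
  have h := H.pq_pos ha
  rcases lt_or_gt_of_ne (show p ≠ 0 from fun hp => by simp [hp] at h) with hp | hp
  · have hq : q < 0 := by
      by_contra hc
      push Not at hc
      nlinarith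
    exact H.neg.core_pos ha (by linarith) (by linarith)
  · have hq : 0 < q := (mul_pos_iff_of_pos_left hp).1 h
    exact H.core_pos ha hp hq

end Sys

end Pool.Agent.Lib.MP_41d825_an
end

-- part Pool.Agent.Lib.MP_41d825_an.NF
section

set_option autoImplicit false

namespace Pool.Agent.Lib.MP_41d825_an

open Real Set

lemma exists_nonpos_of_anti {f : ℝ → ℝ} (h : f π = -f 0) : ∃ t, f t ≤ 0 := by
  rcases le_total (f 0) 0 with h0 | h0
  · exact ⟨0, h0⟩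
  · exact ⟨π, by linarith⟩

lemma J_deg {a g₀ : ℝ} (ha : 0 < a) {A B n n' : ℝ → ℝ} (hn : ∀ t, HasDerivAt n (n' t) t)
    (hn'c : Continuous n') (hnp : Function.Periodic n (2 * π)) (hna : n π = -n 0)
    (hA : ∀ t, A t = n t * (a * n t + n' t) - g₀) (hB : ∀ t, B t = -2 * (a * n t + n' t)) :
    JProp a A B := by
  intro u η z κ hu hη hηp hη' _ _
  exfalso
  have hnc := cont_of_der hn
  have huc := hu.cont
  have hV : ∀ t, HasDerivAt (fun t => u t - n t)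
      ((-a * (u t - n t) + n' t) / u t * (u t - n t) + g₀ / u t) t := by
    intro t
    refine ((hu.der t).fun_sub (hn t)).congr_deriv ?_
    have := (hu.pos t).ne'
    unfold G
    rw [hA, hB]
    field_simp
    ring
  have hVpos : ∀ t, 0 < u t - n t := by
    obtain ⟨t₀, ht₀⟩ := exists_nonpos_of_anti hna
    refine pos_of_linear (Continuous.div (by fun_prop) huc fun t => (hu.pos t).ne') hV ?_
      (hu.per.sub hnp) t₀ (by linarith [hu.pos t₀])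
    rcases le_total 0 g₀ with h | h
    · exact Or.inl fun t => div_nonneg h (hu.pos t).le
    · exact Or.inr fun t => div_nonpos_of_nonpos_of_nonneg h (hu.pos t).le
  have hnp0 : n (2 * π) = n 0 := by simpa using hnp 0
  have hpi : 0 < 2 * π := by positivity
  have h1 : ∀ t, HasDerivAt (fun t => log (u t - n t) - (log (η t) + log (u t)) / 2)
      (g₀ / (u t * (u t - n t))) t := by
    intro t
    have h1 := (hu.pos t).ne'
    have h2 := (hVpos t).ne'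
    have h3 := (hη t).ne'
    refine (((hV t).log h2).fun_sub ((((hη' t).log h3).fun_add
      ((hu.der t).log h1)).div_const 2)).congr_deriv ?_
    unfold G
    rw [hA, hB]
    field_simp
    ring
  obtain ⟨s, hs⟩ := rolle hpi h1 (by simp only [hu.per0, hnp0, hηp])
  have hg : g₀ = 0 := by
    rw [div_eq_zero_iff] at hs
    rcases hs with hs | hs
    · exact hs
    · exact absurd hs (mul_pos (hu.pos s) (hVpos s)).ne'
  have h2 : ∀ t, HasDerivAt (fun t => n t / (u t - n t) - log (u t - n t)) a t := by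
    intro t
    have h1 := (hu.pos t).ne'
    have h2 := (hVpos t).ne'
    refine (((hn t).fun_div (hV t) h2).fun_sub ((hV t).log h2)).congr_deriv ?_
    rw [hg]
    field_simp
    ring
  obtain ⟨s, hs⟩ := rolle hpi h2 (by simp only [hu.per0, hnp0])
  linarith

lemma J_nondeg {a g p q : ℝ} (ha : 0 < a) {A B C S : ℝ → ℝ}
    (hC : ∀ t, HasDerivAt C (-S t) t) (hS : ∀ t, HasDerivAt S (C t) t)
    (hCp : Function.Periodic C (2 * π)) (hSp : Function.Periodic S (2 * π))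
    (hCa : C π = -C 0) (hSa : S π = -S 0) {Q : ℝ} (hQ0 : 0 < Q) (hQ : ∀ t, C t ^ 2 + S t ^ 2 = Q)
    (hA : ∀ t, A t = (p * C t + q * S t) * (a * (p * C t + q * S t) + (q * C t - p * S t))
      - a * C t ^ 2 - g * (C t ^ 2 + S t ^ 2) + C t * S t)
    (hB : ∀ t, B t = -2 * (a * (p * C t + q * S t) + (q * C t - p * S t))) :
    JProp a A B := by
  intro u η z κ hu hη hηp hη' hzp hz'
  have hCc := cont_of_der hC
  have hSc := cont_of_der hS
  have huc := hu.cont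
  obtain ⟨V, hVd⟩ : ∃ V : ℝ → ℝ, V = fun t => u t - (p * C t + q * S t) := ⟨_, rfl⟩
  have huV : ∀ t, u t = V t + p * C t + q * S t := fun t => by rw [hVd]; ring
  have hVc : Continuous V := by rw [hVd]; fun_prop
  have hVp : Function.Periodic V (2 * π) := by
    intro t; rw [hVd]; simp only [hu.per t, hCp t, hSp t]
  have hV : ∀ t, HasDerivAt V ((g * (C t ^ 2 + S t ^ 2) - a * (V t ^ 2 - C t ^ 2)
      + (q * C t - p * S t) * V t - C t * S t) / u t) t := by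
    intro t
    have h0 : HasDerivAt V (G a A B t (u t) - (p * -S t + q * C t)) t := by
      rw [hVd]
      exact (hu.der t).fun_sub (((hC t).const_mul p).fun_add ((hS t).const_mul q))
    refine h0.congr_deriv ?_
    have := (hu.pos t).ne'
    unfold G
    rw [hA, hB]
    field_simp
    rw [huV]
    ring
  have hv : ∀ σ : ℝ, σ ^ 2 = 1 → ∀ t, 0 < V t - σ * C t := by
    intro σ hσ
    have hd : ∀ t, HasDerivAt (fun t => V t - σ * C t)
        ((-a * (V t + σ * C t) + (q * C t - p * S t) + σ * S t) / u t * (V t - σ * C t)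
          + (g + σ * q) * Q / u t) t := by
      intro t
      refine ((hV t).fun_sub ((hC t).const_mul σ)).congr_deriv ?_
      have := (hu.pos t).ne'
      rw [← hQ t]
      field_simp
      rw [huV]
      linear_combination (-(a * C t ^ 2) + C t * S t) * hσ
    obtain ⟨t₀, ht₀⟩ := exists_nonpos_of_anti (f := fun t => p * C t + q * S t + σ * C t)
      (by simp only [hCa, hSa]; ring)
    refine pos_of_linear (Continuous.div (by fun_prop) huc fun t => (hu.pos t).ne') hd ?_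
      (fun t => by simp only [hVp t, hCp t]) t₀ (by linarith [hu.pos t₀, huV t₀])
    rcases le_total 0 (g + σ * q) with h | h
    · exact Or.inl fun t => div_nonneg (mul_nonneg h hQ0.le) (hu.pos t).le
    · exact Or.inr fun t =>
        div_nonpos_of_nonpos_of_nonneg (mul_nonpos_of_nonpos_of_nonneg h hQ0.le) (hu.pos t).le
  have hv1 : ∀ t, 0 < V t - C t := fun t => by simpa using hv 1 (by norm_num) t
  have hv2 : ∀ t, 0 < V t + C t := fun t => by simpa using hv (-1) (by norm_num) t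
  have hV0 : ∀ t, 0 < V t := fun t => by linarith [hv1 t, hv2 t]
  have ht : ∀ t, 1 + p * (C t / V t) + q * (S t / V t) = u t / V t := fun t => by
    have := (hV0 t).ne'
    rw [huV]; field_simp
  have hCp0 : C (2 * π) = C 0 := by simpa using hCp 0
  have hSp0 : S (2 * π) = S 0 := by simpa using hSp 0
  have hVp0 : V (2 * π) = V 0 := by simpa using hVp 0
  have H : Sys a g p q κ (2 * π) (fun t => C t / V t) (fun t => S t / V t)
      (fun t => η t * u t / V t ^ 2) (fun t => 2 * z t + η t / u t) := by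
    refine ⟨by positivity, fun t => ?_, fun t => ?_, fun t => ?_, fun t => ?_, fun t => ?_,
      fun t => ?_, fun t => ?_, fun t => ?_, fun t => ?_, ?_, ?_, ?_, ?_⟩
    · rw [lt_div_iff₀ (hV0 t)]; linarith [hv2 t]
    · rw [div_lt_iff₀ (hV0 t)]; linarith [hv1 t]
    · rw [ht]; exact div_pos (hu.pos t) (hV0 t)
    · have := hη t
      have := hu.pos t
      have := hV0 t
      positivity
    · have h1 := hV0 t
      have : (C t / V t) ^ 2 + (S t / V t) ^ 2 = (C t ^ 2 + S t ^ 2) / V t ^ 2 := by field_simp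
      rw [this, hQ]; positivity
    · have h1 := (hV0 t).ne'
      have h2 := (hu.pos t).ne'
      refine ((hC t).fun_div (hV t) h1).congr_deriv ?_
      unfold hh
      rw [ht]
      field_simp
      ring
    · have h1 := (hV0 t).ne'
      have h2 := (hu.pos t).ne'
      refine ((hS t).fun_div (hV t) h1).congr_deriv ?_
      unfold hh
      rw [ht]
      field_simp
      ring
    · have h1 := (hV0 t).ne'
      have h2 := (hu.pos t).ne'
      refine (((hη' t).fun_mul (hu.der t)).fun_div ((hV t).fun_pow 2)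
        (pow_ne_zero 2 h1)).congr_deriv ?_
      rw [ht]
      unfold G
      rw [hA, hB]
      field_simp
      rw [huV]
      ring
    · have h1 := (hV0 t).ne'
      have h2 := (hu.pos t).ne'
      refine (((hz' t).const_mul 2).fun_add ((hη' t).fun_div (hu.der t) h2)).congr_deriv ?_
      rw [ht]
      unfold G
      rw [hB]
      field_simp
      ring
    · simp only [hCp0, hVp0]
    · simp only [hSp0, hVp0]
    · simp only [hηp, hu.per0, hVp0]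
    · simp only [hηp, hu.per0, hzp]
  exact H.core ha

noncomputable def Aq (d e f : ℝ) (t : ℝ) : ℝ := d * cos t ^ 2 + e * (cos t * sin t) + f * sin t ^ 2
noncomputable def Bq (b c : ℝ) (t : ℝ) : ℝ := b * cos t + c * sin t

lemma exists_sqrt (x y : ℝ) : ∃ l₁ l₂ : ℝ, l₁ ^ 2 - l₂ ^ 2 = x ∧ 2 * l₁ * l₂ = y := by
  obtain ⟨z, hz⟩ := IsAlgClosed.exists_pow_nat_eq (⟨x, y⟩ : ℂ) (n := 2) (by norm_num)
  refine ⟨z.re, z.im, ?_, ?_⟩
  · have := congrArg Complex.re hz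
    simp [pow_two] at this
    linarith
  · have := congrArg Complex.im hz
    simp [pow_two] at this
    linarith

theorem lemmaJ {a : ℝ} (ha : 0 < a) (b c d e f : ℝ) : JProp a (Aq d e f) (Bq b c) := by
  have h1a : 1 + a ^ 2 ≠ 0 := by positivity
  obtain ⟨p₀, hp₀⟩ : ∃ p₀, p₀ = (-a * b + c) / (2 * (1 + a ^ 2)) := ⟨_, rfl⟩
  obtain ⟨q₀, hq₀⟩ : ∃ q₀, q₀ = (-b - a * c) / (2 * (1 + a ^ 2)) := ⟨_, rfl⟩
  have hb : b = -2 * (a * p₀ + q₀) := by rw [hp₀, hq₀]; field_simp; ring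
  have hc : c = -2 * (a * q₀ - p₀) := by rw [hp₀, hq₀]; field_simp; ring
  obtain ⟨r₁, hr₁⟩ : ∃ r₁, r₁ = d - p₀ * (a * p₀ + q₀) := ⟨_, rfl⟩
  obtain ⟨r₃, hr₃⟩ : ∃ r₃, r₃ = f - q₀ * (a * q₀ - p₀) := ⟨_, rfl⟩
  obtain ⟨r₂, hr₂⟩ : ∃ r₂, r₂ = e - p₀ * (a * q₀ - p₀) - q₀ * (a * p₀ + q₀) := ⟨_, rfl⟩
  obtain ⟨l₁, l₂, hl₁, hl₂⟩ := exists_sqrt ((r₂ - a * (r₁ - r₃)) / (1 + a ^ 2))
    ((r₁ - r₃ + a * r₂) / (1 + a ^ 2))
  have e1 : -a * (l₁ ^ 2 - l₂ ^ 2) + 2 * l₁ * l₂ = r₁ - r₃ := by rw [hl₁, hl₂]; field_simp; ring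
  have e2 : a * (2 * l₁ * l₂) + (l₁ ^ 2 - l₂ ^ 2) = r₂ := by rw [hl₁, hl₂]; field_simp; ring
  obtain ⟨G₀, hG₀⟩ : ∃ G₀, G₀ = -a * l₁ ^ 2 + l₁ * l₂ - r₁ := ⟨_, rfl⟩
  have hd : d = p₀ * (a * p₀ + q₀) - a * l₁ ^ 2 + l₁ * l₂ - G₀ := by linarith
  have hf : f = q₀ * (a * q₀ - p₀) - a * l₂ ^ 2 - l₁ * l₂ - G₀ := by linarith
  have he : e = p₀ * (a * q₀ - p₀) + q₀ * (a * p₀ + q₀) + a * (2 * l₁ * l₂) + (l₁ ^ 2 - l₂ ^ 2) := by
    linarith
  by_cases hQ : l₁ ^ 2 + l₂ ^ 2 = 0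
  · have h1 : l₁ = 0 := by nlinarith [sq_nonneg l₁, sq_nonneg l₂]
    have h2 : l₂ = 0 := by nlinarith [sq_nonneg l₁, sq_nonneg l₂]
    refine J_deg (g₀ := G₀) ha (n := fun t => p₀ * cos t + q₀ * sin t)
      (n' := fun t => p₀ * -sin t + q₀ * cos t)
      (fun t => ((hasDerivAt_cos t).const_mul p₀).fun_add ((hasDerivAt_sin t).const_mul q₀))
      (by fun_prop) (fun t => by simp) (by simp) (fun t => ?_) (fun t => ?_)
    · unfold Aq
      rw [hd, he, hf, h1, h2]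
      linear_combination (-G₀) * cos_sq_add_sin_sq t
    · unfold Bq
      rw [hb, hc]; ring
  · have hQ0 : 0 < l₁ ^ 2 + l₂ ^ 2 := lt_of_le_of_ne (by positivity) (Ne.symm hQ)
    obtain ⟨p, hp⟩ : ∃ p, p = (p₀ * l₁ - q₀ * l₂) / (l₁ ^ 2 + l₂ ^ 2) := ⟨_, rfl⟩
    obtain ⟨q, hq⟩ : ∃ q, q = (p₀ * l₂ + q₀ * l₁) / (l₁ ^ 2 + l₂ ^ 2) := ⟨_, rfl⟩
    obtain ⟨g, hg⟩ : ∃ g, g = G₀ / (l₁ ^ 2 + l₂ ^ 2) := ⟨_, rfl⟩
    have f1 : p₀ = p * l₁ + q * l₂ := by rw [hp, hq]; field_simp; ring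
    have f2 : q₀ = -p * l₂ + q * l₁ := by rw [hp, hq]; field_simp; ring
    have f3 : G₀ = g * (l₁ ^ 2 + l₂ ^ 2) := by rw [hg]; field_simp
    refine J_nondeg (g := g) (p := p) (q := q) ha (C := fun t => l₁ * cos t - l₂ * sin t)
      (S := fun t => l₁ * sin t + l₂ * cos t) (fun t => ?_) (fun t => ?_) (fun t => by simp)
      (fun t => by simp) (by simp) (by simp) hQ0 (fun t => ?_) (fun t => ?_) (fun t => ?_)
    · exact (((hasDerivAt_cos t).const_mul l₁).fun_sub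
        ((hasDerivAt_sin t).const_mul l₂)).congr_deriv (by ring)
    · exact (((hasDerivAt_sin t).const_mul l₁).fun_add
        ((hasDerivAt_cos t).const_mul l₂)).congr_deriv (by ring)
    · linear_combination (l₁ ^ 2 + l₂ ^ 2) * cos_sq_add_sin_sq t
    · unfold Aq
      rw [hd, he, hf, f1, f2, f3]
      ring
    · unfold Bq
      rw [hb, hc, f1, f2]
      ring

end Pool.Agent.Lib.MP_41d825_an
end
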