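import Mathlib
import Pool.Agent.Lib.MP_41d825_an.Three
import Pool.Agent.Lib.MP_41d825_an.NF

-- part Pool.Agent.Lib.MP_41d825_an.Zero
section

set_option autoImplicit false

namespace Pool.Agent.Lib.MP_41d825_an

open Real Set Filter Topology

lemma Aq_cont (d e f : ℝ) : Continuous (Aq d e f) := by unfold Aq; fun_prop
lemma Bq_cont (b c : ℝ) : Continuous (Bq b c) := by unfold Bq; fun_prop
lemma Aq_per (d e f : ℝ) : Function.Periodic (Aq d e f) (2 * π) := fun t => by simp [Aq]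
lemma Bq_per (b c : ℝ) : Function.Periodic (Bq b c) (2 * π) := fun t => by simp [Bq]

theorem no_three_pos {a : ℝ} (ha : 0 < a) (b c d e f : ℝ) {u v w : ℝ → ℝ}
    (hu : PerSol a (Aq d e f) (Bq b c) u) (hv : PerSol a (Aq d e f) (Bq b c) v)
    (hw : PerSol a (Aq d e f) (Bq b c) w) : u = v ∨ u = w ∨ v = w := by
  refine no_three_of_ord (Aq_cont d e f) (PerSol a (Aq d e f) (Bq b c)) (fun _ h => h)
    (fun u₁ u₂ u₃ h₁ h₂ h₃ h12 h23 => no_three_ord (Aq_cont d e f) (Bq_cont b c) (Aq_per d e f)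
      (Bq_per b c) (fun γ => ?_) h₁ h₂ h₃ h12 h23) hu hv hw
  have : (fun t => Aq d e f t - γ) = Aq (d - γ) e (f - γ) := by
    funext t
    unfold Aq
    linear_combination γ * cos_sq_add_sin_sq t
  rw [this]
  exact lemmaJ ha _ _ _ _ _

theorem no_three_ne {a : ℝ} (ha : a ≠ 0) (b c d e f : ℝ) {u v w : ℝ → ℝ}
    (hu : PerSol a (Aq d e f) (Bq b c) u) (hv : PerSol a (Aq d e f) (Bq b c) v)
    (hw : PerSol a (Aq d e f) (Bq b c) w) : u = v ∨ u = w ∨ v = w := by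
  rcases lt_or_gt_of_ne ha with ha | ha
  · have e1 : (fun t => -Aq d e f (2 * π - t)) = Aq (-d) e (-f) := by
      funext t; simp [Aq]; ring
    have e2 : (fun t => -Bq b c (2 * π - t)) = Bq (-b) c := by
      funext t; simp [Bq]; ring
    have hu' := hu.rev
    have hv' := hv.rev
    have hw' := hw.rev
    rw [e1, e2] at hu' hv' hw'
    have inj : ∀ x y : ℝ → ℝ, ((fun t => x (2 * π - t)) = fun t => y (2 * π - t)) → x = y := by
      intro x y h
      funext t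
      simpa using congrFun h (2 * π - t)
    rcases no_three_pos (by linarith) _ _ _ _ _ hu' hv' hw' with h | h | h
    · exact Or.inl (inj _ _ h)
    · exact Or.inr (Or.inl (inj _ _ h))
    · exact Or.inr (Or.inr (inj _ _ h))
  · exact no_three_pos ha _ _ _ _ _ hu hv hw

/-- Isolated periodic solutions. -/
def Iso (a : ℝ) (A B u : ℝ → ℝ) : Prop :=
  ∃ ε, 0 < ε ∧ ∀ w, PerSol a A B w → (∀ t ∈ Icc (0 : ℝ) (2 * π), |w t - u t| < ε) → w = u

lemma near_bar {a : ℝ} {A B u : ℝ → ℝ} (hA : Continuous A) (hB : Continuous B)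
    (hAp : Function.Periodic A (2 * π)) (hBp : Function.Periodic B (2 * π))
    (hu : PerSol a A B u) (hi : Iso a A B u) {x₁ : ℝ} (hx₁ : u 0 < x₁) :
    ∃ s β β', (s = 1 ∨ s = -1) ∧ Bar s a A B β β' ∧ u 0 < β 0 ∧ β 0 < x₁ := by
  obtain ⟨ε, hε, hiso⟩ := hi
  obtain ⟨l, h, hl, H⟩ := exists_lohi hu.cont.continuousOn fun t _ => hu.pos t
  have hlo : 0 < l / 2 := by positivity
  have hlh : l / 2 ≤ h + 1 := by linarith [(H 0 mem0).1, (H 0 mem0).2]
  obtain ⟨K, hK, hK'⟩ := sol_dist a (hi := h + 1) (B := B) hA hlo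
  obtain ⟨r, hr⟩ : ∃ r, r = min (min ε (l / 2)) 1 := ⟨_, rfl⟩
  have hr0 : 0 < r := by rw [hr]; positivity
  have hr1 : r ≤ ε := by rw [hr]; exact le_trans (min_le_left _ _) (min_le_left _ _)
  have hr2 : r ≤ l / 2 := by rw [hr]; exact le_trans (min_le_left _ _) (min_le_right _ _)
  have hr3 : r ≤ 1 := by rw [hr]; exact min_le_right _ _
  obtain ⟨y, hy⟩ : ∃ y, y = min (r / (2 * K)) ((x₁ - u 0) / 2) := ⟨_, rfl⟩
  have hy0 : 0 < y := by
    rw [hy]; exact lt_min (by positivity) (by linarith)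
  have hy1 : K * y < r := by
    have : y ≤ r / (2 * K) := by rw [hy]; exact min_le_left _ _
    rw [le_div_iff₀ (by positivity)] at this
    nlinarith
  have hy2 : y ≤ (x₁ - u 0) / 2 := by rw [hy]; exact min_le_right _ _
  obtain ⟨ρ, hρ0, hρ⟩ := exists_sol a hA hB hlo hlh (u 0 + y)
  have hud : DerI u fun t => G a (fun t => A t - 0) B t (cl (l / 2) (h + 1) (u t)) := by
    intro t ht
    simp only [sub_zero]
    rw [cl_eq (by linarith [(H t ht).1]) (by linarith [(H t ht).2])]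
    exact (hu.der t).hasDerivWithinAt
  have hclose : ∀ t ∈ Icc (0 : ℝ) (2 * π), |ρ t - u t| < r := by
    intro t ht
    have := hK' 0 ρ u hρ hud t ht
    rw [hρ0, add_sub_cancel_left, abs_zero, add_zero, abs_of_pos hy0] at this
    linarith
  have hb : ∀ t ∈ Icc (0 : ℝ) (2 * π), l / 2 ≤ ρ t ∧ ρ t ≤ h + 1 := fun t ht => by
    have := abs_lt.1 (hclose t ht)
    constructor <;> linarith [(H t ht).1, (H t ht).2]
  have hρpos : ∀ t ∈ Icc (0 : ℝ) (2 * π), 0 < ρ t := fun t ht => lt_of_lt_of_le hlo (hb t ht).1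
  have hρ' : DerI ρ fun t => G a A B t (ρ t) := fun t ht => by
    have := hρ t ht
    simp only [cl_eq (hb t ht).1 (hb t ht).2] at this
    exact this
  have hne : ρ (2 * π) ≠ ρ 0 := by
    intro hp
    obtain ⟨w, hw, e⟩ := extend_sol hA hB hAp hBp hρpos hρ' hp
    have := hiso w hw fun t ht => by rw [e t ht]; exact lt_of_lt_of_le (hclose t ht) hr1
    have h2 := e 0 mem0
    rw [this, hρ0] at h2
    linarith
  obtain ⟨s, hs, hs'⟩ : ∃ s : ℝ, (s = 1 ∨ s = -1) ∧ 0 < s * (ρ 0 - ρ (2 * π)) := by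
    rcases lt_or_gt_of_ne hne with h | h
    · exact ⟨1, Or.inl rfl, by linarith⟩
    · exact ⟨-1, Or.inr rfl, by linarith⟩
  have hs2 : s ^ 2 = 1 := by rcases hs with h | h <;> simp [h]
  obtain ⟨M, hM0, hM⟩ := exists_bound hA
  obtain ⟨L, hL⟩ : ∃ L, L = -a + (M + 1) / (l / 2) ^ 2 := ⟨_, rfl⟩
  have hE : Continuous fun t : ℝ => exp (L * t) := by fun_prop
  have e1 := ev_lin (R₀ := ρ) (R₁ := fun t => s * exp (L * t)) 0 hρ.cont
    (hE.const_mul s).continuousOn hρpos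
  have e2 := ev_lin (R₀ := fun t => (L + a) * ρ t ^ 2 - A t)
    (R₁ := fun t => (L + a) * ρ t * (s * exp (L * t))) 0
    ((continuousOn_const.mul (hρ.cont.pow 2)).sub hA.continuousOn)
    ((continuousOn_const.mul hρ.cont).mul (hE.const_mul s).continuousOn) (fun t ht => by
      have g1 : (l / 2) ^ 2 ≤ ρ t ^ 2 := pow_le_pow_left₀ hlo.le (hb t ht).1 2
      have g2 : L + a = (M + 1) / (l / 2) ^ 2 := by rw [hL]; ring
      have g3 : M + 1 ≤ (M + 1) / (l / 2) ^ 2 * ρ t ^ 2 := by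
        rw [div_mul_eq_mul_div, le_div_iff₀ (by positivity)]
        exact mul_le_mul_of_nonneg_left g1 (by positivity)
      have g4 := le_trans (le_abs_self _) (hM t ht)
      rw [g2]; linarith)
  have e3 := ev_lin (R₀ := fun _ => s * (ρ 0 - ρ (2 * π)))
    (R₁ := fun _ => 1 - exp (L * (2 * π))) 0 continuousOn_const continuousOn_const fun _ _ => hs'
  have e4 := ev_lin (R₀ := fun _ => ρ 0 - u 0) (R₁ := fun _ => s) 0 continuousOn_const
    continuousOn_const fun _ _ => by linarith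
  have e5 := ev_lin (R₀ := fun _ => x₁ - ρ 0) (R₁ := fun _ => -s) 0 continuousOn_const
    continuousOn_const fun _ _ => by linarith
  obtain ⟨δ, hδ, ⟨⟨⟨f1, f2⟩, f3⟩, f4⟩, f5⟩ := exists_gt_of_ev ((((e1.and e2).and e3).and e4).and e5)
  simp only [sub_zero] at f1 f2 f3 f4 f5
  refine ⟨s, fun t => ρ t + δ * (s * exp (L * t)),
    fun t => G a A B t (ρ t) + δ * (s * (exp (L * t) * L)), hs,
    ⟨f1, fun t ht => ?_, ?_, fun t ht => ?_, ?_⟩, ?_, ?_⟩
  · have : HasDerivAt (fun t => exp (L * t)) (exp (L * t) * L) t := by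
      simpa using ((hasDerivAt_id' t).const_mul L).exp
    exact (hρ' t ht).fun_add ((this.const_mul s).const_mul δ).hasDerivWithinAt
  · exact (G_contOn hA hB hρ.cont hρpos).add (Continuous.continuousOn (by fun_prop))
  · have g1 := f1 t ht
    have g2 := f2 t ht
    have g3 := hρpos t ht
    have g4 := div_pos (mul_pos (mul_pos hδ (exp_pos (L * t))) g2) (mul_pos g3 g1)
    refine lt_of_lt_of_eq g4 ?_
    unfold G
    obtain ⟨b, hb⟩ : ∃ b, b = ρ t + δ * (s * exp (L * t)) := ⟨_, rfl⟩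
    rw [← hb] at g1 ⊢
    field_simp
    rw [hb]
    rcases hs with h | h <;> rw [h] <;> ring
  · have := f3 0 mem0
    simp only [mul_zero, exp_zero]
    nlinarith
  · simpa using (by linarith [f4 0 mem0] : u 0 < ρ 0 + δ * s)
  · simpa using (by linarith [f5 0 mem0] : ρ 0 + δ * s < x₁)

lemma PerSol.bar {A B u : ℝ → ℝ} (hA : Continuous A) (hB : Continuous B)
    (hu : PerSol 0 A B u) {s a : ℝ} (h : 0 < s * a) :
    Bar s a A B u fun t => G 0 A B t (u t) := by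
  refine ⟨fun t _ => hu.pos t, DerI.of hu.der,
    G_contOn hA hB hu.cont.continuousOn fun t _ => hu.pos t, fun t _ => ?_, by simp [hu.per0]⟩
  refine lt_of_lt_of_eq (mul_pos h (hu.pos t)) ?_
  unfold G; ring

lemma same_sign_false {A B u v β β' σ σ' : ℝ → ℝ} {s : ℝ} (hA : Continuous A) (hB : Continuous B)
    (hAp : Function.Periodic A (2 * π)) (hBp : Function.Periodic B (2 * π))
    (H : ∀ a, a ≠ 0 → ∀ u v w, PerSol a A B u → PerSol a A B v → PerSol a A B w →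
      u = v ∨ u = w ∨ v = w)
    (hu : PerSol 0 A B u) (hv : PerSol 0 A B v) (hs : s = 1 ∨ s = -1)
    (hβ : Bar s 0 A B β β') (hσ : Bar s 0 A B σ σ') (h1 : u 0 < β 0) (h2 : β 0 < v 0)
    (h3 : v 0 < σ 0) : False := by
  have hev := (hβ.ev_a hA hB).and (hσ.ev_a hA hB)
  have ht : Tendsto (fun r : ℝ => -s * r) (𝓝 0) (𝓝 0) := by
    simpa using (continuous_const_mul (-s)).tendsto 0
  obtain ⟨r, hr, hβa, hσa⟩ := exists_gt_of_ev (ht.eventually hev)
  have hs2 : 0 < -s * (-s * r) := by rcases hs with h | h <;> simp [h, hr]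
  have hua := hu.bar hA hB hs2
  have hva := hv.bar hA hB hs2
  have ha : -s * r ≠ 0 := fun h => by simp [h] at hs2
  have fin : ∀ w₁ w₂ w₃, PerSol (-s * r) A B w₁ → PerSol (-s * r) A B w₂ → PerSol (-s * r) A B w₃ →
      (∀ t ∈ Icc (0 : ℝ) (2 * π), u t ≤ w₁ t ∧ w₁ t ≤ β t) →
      (∀ t ∈ Icc (0 : ℝ) (2 * π), β t ≤ w₂ t ∧ w₂ t ≤ v t) →
      (∀ t ∈ Icc (0 : ℝ) (2 * π), v t ≤ w₃ t ∧ w₃ t ≤ σ t) → False := by
    intro w₁ w₂ w₃ g₁ g₂ g₃ e₁ e₂ e₃
    rcases H _ ha w₁ w₂ w₃ g₁ g₂ g₃ with h | h | h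
    · subst h
      exact hβa.ne_sol g₁ fun t ht => le_antisymm (e₁ t ht).2 (e₂ t ht).1
    · subst h
      exact hβa.ne_sol g₁ fun t ht => le_antisymm (e₁ t ht).2
        (le_trans (e₂ t ht).1 (le_trans (e₂ t ht).2 (e₃ t ht).1))
    · subst h
      exact hva.ne_sol g₂ fun t ht => le_antisymm (e₂ t ht).2 (e₃ t ht).1
  have m1 := hβ.mono
  have m2 := hσ.mono
  rcases hs with h | h
  · subst h
    obtain ⟨w₁, g₁, e₁⟩ := E1 hA hB hAp hBp hua hβa h1.le
    obtain ⟨w₂, g₂, e₂⟩ := E2 hA hB hAp hBp hβa hva (by rw [hv.per0]; linarith)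
    obtain ⟨w₃, g₃, e₃⟩ := E1 hA hB hAp hBp hva hσa h3.le
    exact fin w₁ w₂ w₃ g₁ g₂ g₃ e₁ e₂ e₃
  · subst h
    have hua' : Bar 1 (- -1 * r) A B u fun t => G 0 A B t (u t) := by simpa using hua
    have hva' : Bar 1 (- -1 * r) A B v fun t => G 0 A B t (v t) := by simpa using hva
    obtain ⟨w₁, g₁, e₁⟩ := E2 hA hB hAp hBp hua' hβa (by rw [hu.per0]; linarith)
    obtain ⟨w₂, g₂, e₂⟩ := E1 hA hB hAp hBp hβa hva' h2.le
    obtain ⟨w₃, g₃, e₃⟩ := E2 hA hB hAp hBp hva' hσa (by rw [hv.per0]; linarith)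
    exact fin w₁ w₂ w₃ g₁ g₂ g₃ e₁ e₂ e₃

theorem no_three_iso (a b c d e f : ℝ) {u v w : ℝ → ℝ}
    (hu : PerSol a (Aq d e f) (Bq b c) u ∧ Iso a (Aq d e f) (Bq b c) u)
    (hv : PerSol a (Aq d e f) (Bq b c) v ∧ Iso a (Aq d e f) (Bq b c) v)
    (hw : PerSol a (Aq d e f) (Bq b c) w ∧ Iso a (Aq d e f) (Bq b c) w) :
    u = v ∨ u = w ∨ v = w := by
  by_cases ha : a = 0
  · subst ha
    have hA := Aq_cont d e f
    have hB := Bq_cont b c
    have hAp := Aq_per d e f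
    have hBp := Bq_per b c
    refine no_three_of_ord hA
      (fun u => PerSol 0 (Aq d e f) (Bq b c) u ∧ Iso 0 (Aq d e f) (Bq b c) u) (fun _ h => h.1)
      (fun u₁ u₂ u₃ h₁ h₂ h₃ h12 h23 => ?_) hu hv hw
    have H : ∀ a, a ≠ 0 → ∀ u v w, PerSol a (Aq d e f) (Bq b c) u → PerSol a (Aq d e f) (Bq b c) v →
        PerSol a (Aq d e f) (Bq b c) w → u = v ∨ u = w ∨ v = w :=
      fun a ha u v w => no_three_ne ha b c d e f
    obtain ⟨s₁, β₁, β₁', hs₁, b₁, l₁, r₁⟩ := near_bar hA hB hAp hBp h₁.1 h₁.2 (h12 0)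
    obtain ⟨s₂, β₂, β₂', hs₂, b₂, l₂, r₂⟩ := near_bar hA hB hAp hBp h₂.1 h₂.2 (h23 0)
    obtain ⟨s₃, β₃, β₃', hs₃, b₃, l₃, -⟩ := near_bar hA hB hAp hBp h₃.1 h₃.2 (lt_add_one _)
    by_cases e12 : s₁ = s₂
    · subst e12
      exact same_sign_false hA hB hAp hBp H h₁.1 h₂.1 hs₁ b₁ b₂ l₁ r₁ l₂
    by_cases e23 : s₂ = s₃
    · subst e23
      exact same_sign_false hA hB hAp hBp H h₂.1 h₃.1 hs₂ b₂ b₃ l₂ r₂ l₃
    have e13 : s₁ = s₃ := by
      rcases hs₁ with a1 | a1 <;> rcases hs₂ with a2 | a2 <;> rcases hs₃ with a3 | a3 <;>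
        simp_all
    subst e13
    exact same_sign_false hA hB hAp hBp H h₁.1 h₃.1 hs₁ b₁ b₃ l₁ (r₁.trans (h23 0)) l₃
  · exact no_three_ne ha b c d e f hu.1 hv.1 hw.1

end Pool.Agent.Lib.MP_41d825_an
end

-- part Pool.Agent.Lib.MP_41d825_an.Two
section

set_option autoImplicit false

namespace Pool.Agent.Lib.MP_41d825_an

open Real Set Filter Topology

noncomputable def a0 (t : ℝ) : ℝ := cos t - sin t
noncomputable def a1 (t : ℝ) : ℝ := sin t ^ 2 / 2
noncomputable def a2 (t : ℝ) : ℝ := (cos t ^ 3 + sin t ^ 3) / 3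
noncomputable def a3 (t : ℝ) : ℝ := (sin t ^ 4 - cos t ^ 4) / 4 - sin t ^ 4 / 8
  + sin t * cos t * (cos t ^ 2 - sin t ^ 2) / 4
noncomputable def d0 (t : ℝ) : ℝ := -sin t - cos t
noncomputable def d1 (t : ℝ) : ℝ := sin t * cos t
noncomputable def d2 (t : ℝ) : ℝ := -cos t ^ 2 * sin t + sin t ^ 2 * cos t
noncomputable def d3 (t : ℝ) : ℝ := sin t ^ 3 * cos t / 2 + cos t ^ 3 * sin t
  + (cos t ^ 4 - 6 * cos t ^ 2 * sin t ^ 2 + sin t ^ 4) / 4

lemma da0 (t : ℝ) : HasDerivAt a0 (d0 t) t := (hasDerivAt_cos t).fun_sub (hasDerivAt_sin t)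

lemma da1 (t : ℝ) : HasDerivAt a1 (d1 t) t :=
  (((hasDerivAt_sin t).fun_pow 2).div_const 2).congr_deriv (by unfold d1; ring)

lemma da2 (t : ℝ) : HasDerivAt a2 (d2 t) t :=
  ((((hasDerivAt_cos t).fun_pow 3).fun_add ((hasDerivAt_sin t).fun_pow 3)).div_const 3).congr_deriv
    (by unfold d2; ring)

lemma da3 (t : ℝ) : HasDerivAt a3 (d3 t) t :=
  ((((((hasDerivAt_sin t).fun_pow 4).fun_sub ((hasDerivAt_cos t).fun_pow 4)).div_const 4).fun_sub
    (((hasDerivAt_sin t).fun_pow 4).div_const 8)).fun_add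
    ((((hasDerivAt_sin t).fun_mul (hasDerivAt_cos t)).fun_mul
      (((hasDerivAt_cos t).fun_pow 2).fun_sub ((hasDerivAt_sin t).fun_pow 2))).div_const 4)).congr_deriv
    (by unfold d3; ring)

lemma outer_bar : ∃ d, d < 0 ∧ ∃ α α', Continuous α ∧ Bar 1 0 (Aq d (-1) 0) (Bq 1 1) α α' := by
  have c0 := cont_of_der da0
  have c1 := cont_of_der da1
  have c2 := cont_of_der da2
  have c3 := cont_of_der da3
  have k0 : Continuous d0 := by unfold d0; fun_prop
  have k1 : Continuous d1 := by unfold d1; fun_prop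
  have k2 : Continuous d2 := by unfold d2; fun_prop
  have k3 : Continuous d3 := by unfold d3; fun_prop
  have e1 := ev_pos' (R := fun ε t => 1 + ε * a0 t + ε ^ 2 * a1 t + ε ^ 3 * a2 t + ε ^ 4 * a3 t)
    (x₀ := 0) (by fun_prop) (fun t _ => by simp)
  have e2 := ev_pos' (R := fun ε t => (cos t ^ 2 + sin t ^ 2) ^ 2 / 4 - cos t ^ 2 / 8
      + ε * (a0 t * d3 t + a1 t * d2 t + a2 t * d1 t)
      + ε ^ 2 * (a1 t * d3 t + a2 t * d2 t + a3 t * d1 t)
      + ε ^ 3 * (a2 t * d3 t + a3 t * d2 t) + ε ^ 4 * (a3 t * d3 t))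
    (x₀ := 0) (by fun_prop) (fun t _ => by
      have := cos_sq_le_one t
      rw [cos_sq_add_sin_sq]
      norm_num
      linarith)
  obtain ⟨ε, hε, f1, f2⟩ := exists_gt_of_ev (e1.and e2)
  have hpos : ∀ t ∈ Icc (0 : ℝ) (2 * π),
      0 < 1 / ε + a0 t + ε * a1 t + ε ^ 2 * a2 t + ε ^ 3 * a3 t := fun t ht => by
    refine lt_of_lt_of_eq (div_pos (f1 t ht) hε) ?_
    field_simp
  refine ⟨-ε ^ 2 / 8, by nlinarith [pow_pos hε 2],
    fun t => 1 / ε + a0 t + ε * a1 t + ε ^ 2 * a2 t + ε ^ 3 * a3 t,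
    fun t => d0 t + ε * d1 t + ε ^ 2 * d2 t + ε ^ 3 * d3 t, by fun_prop,
    hpos, DerI.of fun t => ?_, Continuous.continuousOn (by fun_prop), fun t ht => ?_, ?_⟩
  · exact ((((da0 t).const_add (1 / ε)).fun_add ((da1 t).const_mul ε)).fun_add
      ((da2 t).const_mul (ε ^ 2))).fun_add ((da3 t).const_mul (ε ^ 3))
  · have g1 := hpos t ht
    refine lt_of_lt_of_eq (div_pos (mul_pos (pow_pos hε 2) (f2 t ht)) g1) ?_
    unfold G
    obtain ⟨b, hb⟩ : ∃ b, b = 1 / ε + a0 t + ε * a1 t + ε ^ 2 * a2 t + ε ^ 3 * a3 t := ⟨_, rfl⟩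
    rw [← hb] at g1 ⊢
    field_simp
    rw [hb]
    unfold Aq Bq a0 a1 a2 a3 d0 d1 d2 d3
    field_simp
    ring
  · simp [a0, a1, a2, a3]

lemma middle_bar {d : ℝ} (hd : d < 0) {α : ℝ → ℝ} (hα : Continuous α) :
    ∃ β β', Bar (-1) 0 (Aq d (-1) 0) (Bq 1 1) β β' ∧ α (2 * π) < β (2 * π) := by
  have c0 := cont_of_der da0
  have c1 := cont_of_der da1
  have k0 : Continuous d0 := by unfold d0; fun_prop
  have k1 : Continuous d1 := by unfold d1; fun_prop
  have e1 := ev_pos' (R := fun ε t => 1 + ε * a0 t + ε ^ 2 * (a1 t - d / 2 * d1 t))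
    (x₀ := 0) (by fun_prop) (fun t _ => by simp)
  have e2 := ev_pos' (R := fun ε t => 1 + ε * (a0 t - α t) + ε ^ 2 * (a1 t - d / 2 * d1 t))
    (x₀ := 0) (by fun_prop) (fun t _ => by simp)
  have e3 := ev_pos' (R := fun ε t => -d / 2 * (cos t ^ 2 + sin t ^ 2)
      - ε * (a0 t * (d1 t - d / 2 * (cos t ^ 2 - sin t ^ 2)))
      - ε ^ 2 * ((a1 t - d / 2 * d1 t) * (d1 t - d / 2 * (cos t ^ 2 - sin t ^ 2))))
    (x₀ := 0) (by fun_prop) (fun t _ => by
      rw [cos_sq_add_sin_sq]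
      norm_num
      linarith)
  obtain ⟨ε, hε, ⟨f1, f2⟩, f3⟩ := exists_gt_of_ev ((e1.and e2).and e3)
  have hpos : ∀ t ∈ Icc (0 : ℝ) (2 * π),
      0 < 1 / ε + a0 t + ε * (a1 t - d / 2 * d1 t) := fun t ht => by
    refine lt_of_lt_of_eq (div_pos (f1 t ht) hε) ?_
    field_simp
  refine ⟨fun t => 1 / ε + a0 t + ε * (a1 t - d / 2 * d1 t),
    fun t => d0 t + ε * (d1 t - d / 2 * (cos t ^ 2 - sin t ^ 2)),
    ⟨hpos, DerI.of fun t => ?_, Continuous.continuousOn (by fun_prop), fun t ht => ?_, ?_⟩, ?_⟩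
  · have : HasDerivAt d1 (cos t ^ 2 - sin t ^ 2) t :=
      ((hasDerivAt_sin t).fun_mul (hasDerivAt_cos t)).congr_deriv (by ring)
    exact ((da0 t).const_add (1 / ε)).fun_add
      (((da1 t).fun_sub (this.const_mul (d / 2))).const_mul ε)
  · have g1 := hpos t ht
    refine lt_of_lt_of_eq (div_pos (f3 t ht) g1) ?_
    unfold G
    obtain ⟨b, hb⟩ : ∃ b, b = 1 / ε + a0 t + ε * (a1 t - d / 2 * d1 t) := ⟨_, rfl⟩
    rw [← hb] at g1 ⊢
    field_simp
    rw [hb]
    unfold Aq Bq a0 a1 d0 d1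
    field_simp
    ring
  · simp [a0, a1, d1]
  · have g := div_pos (f2 _ mem2) hε
    have e : (1 + ε * (a0 (2 * π) - α (2 * π)) + ε ^ 2 * (a1 (2 * π) - d / 2 * d1 (2 * π))) / ε
        = 1 / ε + a0 (2 * π) + ε * (a1 (2 * π) - d / 2 * d1 (2 * π)) - α (2 * π) := by
      field_simp; ring
    rw [e] at g
    linarith

theorem exists_two : ∃ a d : ℝ, 0 < a ∧ ∃ u v, PerSol a (Aq d (-1) 0) (Bq 1 1) u ∧
    PerSol a (Aq d (-1) 0) (Bq 1 1) v ∧ u ≠ v := by
  obtain ⟨d, hd, α, α', hαc, hα⟩ := outer_bar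
  obtain ⟨β, β', hβ, hαβ⟩ := middle_bar hd hαc
  have hA := Aq_cont d (-1) 0
  have hB := Bq_cont 1 1
  obtain ⟨a, ha, hαa, hβa⟩ := exists_gt_of_ev ((hα.ev_a hA hB).and (hβ.ev_a hA hB))
  have e1 := ev_pos' (R := fun ε t => a + ε * Bq 1 1 t + ε ^ 2 * Aq d (-1) 0 t)
    (x₀ := 0) (by fun_prop) (fun t _ => by simpa using ha)
  have e2 := ev_pos' (R := fun ε _ => 1 - ε * β 0) (x₀ := 0) (by fun_prop) (fun t _ => by simp)
  obtain ⟨ε, hε, f1, f2⟩ := exists_gt_of_ev (e1.and e2)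
  have hU : Bar 1 a (Aq d (-1) 0) (Bq 1 1) (fun _ => 1 / ε) fun _ => 0 := by
    refine ⟨fun _ _ => by positivity, DerI.of fun t => hasDerivAt_const t _, continuousOn_const,
      fun t ht => ?_, by simp⟩
    refine lt_of_lt_of_eq (div_pos (f1 t ht) hε) ?_
    unfold G
    field_simp
    ring
  obtain ⟨u, hu, eu⟩ := E2 hA hB (Aq_per _ _ _) (Bq_per _ _) hαa hβa hαβ.le
  obtain ⟨v, hv, ev⟩ := E1 hA hB (Aq_per _ _ _) (Bq_per _ _) hβa hU (by
    have := f2 0 mem0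
    rw [le_div_iff₀ hε]; linarith)
  refine ⟨a, d, ha, u, v, hu, hv, fun h => ?_⟩
  subst h
  exact hβa.ne_sol hu fun t ht => le_antisymm (eu t ht).2 (ev t ht).1

end Pool.Agent.Lib.MP_41d825_an
end

-- part Pool.Agent.Lib.MP_41d825_an.Polar
section

set_option autoImplicit false

namespace Pool.Agent.Lib.MP_41d825_an

open Real Set Filter Topology

/-- The planar orbit attached to an inverse-radius function. -/
noncomputable def orb (u : ℝ → ℝ) : Set (ℝ × ℝ) := range fun t => (cos t / u t, sin t / u t)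

/-- Periodic orbits of the planar system. -/
def IsPO (a b c d e : ℝ) (O : Set (ℝ × ℝ)) : Prop :=
  ∃ γ : ℝ → ℝ × ℝ, ∃ T : ℝ, 0 < T ∧
    (∀ t, HasDerivAt γ
      (-(γ t).2 + (γ t).1 * (a + b * (γ t).1 + c * (γ t).2 + d * (γ t).1 ^ 2 + e * (γ t).1 * (γ t).2),
       (γ t).1 + (γ t).2 * (a + b * (γ t).1 + c * (γ t).2 + d * (γ t).1 ^ 2 + e * (γ t).1 * (γ t).2)) t) ∧
    Function.Periodic γ T ∧ (∃ s t, γ s ≠ γ t) ∧ Set.range γ = O

lemma po_of_persol {a b c d e : ℝ} {u : ℝ → ℝ} (hu : PerSol a (Aq d e 0) (Bq b c) u) :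
    IsPO a b c d e (orb u) := by
  refine ⟨fun t => (cos t / u t, sin t / u t), 2 * π, by positivity, fun t => ?_, fun t => ?_,
    ⟨0, π, fun h => ?_⟩, rfl⟩
  · have h0 := (hu.pos t).ne'
    refine HasDerivAt.prodMk (((hasDerivAt_cos t).fun_div (hu.der t) h0).congr_deriv ?_)
      (((hasDerivAt_sin t).fun_div (hu.der t) h0).congr_deriv ?_)
    · unfold G Aq Bq
      field_simp
      ring
    · unfold G Aq Bq
      field_simp
      ring
  · simp only [hu.per t, cos_add_two_pi, sin_add_two_pi]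
  · have h1 := congrArg Prod.fst h
    simp only [cos_zero, cos_pi] at h1
    have h2 : 0 < 1 / u 0 := div_pos one_pos (hu.pos 0)
    have h3 : -1 / u π < 0 := div_neg_of_neg_of_pos (by norm_num) (hu.pos π)
    linarith

lemma per_of_multiple {a : ℝ} {A B u : ℝ → ℝ} (hA : Continuous A)
    (hAp : Function.Periodic A (2 * π)) (hBp : Function.Periodic B (2 * π))
    (hu0 : ∀ t, 0 < u t) (hu : ∀ t, HasDerivAt u (G a A B t (u t)) t) {n : ℕ} (hn : 0 < n)
    (hp : u (n * (2 * π)) = u 0) : Function.Periodic u (2 * π) := by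
  have hv : ∀ t, HasDerivAt (fun t => u (t + 2 * π)) (G a A B t (u (t + 2 * π))) t := fun t => by
    have := (hu (t + 2 * π)).comp_add_const t (2 * π)
    unfold G at this ⊢
    rwa [hAp t, hBp t] at this
  have hd := diff_formula hA (fun t => hu0 (t + 2 * π)) hv hu0 hu 0
  have e : ∀ k : ℕ, (((k + 1 : ℕ) : ℝ)) * (2 * π) = k * (2 * π) + 2 * π := fun k => by
    push_cast; ring
  rcases lt_trichotomy (u (0 + 2 * π)) (u 0) with h | h | h
  · exfalso
    have : StrictAnti fun k : ℕ => u (k * (2 * π)) := strictAnti_nat_of_succ_lt fun k => by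
      obtain ⟨c, hc, hc'⟩ := hd (k * (2 * π))
      have : (u (0 + 2 * π) - u 0) * c < 0 := mul_neg_of_neg_of_pos (by linarith) hc
      rw [e]; linarith
    have := this hn
    simp [hp] at this
  · intro t
    obtain ⟨c, hc, hc'⟩ := hd t
    rw [h, sub_self, zero_mul] at hc'
    linarith
  · exfalso
    have : StrictMono fun k : ℕ => u (k * (2 * π)) := strictMono_nat_of_lt_succ fun k => by
      obtain ⟨c, hc, hc'⟩ := hd (k * (2 * π))
      have : 0 < (u (0 + 2 * π) - u 0) * c := mul_pos (by linarith) hc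
      rw [e]; linarith
    have := this hn
    simp [hp] at this

lemma persol_of_po {a b c d e : ℝ} {O : Set (ℝ × ℝ)} (h : IsPO a b c d e O) :
    ∃ u, PerSol a (Aq d e 0) (Bq b c) u ∧ O = orb u := by
  obtain ⟨γ, T, hT, hγ, hper, ⟨s₁, s₂, hne⟩, rfl⟩ := h
  obtain ⟨x, hxd⟩ : ∃ x : ℝ → ℝ, x = fun t => (γ t).1 := ⟨_, rfl⟩
  obtain ⟨y, hyd⟩ : ∃ y : ℝ → ℝ, y = fun t => (γ t).2 := ⟨_, rfl⟩
  have hγe : ∀ t, γ t = (x t, y t) := fun t => by rw [hxd, hyd]
  obtain ⟨F, hF⟩ : ∃ F : ℝ → ℝ, F = fun t => a + b * x t + c * y t + d * x t ^ 2 + e * x t * y t :=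
    ⟨_, rfl⟩
  have hx : ∀ t, HasDerivAt x (-y t + x t * F t) t := fun t => by
    rw [hF, hxd, hyd]
    exact (ContinuousLinearMap.fst ℝ ℝ ℝ).hasFDerivAt.comp_hasDerivAt t (hγ t)
  have hy : ∀ t, HasDerivAt y (x t + y t * F t) t := fun t => by
    rw [hF, hxd, hyd]
    exact (ContinuousLinearMap.snd ℝ ℝ ℝ).hasFDerivAt.comp_hasDerivAt t (hγ t)
  have hxc := cont_of_der hx
  have hyc := cont_of_der hy
  have hFc : Continuous F := by rw [hF]; fun_prop
  obtain ⟨E, hE⟩ : ∃ E : ℝ → ℝ, E = fun t => exp (∫ s in (0 : ℝ)..t, F s) := ⟨_, rfl⟩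
  have hE0 : ∀ t, 0 < E t := fun t => by rw [hE]; exact exp_pos _
  have hE' : ∀ t, HasDerivAt E (E t * F t) t := fun t => by
    rw [hE]; exact (hFc.integral_hasStrictDerivAt 0 t).hasDerivAt.exp
  have w1 : ∀ t, x t * cos t + y t * sin t = x 0 * E t := fun t => by
    have := lin_ode (d := fun t => x t * cos t + y t * sin t) hFc (fun t =>
      (((hx t).fun_mul (hasDerivAt_cos t)).fun_add
        ((hy t).fun_mul (hasDerivAt_sin t))).congr_deriv (by ring)) 0 t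
    rw [hE]; simpa using this
  have w2 : ∀ t, y t * cos t - x t * sin t = y 0 * E t := fun t => by
    have := lin_ode (d := fun t => y t * cos t - x t * sin t) hFc (fun t =>
      (((hy t).fun_mul (hasDerivAt_cos t)).fun_sub
        ((hx t).fun_mul (hasDerivAt_sin t))).congr_deriv (by ring)) 0 t
    rw [hE]; simpa using this
  have ex : ∀ t, x t = E t * (x 0 * cos t - y 0 * sin t) := fun t => by
    linear_combination cos t * w1 t - sin t * w2 t - x t * cos_sq_add_sin_sq t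
  have ey : ∀ t, y t = E t * (x 0 * sin t + y 0 * cos t) := fun t => by
    linear_combination sin t * w1 t + cos t * w2 t - y t * cos_sq_add_sin_sq t
  obtain ⟨z, hz⟩ : ∃ z : ℂ, z = ⟨x 0, y 0⟩ := ⟨_, rfl⟩
  have hz0 : z ≠ 0 := by
    intro h0
    have h1 : x 0 = 0 := by simpa [hz] using congrArg Complex.re h0
    have h2 : y 0 = 0 := by simpa [hz] using congrArg Complex.im h0
    apply hne
    rw [hγe, hγe, ex s₁, ey s₁, ex s₂, ey s₂, h1, h2]
    simp
  obtain ⟨r, hr⟩ : ∃ r, r = ‖z‖ := ⟨_, rfl⟩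
  obtain ⟨θ, hθ⟩ : ∃ θ, θ = z.arg := ⟨_, rfl⟩
  have hr0 : 0 < r := by rw [hr]; exact norm_pos_iff.2 hz0
  have hx0 : x 0 = r * cos θ := by rw [hr, hθ, Complex.norm_mul_cos_arg, hz]
  have hy0 : y 0 = r * sin θ := by rw [hr, hθ, Complex.norm_mul_sin_arg, hz]
  have fx : ∀ t, x t = r * E t * cos (t + θ) := fun t => by rw [ex t, hx0, hy0, cos_add]; ring
  have fy : ∀ t, y t = r * E t * sin (t + θ) := fun t => by rw [ey t, hx0, hy0, sin_add]; ring
  obtain ⟨u, hud⟩ : ∃ u : ℝ → ℝ, u = fun s => 1 / (r * E (s - θ)) := ⟨_, rfl⟩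
  have hu0 : ∀ s, 0 < u s := fun s => by
    rw [hud]; have := hE0 (s - θ); positivity
  have gx : ∀ s, x (s - θ) = cos s / u s := fun s => by
    rw [fx, hud, sub_add_cancel]; field_simp
  have gy : ∀ s, y (s - θ) = sin s / u s := fun s => by
    rw [fy, hud, sub_add_cancel]; field_simp
  have hu : ∀ s, HasDerivAt u (G a (Aq d e 0) (Bq b c) s (u s)) s := fun s => by
    have h1 := hE0 (s - θ)
    have h2 : HasDerivAt u (-u s * F (s - θ)) s := by
      rw [hud]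
      refine ((hasDerivAt_const s (1 : ℝ)).fun_div
        (((hE' (s - θ)).comp_sub_const s θ).const_mul r) (by positivity)).congr_deriv ?_
      field_simp
      ring
    refine h2.congr_deriv ?_
    have h3 := (hu0 s).ne'
    rw [hF]
    simp only [gx, gy]
    unfold G Aq Bq
    field_simp
    ring
  have px : x T = x 0 := by rw [hxd]; simpa using congrArg Prod.fst (hper 0)
  have py : y T = y 0 := by rw [hyd]; simpa using congrArg Prod.snd (hper 0)
  have hE00 : E 0 = 1 := by rw [hE]; simp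
  have q1 : E T * cos T = 1 := by
    have h1 := w1 T
    have h2 := w2 T
    rw [px, py, hx0, hy0] at h1 h2
    have h3 : E T * sin T = 0 → E T * cos T = 1 := by
      intro h4
      have hs : sin T = 0 := (mul_eq_zero.1 h4).resolve_left (hE0 T).ne'
      have hc : cos T = E T := by
        rw [hs] at h1 h2
        have : r * (cos T - E T) = 0 := by
          linear_combination cos θ * h1 + sin θ * h2 - r * (cos T - E T) * cos_sq_add_sin_sq θ
        have := (mul_eq_zero.1 this).resolve_left hr0.ne'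
        linarith
      rw [← hc]
      linear_combination cos_sq_add_sin_sq T - sin T * hs
    apply h3
    have : r * sin T = 0 := by
      linear_combination sin θ * h1 - cos θ * h2 - r * sin T * cos_sq_add_sin_sq θ
    rw [(mul_eq_zero.1 this).resolve_left hr0.ne', mul_zero]
  have q2 : cos T = E T := by
    have h1 := w1 T
    have h2 := w2 T
    rw [px, py, hx0, hy0] at h1 h2
    have : r * (cos T - E T) = 0 := by
      linear_combination cos θ * h1 + sin θ * h2 - r * (cos T - E T) * cos_sq_add_sin_sq θ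
    have := (mul_eq_zero.1 this).resolve_left hr0.ne'
    linarith
  have q3 : cos T = 1 := by
    have h1 := hE0 T
    rw [← q2] at q1 h1
    nlinarith
  obtain ⟨n, hn⟩ := (cos_eq_one_iff T).1 q3
  have hn0 : 0 < n := by
    have : (0 : ℝ) < n * (2 * π) := by rw [hn]; exact hT
    have h2 : (0 : ℝ) < n := (mul_pos_iff_of_pos_right (by positivity)).1 this
    exact_mod_cast h2
  obtain ⟨k, rfl⟩ := Int.eq_ofNat_of_zero_le hn0.le
  have hk : (k : ℝ) * (2 * π) = T := by exact_mod_cast hn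
  have hup : Function.Periodic u (2 * π) := by
    refine per_of_multiple (Aq_cont d e 0) (Aq_per d e 0) (Bq_per b c) hu0 hu
      (n := k) (by exact_mod_cast hn0) ?_
    have h1 : x (T - θ) = x (0 - θ) := by
      rw [hxd]
      have := congrArg Prod.fst (hper (0 - θ))
      rwa [show 0 - θ + T = T - θ by ring] at this
    rw [gx, gx, q3, cos_zero] at h1
    rw [hk]
    have h2 := (hu0 T).ne'
    have h3 := (hu0 0).ne'
    field_simp at h1
    linarith
  refine ⟨u, ⟨hu0, hup, hu⟩, ?_⟩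
  ext p
  constructor
  · rintro ⟨t, rfl⟩
    refine ⟨t + θ, ?_⟩
    simp only [← gx, ← gy, add_sub_cancel_right, hγe]
  · rintro ⟨s, rfl⟩
    exact ⟨s - θ, by rw [hγe, gx, gy]⟩

lemma eq_of_mem_orb {a : ℝ} {A B u v : ℝ → ℝ} (hA : Continuous A) (hu : PerSol a A B u)
    (hv : PerSol a A B v) (h : (1 / u 0, (0 : ℝ)) ∈ orb v) : u = v := by
  obtain ⟨t, ht⟩ := h
  have h1 := congrArg Prod.fst ht
  have h2 := congrArg Prod.snd ht
  simp only at h1 h2
  have hv0 := hv.pos t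
  have hu0 := hu.pos 0
  have hs : sin t = 0 := by
    rcases div_eq_zero_iff.1 h2 with h | h
    · exact h
    · exact absurd h hv0.ne'
  have hc : 0 < cos t := by
    have : 0 < cos t / v t := by rw [h1]; positivity
    exact (div_pos_iff_of_pos_right hv0).1 this
  have hc1 : cos t = 1 := by
    have := cos_sq_add_sin_sq t
    rw [hs] at this
    nlinarith
  obtain ⟨n, hn⟩ := (cos_eq_one_iff t).1 hc1
  have h3 : v t = v 0 := by
    rw [← hn]; exact hv.per.int_mul_eq n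
  rw [hc1, h3] at h1
  have h4 := (hv.pos 0).ne'
  refine hu.eq_of_eq hA hv (t₀ := 0) ?_
  field_simp at h1
  linarith

lemma base_mem_orb (u : ℝ → ℝ) : (1 / u 0, (0 : ℝ)) ∈ orb u := ⟨0, by simp⟩

lemma iso_of_lc {a b c d e : ℝ} {u : ℝ → ℝ} (hu : PerSol a (Aq d e 0) (Bq b c) u)
    {U : Set (ℝ × ℝ)} (hU : IsOpen U) (hsub : orb u ⊆ U)
    (hiso : ∀ O', IsPO a b c d e O' → O' ⊆ U → O' = orb u) : Iso a (Aq d e 0) (Bq b c) u := by
  have huc := hu.cont
  have hev : ∀ᶠ h in 𝓝 (0 : ℝ), ∀ t ∈ Icc (0 : ℝ) (2 * π),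
      (cos t / (u t + h), sin t / (u t + h)) ∈ U := by
    refine isCompact_Icc.eventually_forall_of_forall_eventually
      (P := fun h t => (cos t / (u t + h), sin t / (u t + h)) ∈ U) fun t _ => ?_
    have hne : u t + 0 ≠ 0 := by simpa using (hu.pos t).ne'
    have hc : ContinuousAt (fun z : ℝ × ℝ => (cos z.2 / (u z.2 + z.1), sin z.2 / (u z.2 + z.1)))
        (0, t) := by
      have c1 : ContinuousAt (fun z : ℝ × ℝ => cos z.2) (0, t) := by fun_prop
      have c2 : ContinuousAt (fun z : ℝ × ℝ => sin z.2) (0, t) := by fun_prop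
      have c3 : ContinuousAt (fun z : ℝ × ℝ => u z.2 + z.1) (0, t) := by fun_prop
      exact (c1.div c3 hne).prodMk (c2.div c3 hne)
    refine hc.eventually (hU.mem_nhds ?_)
    simp only [add_zero]
    exact hsub ⟨t, rfl⟩
  obtain ⟨ε, hε, H⟩ := Metric.eventually_nhds_iff.1 hev
  refine ⟨ε, hε, fun w hw hclose => ?_⟩
  have h1 : orb w ⊆ U := by
    rintro _ ⟨t, rfl⟩
    have hp : Function.Periodic (fun t => (cos t / w t, sin t / w t)) (2 * π) := fun t => by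
      simp only [hw.per t, cos_add_two_pi, sin_add_two_pi]
    obtain ⟨s, hs, e⟩ := hp.exists_mem_Ico₀ (by positivity) t
    have hs' := Ico_subset_Icc_self hs
    have := H (y := w s - u s) (by simpa [Real.dist_eq] using hclose s hs') s hs'
    rw [add_sub_cancel] at this
    simp only
    rw [e]; exact this
  have h2 := hiso _ (po_of_persol hw) h1
  exact eq_of_mem_orb (Aq_cont d e 0) hw hu (h2 ▸ base_mem_orb w)

theorem upper_bound (a b c d e : ℝ) (LC : Set (ℝ × ℝ) → Prop)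
    (hLC : ∀ O, LC O ↔ IsPO a b c d e O ∧ ∃ U : Set (ℝ × ℝ), IsOpen U ∧ O ⊆ U ∧
      ∀ O', IsPO a b c d e O' → O' ⊆ U → O' = O) (O₁ O₂ O₃ : Set (ℝ × ℝ))
    (h₁ : LC O₁) (h₂ : LC O₂) (h₃ : LC O₃) : O₁ = O₂ ∨ O₁ = O₃ ∨ O₂ = O₃ := by
  have key : ∀ O, LC O → ∃ u, (PerSol a (Aq d e 0) (Bq b c) u ∧ Iso a (Aq d e 0) (Bq b c) u) ∧
      O = orb u := by
    intro O h
    obtain ⟨hpo, U, hU, hsub, hiso⟩ := (hLC O).1 h
    obtain ⟨u, hu, rfl⟩ := persol_of_po hpo
    exact ⟨u, ⟨hu, iso_of_lc hu hU hsub hiso⟩, rfl⟩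
  obtain ⟨u, hu, rfl⟩ := key _ h₁
  obtain ⟨v, hv, rfl⟩ := key _ h₂
  obtain ⟨w, hw, rfl⟩ := key _ h₃
  rcases no_three_iso a b c d e 0 hu hv hw with h | h | h
  · exact Or.inl (by rw [h])
  · exact Or.inr (Or.inl (by rw [h]))
  · exact Or.inr (Or.inr (by rw [h]))

theorem lower_bound : ∃ a b c d e : ℝ, ∀ LC : Set (ℝ × ℝ) → Prop,
    (∀ O, LC O ↔ IsPO a b c d e O ∧ ∃ U : Set (ℝ × ℝ), IsOpen U ∧ O ⊆ U ∧
      ∀ O', IsPO a b c d e O' → O' ⊆ U → O' = O) → ∃ O₁ O₂, LC O₁ ∧ LC O₂ ∧ O₁ ≠ O₂ := by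
  obtain ⟨a, d, ha, u, v, hu, hv, hne⟩ := exists_two
  refine ⟨a, 1, 1, d, -1, fun LC hLC => ?_⟩
  have hA := Aq_cont d (-1) 0
  have key : ∀ u v, PerSol a (Aq d (-1) 0) (Bq 1 1) u → PerSol a (Aq d (-1) 0) (Bq 1 1) v → u ≠ v →
      LC (orb u) := by
    intro u v hu hv hne
    refine (hLC _).2 ⟨po_of_persol hu, {(1 / v 0, (0 : ℝ))}ᶜ, isOpen_compl_singleton, ?_, ?_⟩
    · intro p hp h
      rw [mem_singleton_iff] at h
      exact hne (eq_of_mem_orb hA hv hu (h ▸ hp)).symm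
    · intro O' hO' hsub
      obtain ⟨w, hw, rfl⟩ := persol_of_po hO'
      rcases no_three_pos ha _ _ _ _ _ hu hv hw with h | h | h
      · exact absurd h hne
      · rw [h]
      · subst h
        exact absurd (mem_singleton _) (hsub (base_mem_orb v))
  refine ⟨orb u, orb v, key u v hu hv hne, key v u hv hu hne.symm, fun h => hne ?_⟩
  exact eq_of_mem_orb hA hu hv (h ▸ base_mem_orb u)

end Pool.Agent.Lib.MP_41d825_an
end
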